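import Mathlib

/-! Finite tools: fibrewise injections, edge colourings of bipartite multigraphs, greedy colouring. -/

set_option autoImplicit false

namespace Pool.Agent.Lib.MP_2b1ae8_co.AT

open Finset

theorem fib_inj {E K β : Type} [DecidableEq K] [Nonempty β] (s : Finset E) (f : E → K)
    (A : K → Finset β) (h : ∀ k, #{e ∈ s | f e = k} ≤ #(A k)) :
    ∃ g : E → β, (∀ e ∈ s, g e ∈ A (f e)) ∧
      ∀ e ∈ s, ∀ e' ∈ s, f e = f e' → g e = g e' → e = e' := by
  classical
  have h1 : ∀ k, ∃ g : E → β, (∀ e ∈ s, f e = k → g e ∈ A k) ∧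
      ∀ e ∈ s, ∀ e' ∈ s, f e = k → f e' = k → g e = g e' → e = e' := by
    intro k
    obtain ⟨g⟩ := Function.Embedding.nonempty_of_card_le (α := (s.filter (f · = k) : Finset E))
      (β := A k) (by rw [Fintype.card_coe, Fintype.card_coe]; exact h k)
    refine ⟨fun e => if h : e ∈ s.filter (f · = k) then g ⟨e, h⟩ else Classical.arbitrary _,
      fun e he hk => ?_, fun e he e' he' hk hk' hg => ?_⟩
    · have h1 : e ∈ s.filter (f · = k) := mem_filter.2 ⟨he, hk⟩
      simp only [dif_pos h1]
      exact (g ⟨e, h1⟩).2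
    · have h1 : e ∈ s.filter (f · = k) := mem_filter.2 ⟨he, hk⟩
      have h2 : e' ∈ s.filter (f · = k) := mem_filter.2 ⟨he', hk'⟩
      simp only [dif_pos h1, dif_pos h2] at hg
      exact congrArg Subtype.val (g.injective (Subtype.ext hg))
  choose g g1 g2 using h1
  refine ⟨fun e => g (f e) e, fun e he => g1 _ e he rfl, fun e he e' he' hf hg => ?_⟩
  refine g2 (f e) e he e' he' rfl hf.symm ?_
  simpa [hf] using hg

section
variable {α : Type} [Fintype α] [DecidableEq α]

lemma decomp (d : ℕ) : ∀ M : α → α → ℕ, (∀ i, ∑ j, M i j = d) → (∀ j, ∑ i, M i j = d) →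
    ∃ σ : Fin d → Equiv.Perm α, ∀ i j, M i j ≤ #{k | σ k i = j} := by
  induction d with
  | zero =>
    intro M h _
    refine ⟨Fin.elim0, fun i j => ?_⟩
    have := single_le_sum (f := M i) (fun _ _ => Nat.zero_le _) (mem_univ j)
    rw [h] at this
    omega
  | succ d ih =>
    intro M h1 h2
    obtain ⟨f, f1, f2⟩ := (all_card_le_biUnion_card_iff_exists_injective
      (fun i => univ.filter fun j => 0 < M i j)).1 (fun s => by
        set T := s.biUnion fun i => univ.filter fun j => 0 < M i j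
        refine Nat.le_of_mul_le_mul_right (c := d + 1) ?_ (by omega)
        calc s.card * (d + 1) = ∑ i ∈ s, ∑ j ∈ T, M i j := by
              rw [← smul_eq_mul, ← sum_const]
              refine sum_congr rfl fun i hi => ?_
              rw [← h1 i]
              refine (sum_subset (subset_univ _) fun j _ hj => ?_).symm
              by_contra h
              exact hj (mem_biUnion.2 ⟨i, hi, by simpa using Nat.pos_of_ne_zero h⟩)
          _ ≤ ∑ _j ∈ T, (d + 1) := by
              rw [sum_comm]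
              exact sum_le_sum fun j _ => h2 j ▸ sum_le_sum_of_subset (subset_univ _)
          _ = _ := by simp)
    let τ := Equiv.ofBijective f (Finite.injective_iff_bijective.1 f1)
    have e1 : ∀ i j, M i j = (M i j - if τ i = j then 1 else 0) + if τ i = j then 1 else 0 := by
      intro i j
      split_ifs with h
      · have : 0 < M i (τ i) := (mem_filter.1 (f2 i)).2
        rw [h] at this
        omega
      · rfl
    obtain ⟨σ, hσ⟩ := ih (fun i j => M i j - if τ i = j then 1 else 0) (fun i => by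
      have := h1 i
      rw [sum_congr rfl fun j _ => e1 i j, sum_add_distrib] at this
      simpa using this) (fun j => by
      have := h2 j
      rw [sum_congr rfl fun i _ => e1 i j, sum_add_distrib] at this
      simpa [← Equiv.eq_symm_apply] using this)
    refine ⟨Fin.cons τ σ, fun i j => ?_⟩
    rw [card_filter, Fin.sum_univ_succ, e1 i j]
    have := hσ i j
    rw [card_filter] at this
    simp only [Fin.cons_zero, Fin.cons_succ]
    omega

lemma pad (d t : ℕ) : ∀ M : α → α → ℕ, (∀ i, ∑ j, M i j ≤ d) → (∀ j, ∑ i, M i j ≤ d) →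
    ∑ i, ∑ j, M i j + t = ∑ _i : α, d → ∃ M' : α → α → ℕ, (∀ i j, M i j ≤ M' i j) ∧
      (∀ i, ∑ j, M' i j = d) ∧ ∀ j, ∑ i, M' i j = d := by
  induction t with
  | zero =>
    intro M h1 h2 h3
    refine ⟨M, fun _ _ => le_rfl, fun i => (sum_eq_sum_iff_of_le fun i _ => h1 i).1 h3 i
      (mem_univ _), fun j => (sum_eq_sum_iff_of_le fun j _ => h2 j).1 ?_ j (mem_univ _)⟩
    rwa [sum_comm]
  | succ t ih =>
    intro M h1 h2 h3
    obtain ⟨a, -, ha⟩ := exists_lt_of_sum_lt (s := univ) (f := fun i => ∑ j, M i j)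
      (g := fun _ => d) (by omega)
    obtain ⟨b, -, hb⟩ := exists_lt_of_sum_lt (s := univ) (f := fun j => ∑ i, M i j)
      (g := fun _ => d) (by rw [sum_comm]; omega)
    have e1 : ∀ i, ∑ j, (M i j + if i = a ∧ j = b then 1 else 0) =
        ∑ j, M i j + if i = a then 1 else 0 := fun i => by
      rw [sum_add_distrib]; by_cases h : i = a <;> simp [h]
    have e2 : ∀ j, ∑ i, (M i j + if i = a ∧ j = b then 1 else 0) =
        ∑ i, M i j + if j = b then 1 else 0 := fun j => by
      rw [sum_add_distrib]; by_cases h : j = b <;> simp [h]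
    obtain ⟨M', m1, m2, m3⟩ := ih (fun i j => M i j + if i = a ∧ j = b then 1 else 0)
      (fun i => by
        rw [e1]; split_ifs with h
        · subst h; exact ha
        · exact h1 i)
      (fun j => by
        rw [e2]; split_ifs with h
        · subst h; exact hb
        · exact h2 j)
      (by
        rw [sum_congr rfl fun i _ => e1 i, sum_add_distrib]
        simp only [sum_ite_eq', mem_univ, if_true]
        omega)
    exact ⟨M', fun i j => le_trans (Nat.le_add_right _ _) (m1 i j), m2, m3⟩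

end

/-- Edge colouring of a bipartite multigraph of maximum degree `d` with `d` colours. -/
theorem konig {E A B : Type} [DecidableEq A] [DecidableEq B] (s : Finset E) (l : E → A)
    (r : E → B) (d : ℕ) (hd : 0 < d) (hl : ∀ a, #{e ∈ s | l e = a} ≤ d)
    (hr : ∀ b, #{e ∈ s | r e = b} ≤ d) :
    ∃ c : E → Fin d, ∀ e ∈ s, ∀ e' ∈ s, c e = c e' → (l e = l e' ∨ r e = r e') → e = e' := by
  classical
  let X : Finset (A ⊕ B) := s.image (fun e => Sum.inl (l e)) ∪ s.image (fun e => Sum.inr (r e))
  rcases s.eq_empty_or_nonempty with rfl | ⟨e0, he0⟩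
  · exact ⟨fun _ => ⟨0, hd⟩, by simp⟩
  have x0 : X := ⟨Sum.inl (l e0), by simp only [X, mem_union, mem_image]; exact Or.inl ⟨e0, he0, rfl⟩⟩
  let L : E → X := fun e => if h : e ∈ s then ⟨Sum.inl (l e), by
    simp only [X, mem_union, mem_image]; exact Or.inl ⟨e, h, rfl⟩⟩ else x0
  let R : E → X := fun e => if h : e ∈ s then ⟨Sum.inr (r e), by
    simp only [X, mem_union, mem_image]; exact Or.inr ⟨e, h, rfl⟩⟩ else x0
  have hL : ∀ e ∈ s, ∀ e' ∈ s, L e = L e' ↔ l e = l e' := fun e he e' he' => by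
    simp [L, he, he']
  have hR : ∀ e ∈ s, ∀ e' ∈ s, R e = R e' ↔ r e = r e' := fun e he e' he' => by
    simp [R, he, he']
  let M : X → X → ℕ := fun i j => #{e ∈ s | (L e, R e) = (i, j)}
  have m1 : ∀ i, ∑ j, M i j ≤ d := fun i => by
    have : ∑ j, M i j = #{e ∈ s | L e = i} := by
      rw [card_eq_sum_card_fiberwise (f := R) (t := univ) (fun _ _ => mem_univ _)]
      refine sum_congr rfl fun j _ => ?_
      simp only [M, filter_filter, Prod.mk.injEq]
    rw [this]
    rcases (s.filter (fun e => L e = i)).eq_empty_or_nonempty with h | ⟨e, he⟩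
    · simp [h]
    · refine le_trans (card_le_card fun e' he' => ?_) (hl (l e))
      rw [mem_filter] at he he' ⊢
      exact ⟨he'.1, (hL _ he'.1 _ he.1).1 (he'.2.trans he.2.symm)⟩
  have m2 : ∀ j, ∑ i, M i j ≤ d := fun j => by
    have : ∑ i, M i j = #{e ∈ s | R e = j} := by
      rw [card_eq_sum_card_fiberwise (f := L) (t := univ) (fun _ _ => mem_univ _)]
      refine sum_congr rfl fun i _ => ?_
      simp only [M, filter_filter, Prod.mk.injEq]
      exact congrArg card (filter_congr fun _ _ => and_comm)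
    rw [this]
    rcases (s.filter (fun e => R e = j)).eq_empty_or_nonempty with h | ⟨e, he⟩
    · simp [h]
    · refine le_trans (card_le_card fun e' he' => ?_) (hr (r e))
      rw [mem_filter] at he he' ⊢
      exact ⟨he'.1, (hR _ he'.1 _ he.1).1 (he'.2.trans he.2.symm)⟩
  have m3 : ∑ i, ∑ j, M i j ≤ ∑ _i : X, d := sum_le_sum fun i _ => m1 i
  obtain ⟨M', n1, n2, n3⟩ := pad d (∑ _i : X, d - ∑ i, ∑ j, M i j) M m1 m2 (by omega)
  obtain ⟨σ, hσ⟩ := decomp d M' n2 n3
  have : Nonempty (Fin d) := ⟨⟨0, hd⟩⟩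
  obtain ⟨c, c1, c2⟩ := fib_inj s (fun e => (L e, R e))
    (fun p => ({k | σ k p.1 = p.2} : Finset (Fin d))) (fun p => (n1 p.1 p.2).trans (hσ p.1 p.2))
  refine ⟨c, fun e he e' he' hc h => c2 e he e' he' ?_ hc⟩
  have a1 := (mem_filter.1 (c1 e he)).2
  have a2 := (mem_filter.1 (c1 e' he')).2
  simp only at a1 a2
  rw [← hc] at a2
  rcases h with h | h
  · have := (hL e he e' he').2 h
    rw [Prod.mk.injEq, ← a1, ← a2, this]
    exact ⟨rfl, rfl⟩
  · have := (hR e he e' he').2 h
    rw [Prod.mk.injEq]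
    exact ⟨(σ (c e)).injective (by rw [a1, a2, this]), this⟩

lemma equit_one {E A B Γ : Type} [DecidableEq A] [DecidableEq B] [DecidableEq Γ] (s : Finset E)
    (l : E → A) (r : E → B) (C : Finset Γ) (hC : C.Nonempty) :
    ∃ c : E → Γ, (∀ e, c e ∈ C) ∧
      (∀ a γ t, #{e ∈ s | l e = a} ≤ t * #C → #{e ∈ s | l e = a ∧ c e = γ} ≤ t) ∧
      (∀ b γ t, #{e ∈ s | r e = b} ≤ t * #C → #{e ∈ s | r e = b ∧ c e = γ} ≤ t) := by
  classical
  have hd : 0 < #C := card_pos.2 hC
  have num : ∀ {A : Type} [DecidableEq A] (l : E → A), ∃ n : E → ℕ,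
      (∀ a i, #{e ∈ s | (l e, n e) = (a, i)} ≤ #C) ∧
      ∀ e ∈ s, ∀ t, #{e' ∈ s | l e' = l e} ≤ t * #C → n e < t := by
    intro A _ l
    obtain ⟨g, g1, g2⟩ := fib_inj s l (fun a => range #{e ∈ s | l e = a}) (fun a => by simp)
    refine ⟨fun e => g e / #C, fun a i => ?_, fun e he t ht => ?_⟩
    · refine le_trans ?_ (card_range #C).le
      refine card_le_card_of_injOn (fun e => g e % #C) (fun e _ => ?_) (fun e he e' he' h => ?_)
      · simpa using Nat.mod_lt _ hd
      · simp only [coe_filter, Prod.mk.injEq, Set.mem_ofPred_eq] at he he' h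
        refine g2 e he.1 e' he'.1 (he.2.1.trans he'.2.1.symm) ?_
        rw [← Nat.div_add_mod (g e) #C, ← Nat.div_add_mod (g e') #C, h, he.2.2, he'.2.2]
    · have := mem_range.1 (g1 e he)
      exact (Nat.div_lt_iff_lt_mul hd).2 (lt_of_lt_of_le this ht)
  obtain ⟨nl, l1, l2⟩ := num l
  obtain ⟨nr, r1, r2⟩ := num r
  obtain ⟨c, hc⟩ := konig s (fun e => (l e, nl e)) (fun e => (r e, nr e)) #C hd
    (fun p => l1 p.1 p.2) (fun p => r1 p.1 p.2)
  have ci : ∀ e e', (C.equivFin.symm (c e) : Γ) = C.equivFin.symm (c e') → c e = c e' :=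
    fun e e' h => C.equivFin.symm.injective (Subtype.ext h)
  refine ⟨fun e => C.equivFin.symm (c e), fun e => (C.equivFin.symm (c e)).2,
    fun a γ t ht => ?_, fun b γ t ht => ?_⟩
  · refine le_trans ?_ (card_range t).le
    refine card_le_card_of_injOn nl (fun e he => ?_) (fun e he e' he' h => ?_)
    · simp only [coe_filter, Set.mem_ofPred_eq] at he
      simpa using l2 e he.1 t (by rw [he.2.1]; exact ht)
    · simp only [coe_filter, Set.mem_ofPred_eq] at he he'
      exact hc e he.1 e' he'.1 (ci _ _ (he.2.2.trans he'.2.2.symm))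
        (Or.inl (by rw [he.2.1, he'.2.1, h]))
  · refine le_trans ?_ (card_range t).le
    refine card_le_card_of_injOn nr (fun e he => ?_) (fun e he e' he' h => ?_)
    · simp only [coe_filter, Set.mem_ofPred_eq] at he
      simpa using r2 e he.1 t (by rw [he.2.1]; exact ht)
    · simp only [coe_filter, Set.mem_ofPred_eq] at he he'
      exact hc e he.1 e' he'.1 (ci _ _ (he.2.2.trans he'.2.2.symm))
        (Or.inr (by rw [he.2.1, he'.2.1, h]))

/-- Equitable colourings, with a palette depending on a key. -/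
theorem equitable {E S A B Γ : Type} [DecidableEq S] [DecidableEq A] [DecidableEq B]
    [DecidableEq Γ] [Nonempty Γ] (s : Finset E) (key : E → S) (l : E → A) (r : E → B)
    (C : S → Finset Γ) (hC : ∀ e ∈ s, (C (key e)).Nonempty) :
    ∃ c : E → Γ, (∀ e ∈ s, c e ∈ C (key e)) ∧
      (∀ k a γ t, #{e ∈ s | key e = k ∧ l e = a} ≤ t * #(C k) →
        #{e ∈ s | key e = k ∧ l e = a ∧ c e = γ} ≤ t) ∧
      (∀ k b γ t, #{e ∈ s | key e = k ∧ r e = b} ≤ t * #(C k) →
        #{e ∈ s | key e = k ∧ r e = b ∧ c e = γ} ≤ t) := by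
  classical
  have h1 : ∀ k, ∃ c : E → Γ, (∀ e ∈ s, key e = k → c e ∈ C k) ∧
      (∀ a γ t, #{e ∈ s | key e = k ∧ l e = a} ≤ t * #(C k) →
        #{e ∈ s | key e = k ∧ l e = a ∧ c e = γ} ≤ t) ∧
      (∀ b γ t, #{e ∈ s | key e = k ∧ r e = b} ≤ t * #(C k) →
        #{e ∈ s | key e = k ∧ r e = b ∧ c e = γ} ≤ t) := by
    intro k
    by_cases h : (C k).Nonempty
    · obtain ⟨c, c1, c2, c3⟩ := equit_one (s.filter (key · = k)) l r (C k) h
      simp only [filter_filter] at c2 c3
      exact ⟨c, fun e _ _ => c1 e, c2, c3⟩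
    · have h0 : ∀ e ∈ s, key e ≠ k := fun e he hk => h (hk ▸ hC e he)
      refine ⟨fun _ => Classical.arbitrary _, fun e he hk => absurd hk (h0 e he),
        fun a γ t _ => ?_, fun b γ t _ => ?_⟩ <;>
      · rw [filter_false_of_mem (fun e he hh => h0 e he hh.1)]; simp
  choose c c1 c2 c3 using h1
  refine ⟨fun e => c (key e) e, fun e he => c1 _ e he rfl, fun k a γ t ht => ?_,
    fun k b γ t ht => ?_⟩
  · refine le_trans (le_of_eq ?_) (c2 k a γ t ht)
    congr 1
    exact filter_congr fun e _ => and_congr_right fun hk => by simp only [hk]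
  · refine le_trans (le_of_eq ?_) (c3 k b γ t ht)
    congr 1
    exact filter_congr fun e _ => and_congr_right fun hk => by simp only [hk]

theorem greedy_col {E β : Type} [DecidableEq E] [DecidableEq β] [Nonempty β] (R : E → E → Prop)
    [DecidableRel R] (hR : ∀ e e', R e e' → R e' e) (W : Finset β) (s : Finset E)
    (h : ∀ e ∈ s, #{e' ∈ s | R e e'} < #W) :
    ∃ c : E → β, (∀ e ∈ s, c e ∈ W) ∧ ∀ e ∈ s, ∀ e' ∈ s, R e e' → c e = c e' → e = e' := by
  induction s using Finset.induction_on with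
  | empty => exact ⟨fun _ => Classical.arbitrary _, by simp, by simp⟩
  | insert a s ha ih =>
    obtain ⟨c, c1, c2⟩ := ih (fun e he => lt_of_le_of_lt
      (card_le_card (filter_subset_filter _ (subset_insert _ _))) (h e (mem_insert_of_mem he)))
    obtain ⟨w, hw, hw'⟩ := exists_mem_notMem_of_card_lt_card
      (s := (s.filter (R a)).image c) (t := W) (lt_of_le_of_lt card_image_le (lt_of_le_of_lt
        (card_le_card (filter_subset_filter _ (subset_insert _ _))) (h a (mem_insert_self _ _))))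
    have hu : ∀ e ∈ s, Function.update c a w e = c e := fun e he =>
      Function.update_of_ne (by rintro rfl; exact ha he) _ _
    refine ⟨Function.update c a w, fun e he => ?_, fun e he e' he' hr hc => ?_⟩
    · rcases mem_insert.1 he with rfl | he
      · simpa using hw
      · rw [hu e he]; exact c1 e he
    · rcases mem_insert.1 he with h1 | h1 <;> rcases mem_insert.1 he' with h2 | h2
      · rw [h1, h2]
      · rw [hu e' h2, h1, Function.update_self] at hc
        exact absurd (mem_image.2 ⟨e', mem_filter.2 ⟨h2, h1 ▸ hr⟩, hc.symm⟩) hw'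
      · rw [hu e h1, h2, Function.update_self] at hc
        exact absurd (mem_image.2 ⟨e, mem_filter.2 ⟨h1, hR _ _ (h2 ▸ hr)⟩, hc⟩) hw'
      · rw [hu e h1, hu e' h2] at hc
        exact c2 e h1 e' h2 hr hc

theorem fiber_mul_le {P A : Type} [AddCommGroup P] [Fintype P] [AddCommGroup A] [DecidableEq A]
    (f : P →+ A) (S : Finset A) (hS : ∀ a ∈ S, ∃ p, f p = a) (a : A) :
    #{p | f p = a} * #S ≤ Fintype.card P := by
  classical
  rcases (univ.filter (fun p => f p = a)).eq_empty_or_nonempty with h | ⟨p0, hp0⟩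
  · simp [h]
  have h0 : f p0 = a := (mem_filter.1 hp0).2
  choose! u hu using hS
  rw [← card_product, ← card_univ]
  refine card_le_card_of_injOn (fun x => x.1 - p0 + u x.2) (fun _ _ => mem_univ _) ?_
  rintro ⟨p, b⟩ hp ⟨p', b'⟩ hp' h
  simp only [coe_product, coe_filter, mem_univ, true_and, Set.mem_prod, Set.mem_ofPred_eq,
    mem_coe] at hp hp' h
  have hb : b = b' := by
    have := congrArg f h
    simpa [map_add, map_sub, hp.1, hp'.1, h0, hu b hp.2, hu b' hp'.2] using this
  subst hb
  simpa using h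

theorem exists_shift {A : Type} [AddCommGroup A] (cp : ℕ → ℕ) (δ : ℕ → A) :
    ∃ t : ℕ → A, t 0 = 0 ∧ ∀ i, cp i < i → t i = t (cp i) + δ i := by
  let t : ℕ → A := fun i => Nat.strongRec (motive := fun _ => A)
    (fun i f => if h : cp i < i then f (cp i) h + δ i else 0) i
  have ht : ∀ i, t i = if cp i < i then t (cp i) + δ i else 0 := fun i => by
    simp only [t]
    rw [Nat.strongRec_eq]
    split_ifs <;> rfl
  exact ⟨t, by rw [ht]; simp, fun i hi => by rw [ht i, if_pos hi]⟩

theorem exists_disj {ι : Type} [Fintype ι] [DecidableEq ι] (μ : ι → ℕ) (m : ℕ)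
    (h : ∑ i, μ i ≤ m) :
    ∃ M : ι → Finset (Fin m), (∀ i, #(M i) = μ i) ∧ ∀ i j x, x ∈ M i → x ∈ M j → i = j := by
  obtain ⟨g⟩ := Function.Embedding.nonempty_of_card_le (α := Σ i, Fin (μ i)) (β := Fin m)
    (by simpa using h)
  refine ⟨fun i => univ.image fun x => g ⟨i, x⟩, fun i => ?_, fun i j x hi hj => ?_⟩
  · rw [card_image_of_injective _ (fun x y hxy => by simpa using g.injective hxy)]
    simp
  · obtain ⟨y, -, rfl⟩ := mem_image.1 hi
    obtain ⟨z, -, hz⟩ := mem_image.1 hj
    exact (congrArg Sigma.fst (g.injective hz)).symm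

end Pool.Agent.Lib.MP_2b1ae8_co.AT
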