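import Pool.Agent.Lib.MP_2b1ae8_co.AT.Defs2
import Pool.Agent.Lib.MP_2b1ae8_co.AT.Tools

/-! Asymptotic tree packing: classes of bounded size, late vertices, fibre counting. -/

set_option autoImplicit false

namespace Pool.Agent.Lib.MP_2b1ae8_co.AT

open Finset

theorem exists_class {I Ty : Type} [Fintype I] [DecidableEq I] [Fintype Ty] [DecidableEq Ty]
    (ty : I → Ty) (rk : I → ℕ) (hrk : Function.Injective rk) (cap : ℕ) (hcap : 0 < cap) :
    ∃ cl : I → ℕ, (∀ i j, cl i = cl j → ty i = ty j) ∧ (∀ Z, #{i | cl i = Z} ≤ cap) ∧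
      ∀ i, cap * cl i ≤ rk i + cap * Fintype.card Ty := by
  classical
  obtain ⟨rank, hrank⟩ : ∃ rank : I → ℕ, ∀ i, rank i = #{j | ty j = ty i ∧ rk j < rk i} :=
    ⟨_, fun _ => rfl⟩
  obtain ⟨key, hkey⟩ : ∃ key : I → Ty × ℕ, ∀ i, key i = (ty i, rank i / cap) :=
    ⟨_, fun _ => rfl⟩
  have rlt : ∀ i j, ty i = ty j → rk i < rk j → rank i < rank j := by
    intro i j ht h
    rw [hrank, hrank]
    refine card_lt_card ⟨fun x hx => ?_, fun hs => ?_⟩
    · simp only [mem_filter, mem_univ, true_and] at hx ⊢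
      exact ⟨hx.1.trans ht, hx.2.trans h⟩
    · have : i ∈ ({x | ty x = ty i ∧ rk x < rk i} : Finset I) :=
        hs (by simp only [mem_filter, mem_univ, true_and]; exact ⟨ht, h⟩)
      simp at this
  have rinj : ∀ i j, ty i = ty j → rank i = rank j → i = j := by
    intro i j ht h
    rcases lt_trichotomy (rk i) (rk j) with h1 | h1 | h1
    · exact absurd h (rlt i j ht h1).ne
    · exact hrk h1
    · exact absurd h (rlt j i ht.symm h1).ne'
  have hl : ∀ i, ∃ l, key l = key i ∧ ∀ j, key j = key i → rk l ≤ rk j := by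
    intro i
    obtain ⟨l, l1, l2⟩ := exists_min_image (univ.filter fun j => key j = key i) rk
      ⟨i, by simp⟩
    exact ⟨l, (mem_filter.1 l1).2, fun j hj => l2 j (by simpa using hj)⟩
  choose ld ld1 ld2 using hl
  obtain ⟨cl, hcl⟩ : ∃ cl : I → ℕ,
      ∀ i, cl i = #((univ.filter fun j => rk j < rk (ld i)).image key) := ⟨_, fun _ => rfl⟩
  have clt : ∀ i j, rk (ld i) < rk (ld j) → cl i < cl j := by
    intro i j h
    rw [hcl, hcl]
    refine card_lt_card ⟨image_subset_image fun x hx => ?_, fun hs => ?_⟩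
    · simp only [mem_filter, mem_univ, true_and] at hx ⊢
      exact hx.trans h
    · obtain ⟨x, hx, hx'⟩ := mem_image.1 (hs (mem_image_of_mem key
        (a := ld i) (by simpa using h)))
      have h1 := ld2 i x (hx'.trans (ld1 i))
      have h2 := (mem_filter.1 hx).2
      omega
  have ck : ∀ i j, cl i = cl j → key i = key j := by
    intro i j h
    rcases lt_trichotomy (rk (ld i)) (rk (ld j)) with h1 | h1 | h1
    · exact absurd h (clt i j h1).ne
    · rw [← ld1 i, ← ld1 j, hrk h1]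
    · exact absurd h (clt j i h1).ne'
  refine ⟨cl, fun i j h => ?_, fun Z => ?_, fun i => ?_⟩
  · have := ck i j h
    rw [hkey, hkey] at this
    exact congrArg Prod.fst this
  · refine le_trans ?_ (card_range cap).le
    refine card_le_card_of_injOn (fun i => rank i % cap) (fun i _ => ?_) (fun i hi j hj h => ?_)
    · simpa using Nat.mod_lt _ hcap
    · simp only [coe_filter, mem_univ, true_and, Set.mem_ofPred_eq] at hi hj h
      have h1 := ck i j (hi.trans hj.symm)
      rw [hkey, hkey, Prod.mk.injEq] at h1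
      refine rinj i j h1.1 ?_
      rw [← Nat.div_add_mod (rank i) cap, ← Nat.div_add_mod (rank j) cap, h, h1.2]
  · have hM : rk (ld i) ≤ rk i := ld2 i i rfl
    rw [hcl]
    generalize rk (ld i) = M at hM
    obtain ⟨n, hn⟩ : ∃ n : Ty → ℕ, ∀ y, n y = #{j ∈ univ.filter (fun j => rk j < M) | ty j = y} :=
      ⟨_, fun _ => rfl⟩
    have h1 : (univ.filter fun j => rk j < M).image key ⊆
        univ.biUnion fun y => (range (n y / cap + 1)).image fun q => (y, q) := by
      intro x hx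
      obtain ⟨j, hj, rfl⟩ := mem_image.1 hx
      have hj' := (mem_filter.1 hj).2
      refine mem_biUnion.2 ⟨ty j, mem_univ _, mem_image.2 ⟨rank j / cap, ?_, (hkey j).symm⟩⟩
      refine mem_range.2 (Nat.lt_succ_of_le (Nat.div_le_div_right ?_))
      rw [hrank, hn]
      refine card_le_card fun x hx => ?_
      simp only [mem_filter, mem_univ, true_and] at hx ⊢
      exact ⟨hx.2.trans hj', hx.1⟩
    have h2 : #((univ.filter fun j => rk j < M).image key) ≤ ∑ y, (n y / cap + 1) :=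
      (card_le_card h1).trans (card_biUnion_le.trans (sum_le_sum fun y _ =>
        card_image_le.trans (card_range _).le))
    have h3 : ∑ y, n y ≤ M := by
      rw [sum_congr rfl fun y _ => hn y, ← card_eq_sum_card_fiberwise (f := ty) (t := univ)
        (fun _ _ => mem_univ _)]
      refine le_trans ?_ (card_range M).le
      exact card_le_card_of_injOn rk (fun x hx => by simpa using hx) hrk.injOn
    calc cap * #((univ.filter fun j => rk j < M).image key) ≤ cap * ∑ y, (n y / cap + 1) :=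
          Nat.mul_le_mul_left _ h2
      _ = ∑ y, (cap * (n y / cap) + cap) := by rw [mul_sum]; simp only [mul_add, mul_one]
      _ ≤ ∑ y, (n y + cap) := sum_le_sum fun y _ => Nat.add_le_add_right (Nat.mul_div_le _ _) _
      _ = ∑ y, n y + cap * Fintype.card Ty := by rw [sum_add_distrib]; simp [mul_comm]
      _ ≤ _ := Nat.add_le_add_right (h3.trans hM) _

theorem late {V I H : Type} [Fintype V] [DecidableEq V] [DecidableEq I] [DecidableEq H]
    {K D g : ℕ} (F : GF V I K D g) (ψ : V → H) (lam U w : ℕ)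
    (hinj : ∀ u v, u ∉ F.La → v ∉ F.La → F.tr u = F.tr v → ψ u = ψ v → u = v)
    (hedge : ∀ u v, u ∉ F.R → v ∉ F.R → u ∉ F.La → F.par u ∉ F.La → v ∉ F.La → F.par v ∉ F.La →
      s(ψ u, ψ (F.par u)) = s(ψ v, ψ (F.par v)) → F.tr u = F.tr v)
    (hlam : ∀ i, #{v ∈ F.La | F.tr v = i} ≤ lam)
    (huse : ∀ y, #{u ∈ F.La | ψ (F.par u) = y} +
      #{u | u ∉ F.R ∧ F.par u ∈ F.La ∧ ψ u = y} ≤ U)
    (hw : lam + (D + 1) * U < w) :
    ∃ f : V → H ⊕ Fin w, (∀ u v, F.tr u = F.tr v → f u = f v → u = v) ∧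
      ∀ u v, u ∉ F.R → v ∉ F.R → s(f u, f (F.par u)) = s(f v, f (F.par v)) →
        F.tr u = F.tr v := by
  classical
  obtain ⟨N, hN⟩ : ∃ N : V → Finset H, ∀ v, N v =
      insert (ψ (F.par v)) (({u | u ∉ F.R ∧ F.par u = v} : Finset V).image ψ) :=
    ⟨_, fun _ => rfl⟩
  have n1 : ∀ v, ψ (F.par v) ∈ N v := fun v => by rw [hN]; exact mem_insert_self _ _
  have n2 : ∀ u, u ∉ F.R → ψ u ∈ N (F.par u) := fun u hu => by
    rw [hN]
    exact mem_insert_of_mem (mem_image_of_mem _ (by simpa using hu))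
  have n3 : ∀ v ∈ F.La, #(N v) ≤ D + 1 := fun v hv => by
    rw [hN]
    exact (card_insert_le _ _).trans (Nat.succ_le_succ (card_image_le.trans (F.ch_La v hv)))
  have n4 : ∀ y, #{v ∈ F.La | y ∈ N v} ≤ U := fun y => by
    refine le_trans ?_ (huse y)
    refine le_trans (card_le_card (t := {u ∈ F.La | ψ (F.par u) = y} ∪
      ({u | u ∉ F.R ∧ F.par u ∈ F.La ∧ ψ u = y} : Finset V).image F.par) fun v hv => ?_)
      ((card_union_le _ _).trans (Nat.add_le_add_left card_image_le _))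
    obtain ⟨hv1, hv2⟩ := mem_filter.1 hv
    rw [hN] at hv2
    rcases mem_insert.1 hv2 with h | h
    · exact mem_union_left _ (mem_filter.2 ⟨hv1, h.symm⟩)
    · obtain ⟨u, hu, rfl⟩ := mem_image.1 h
      obtain ⟨hu1, rfl⟩ := (mem_filter.1 hu).2
      exact mem_union_right _ (mem_image.2 ⟨u, by simpa using ⟨hu1, hv1⟩, rfl⟩)
  have : Nonempty (Fin w) := ⟨⟨0, by omega⟩⟩
  obtain ⟨c, -, hc⟩ := greedy_col (fun v v' => F.tr v = F.tr v' ∨ ∃ y ∈ N v, y ∈ N v')
    (fun v v' h => h.imp Eq.symm fun ⟨y, h1, h2⟩ => ⟨y, h2, h1⟩) (univ : Finset (Fin w)) F.La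
    (fun v hv => by
      rw [card_univ, Fintype.card_fin]
      refine lt_of_le_of_lt ?_ hw
      refine le_trans (card_le_card (t := {v' ∈ F.La | F.tr v' = F.tr v} ∪
        (N v).biUnion fun y => {v' ∈ F.La | y ∈ N v'}) fun v' hv' => ?_)
        ((card_union_le _ _).trans (Nat.add_le_add (hlam _) ?_))
      · obtain ⟨h1, h2⟩ := mem_filter.1 hv'
        rcases h2 with h2 | ⟨y, h2, h3⟩
        · exact mem_union_left _ (mem_filter.2 ⟨h1, h2.symm⟩)
        · exact mem_union_right _ (mem_biUnion.2 ⟨y, h2, mem_filter.2 ⟨h1, h3⟩⟩)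
      · refine card_biUnion_le.trans ((sum_le_sum fun y _ => n4 y).trans ?_)
        rw [sum_const, smul_eq_mul]
        exact Nat.mul_le_mul_right _ (n3 v hv))
  have key : ∀ a ∈ F.La, ∀ b ∈ F.La, ∀ y ∈ N a, y ∈ N b → c a = c b → F.tr a = F.tr b :=
    fun a ha b hb y h1 h2 h3 => by rw [hc a ha b hb (Or.inr ⟨y, h1, h2⟩) h3]
  refine ⟨fun v => if v ∈ F.La then Sum.inr (c v) else Sum.inl (ψ v), fun u v ht h => ?_,
    fun u v hu hv h => ?_⟩
  · by_cases h1 : u ∈ F.La <;> by_cases h2 : v ∈ F.La <;>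
      simp only [h1, h2, if_true, if_false, Sum.inr.injEq, Sum.inl.injEq, reduceCtorEq] at h
    · exact hc u h1 v h2 (Or.inl ht) h
    · exact hinj u v h1 h2 ht h
  · by_cases h1 : u ∈ F.La <;> by_cases h2 : v ∈ F.La <;>
      by_cases h3 : F.par u ∈ F.La <;> by_cases h4 : F.par v ∈ F.La <;>
      first
        | exact absurd h3 (F.par_La u h1)
        | exact absurd h4 (F.par_La v h2)
        | simp only [h1, h2, h3, h4, if_true, if_false, Sym2.eq_iff, Sum.inr.injEq, Sum.inl.injEq,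
            reduceCtorEq, and_false, false_and, or_false, false_or, and_self, or_self] at h
    · exact key u h1 v h2 _ (n1 u) (h.2 ▸ n1 v) h.1
    · rw [← F.tr_par v]
      exact key u h1 _ h4 _ (n1 u) (h.2 ▸ n2 v hv) h.1
    · rw [← F.tr_par u]
      exact key _ h3 v h2 _ (n2 u hu) (h.1 ▸ n1 v) h.2
    · rw [← F.tr_par u, ← F.tr_par v]
      exact key _ h3 _ h4 _ (n2 u hu) (h.1 ▸ n2 v hv) h.2
    · exact hedge u v hu hv h1 h3 h2 h4 (Sym2.eq_iff.2 h)

theorem count_fib {I Pl P : Type} [Fintype I] [DecidableEq I] [Fintype Pl] [DecidableEq Pl]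
    [AddCommGroup P] [Fintype P] [DecidableEq P] (pl : I → Pl) :
    ∃ ω : I → P, ∀ (A Y : Type) [AddCommGroup A] [DecidableEq A] [Fintype Y] [DecidableEq Y]
      (s : Finset I), (∀ i i', pl i = pl i' → i ∈ s → i' ∈ s) →
      ∀ (f : P →+ A) (S : Finset A), (∀ a ∈ S, ∃ p, f p = a) →
      ∀ (X : Pl → Finset Y) (y : Pl → Y → A) (c MM : ℕ), (∀ i ∈ s, #(X (pl i)) * c ≤ MM) →
        #{x : I × Y | x.1 ∈ s ∧ x.2 ∈ X (pl x.1) ∧ f (ω x.1) = y (pl x.1) x.2} * #S * c ≤
          (#s + Fintype.card Pl * Fintype.card P) * MM := by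
  obtain ⟨ω, -, hω, -⟩ := equitable (univ : Finset I) pl (fun _ => ()) (fun _ => ())
    (fun _ => (univ : Finset P)) (fun _ _ => univ_nonempty)
  refine ⟨ω, fun A Y _ _ _ _ s hs f S hS X y c MM hX => ?_⟩
  have hP : 0 < Fintype.card P := Fintype.card_pos
  obtain ⟨n, hn⟩ : ∃ n : Pl → ℕ, ∀ k, n k = #{i | pl i = k} := ⟨_, fun _ => rfl⟩
  have h1 : ∀ k γ, #{i | pl i = k ∧ ω i = γ} ≤ n k / Fintype.card P + 1 := fun k γ => by
    have := hω k () γ (n k / Fintype.card P + 1) (by
      rw [card_univ]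
      have h := Nat.lt_div_mul_add (a := n k) hP
      simp only [and_true]
      rw [← hn, add_mul, one_mul]
      exact h.le)
    simpa using this
  have h2 : ∀ k a, #{i | pl i = k ∧ f (ω i) = a} * #S ≤ n k + Fintype.card P := fun k a => by
    have e1 : #{i | pl i = k ∧ f (ω i) = a} ≤ #{p | f p = a} * (n k / Fintype.card P + 1) := by
      refine le_trans (card_le_card (t := ({p | f p = a} : Finset P).biUnion
        fun γ => {i | pl i = k ∧ ω i = γ}) fun i hi => ?_) ?_
      · have := (mem_filter.1 hi).2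
        exact mem_biUnion.2 ⟨ω i, by simpa using this.2, by simpa using this.1⟩
      · refine card_biUnion_le.trans ((sum_le_sum fun γ _ => h1 k γ).trans ?_)
        rw [sum_const, smul_eq_mul]
    calc _ ≤ #{p | f p = a} * (n k / Fintype.card P + 1) * #S := Nat.mul_le_mul_right _ e1
      _ = #{p | f p = a} * #S * (n k / Fintype.card P + 1) := by ring
      _ ≤ Fintype.card P * (n k / Fintype.card P + 1) :=
          Nat.mul_le_mul_right _ (fiber_mul_le f S hS a)
      _ ≤ _ := by rw [mul_add, mul_one]; exact Nat.add_le_add_right (Nat.mul_div_le _ _) _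
  have h3 : #{x : I × Y | x.1 ∈ s ∧ x.2 ∈ X (pl x.1) ∧ f (ω x.1) = y (pl x.1) x.2} ≤
      ∑ k ∈ s.image pl, ∑ z ∈ X k, #{i | pl i = k ∧ f (ω i) = y k z} := by
    refine le_trans (card_le_card (t := (s.image pl).biUnion fun k => (X k).biUnion fun z =>
      ({i | pl i = k ∧ f (ω i) = y k z} : Finset I).image fun i => (i, z)) fun x hx => ?_) ?_
    · obtain ⟨a1, a2, a3⟩ := (mem_filter.1 hx).2
      exact mem_biUnion.2 ⟨pl x.1, mem_image_of_mem _ a1, mem_biUnion.2 ⟨x.2, a2,
        mem_image.2 ⟨x.1, by simpa using a3, rfl⟩⟩⟩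
    · exact card_biUnion_le.trans (sum_le_sum fun k _ =>
        card_biUnion_le.trans (sum_le_sum fun z _ => card_image_le))
  have h4 : ∑ k ∈ s.image pl, n k = #s := by
    rw [card_eq_sum_card_image pl s]
    refine sum_congr rfl fun k hk => ?_
    obtain ⟨i, hi, rfl⟩ := mem_image.1 hk
    rw [hn]
    congr 1
    ext j
    simp only [mem_filter, mem_univ, true_and]
    exact ⟨fun h => ⟨hs i j h.symm hi, h⟩, fun h => h.2⟩
  calc _ ≤ (∑ k ∈ s.image pl, ∑ z ∈ X k, #{i | pl i = k ∧ f (ω i) = y k z}) * #S * c :=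
        Nat.mul_le_mul_right _ (Nat.mul_le_mul_right _ h3)
    _ = ∑ k ∈ s.image pl, (∑ z ∈ X k, #{i | pl i = k ∧ f (ω i) = y k z} * #S) * c := by
        rw [sum_mul, sum_mul]
        exact sum_congr rfl fun k _ => by rw [sum_mul]
    _ ≤ ∑ k ∈ s.image pl, (n k + Fintype.card P) * MM := sum_le_sum fun k hk => by
        obtain ⟨i, hi, rfl⟩ := mem_image.1 hk
        calc _ ≤ (∑ _z ∈ X (pl i), (n (pl i) + Fintype.card P)) * c :=
              Nat.mul_le_mul_right _ (sum_le_sum fun z _ => h2 _ _)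
          _ = (n (pl i) + Fintype.card P) * (#(X (pl i)) * c) := by
              rw [sum_const, smul_eq_mul]; ring
          _ ≤ _ := Nat.mul_le_mul_left _ (hX i hi)
    _ = (#s + #(s.image pl) * Fintype.card P) * MM := by
        rw [← sum_mul, sum_add_distrib, h4, sum_const, smul_eq_mul]
    _ ≤ _ := Nat.mul_le_mul_right _ (Nat.add_le_add_left
        (Nat.mul_le_mul_right _ (card_le_univ _)) _)

end Pool.Agent.Lib.MP_2b1ae8_co.AT
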