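import Mathlib

set_option autoImplicit false

namespace Pool.Agent.Lib.MP_2b1ae8_co.AT

open Finset

/-- positions of the cells -/
lemma ds_pos (Q L : ℕ) [NeZero Q] (A d j p : ℕ → ℕ) (hAd : ∀ i, A i + d i = Q)
    (hj : ∀ i, j (i + 1) = j i + A i) (hp : ∀ i, p (i + 1) = p i + d i)
    (hjp : ∀ i, j i + p i = i * Q) :
    ∃ pos : Fin L × ZMod Q → ℕ, Function.Injective pos ∧ (∀ x, pos x < L * Q) ∧
      (∀ x, x.2.val < A x.1 → pos x < j (x.1 + 1)) ∧
      ∀ x y, x.1 = y.1 → pos y + Q ≤ pos x →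
        L * Q + pos y < pos x + (x.1 + 1) * Q ∧ pos x + x.1 * Q < L * Q + pos y := by
  have mj : Monotone j := monotone_nat_of_le_succ fun i => by rw [hj]; omega
  have mp : Monotone p := monotone_nat_of_le_succ fun i => by rw [hp]; omega
  obtain ⟨pos, hC, hD⟩ : ∃ pos : Fin L × ZMod Q → ℕ,
      (∀ x, x.2.val < A x.1 → pos x = j x.1 + x.2.val) ∧
      ∀ x, ¬ x.2.val < A x.1 → pos x + 1 + p x.1 + x.2.val = L * Q + A x.1 := by
    refine ⟨fun x => if x.2.val < A x.1 then j x.1 + x.2.val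
      else L * Q - 1 - (p x.1 + (x.2.val - A x.1)), fun x hx => if_pos hx, fun x hx => ?_⟩
    have h1 := ZMod.val_lt x.2
    have h2 : p (x.1 + 1) ≤ p L := mp x.1.2
    have h3 := hjp L
    have h4 := hp x.1
    have h5 := hAd x.1
    simp only [if_neg hx]
    omega
  have hb : ∀ x : Fin L × ZMod Q, x.2.val < Q ∧ p (x.1 + 1) ≤ p L ∧ j (x.1 + 1) ≤ j L ∧
      p (x.1 + 1) = p x.1 + d x.1 ∧ j (x.1 + 1) = j x.1 + A x.1 ∧ A x.1 + d x.1 = Q :=
    fun x => ⟨ZMod.val_lt x.2, mp x.1.2, mj x.1.2, hp _, hj _, hAd _⟩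
  have hL := hjp L
  refine ⟨pos, ?_, ?_, ?_, ?_⟩
  · intro x y hxy
    have b1 := hb x
    have b2 := hb y
    have c1 := hC x
    have c2 := hC y
    have d1 := hD x
    have d2 := hD y
    have e1 : x.1 = y.1 := by
      rcases lt_trichotomy x.1 y.1 with h | h | h
      · have m1 : j (x.1 + 1) ≤ j y.1 := mj h
        have m2 : p (x.1 + 1) ≤ p y.1 := mp h
        omega
      · exact h
      · have m1 : j (y.1 + 1) ≤ j x.1 := mj h
        have m2 : p (y.1 + 1) ≤ p x.1 := mp h
        omega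
    rw [e1] at b1 c1 d1
    exact Prod.ext e1 (ZMod.val_injective Q (by omega))
  · intro x
    have b1 := hb x
    have c1 := hC x
    have d1 := hD x
    omega
  · intro x hx
    have b1 := hb x
    have c1 := hC x hx
    omega
  · intro x y e1 h
    have b1 := hb x
    have b2 := hb y
    have c1 := hC x
    have c2 := hC y
    have d1 := hD x
    have d2 := hD y
    have f1 := hjp x.1
    have f2 := hjp (x.1 + 1)
    rw [← e1] at b2 c2 d2
    omega

lemma ds_le {X : Type} [Fintype X] (pos : X → ℕ) (hinj : Function.Injective pos) (u w : ℕ)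
    (P : X → Prop) [DecidablePred P] (h : ∀ x, P x → u ≤ pos x ∧ pos x < u + w) :
    #(univ.filter P) ≤ w := by
  refine le_trans (card_le_card_of_injOn (t := Ico u (u + w)) pos ?_ hinj.injOn) (by simp)
  intro x hx
  simp only [coe_filter, mem_univ, true_and, Set.mem_ofPred_eq] at hx
  simpa using h x hx

lemma ds_ge {X : Type} [Fintype X] (pos : X → ℕ) (hinj : Function.Injective pos) (N : ℕ)
    (hN : Fintype.card X = N) (hlt : ∀ x, pos x < N) (u w : ℕ) (huw : u + w ≤ N)
    (P : X → Prop) [DecidablePred P] (h : ∀ x, u ≤ pos x → pos x < u + w → P x) :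
    w ≤ #(univ.filter P) := by
  have him : univ.image pos = range N := by
    refine eq_of_subset_of_card_le ?_ ?_
    · intro n hn
      obtain ⟨x, _, rfl⟩ := mem_image.1 hn
      simpa using hlt x
    · rw [card_image_of_injective _ hinj]
      simp [hN]
  have hsub : Ico u (u + w) ⊆ (univ.filter P).image pos := by
    intro n hn
    rw [mem_Ico] at hn
    have : n ∈ univ.image pos := by
      rw [him, mem_range]
      omega
    obtain ⟨x, _, rfl⟩ := mem_image.1 this
    exact mem_image.2 ⟨x, by simpa using h x hn.1 hn.2, rfl⟩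
  have := (card_le_card hsub).trans card_image_le
  simpa using this

lemma ds_sum {α β : Type} [Fintype α] [Fintype β] (P : α × β → Prop) [DecidablePred P] :
    #(univ.filter P) = ∑ a, #(univ.filter fun b => P (a, b)) := by
  simp only [card_filter]
  exact Fintype.sum_prod_type _

lemma ds_sum' {α β : Type} [Fintype α] [Fintype β] (P : α × β → Prop) [DecidablePred P] :
    #(univ.filter P) = ∑ b, #(univ.filter fun a => P (a, b)) := by
  simp only [card_filter]
  exact Fintype.sum_prod_type_right _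

/-- the sets attached to a predicate on pairs of cells -/
lemma ds_sets (Q L : ℕ) [NeZero Q] (I : Type)
    (P : I → Fin L × ZMod Q → Fin L × ZMod Q → Prop) [∀ i x y, Decidable (P i x y)] :
    ∃ S : Fin L → Fin L → I → Finset (ZMod Q × ZMod Q),
      (∀ Y Y' i x, x ∈ S Y Y' i ↔
        if Y < Y' then P i (Y, x.1) (Y', x.2) else P i (Y, x.2) (Y', x.1)) ∧
      ∀ Y Y' i, #(S Y Y' i) = ∑ v, #(univ.filter fun v' => P i (Y, v) (Y', v')) := by
  refine ⟨fun Y Y' i => univ.filter fun x =>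
    if Y < Y' then P i (Y, x.1) (Y', x.2) else P i (Y, x.2) (Y', x.1), by simp, ?_⟩
  intro Y Y' i
  by_cases h : Y < Y'
  · simp only [if_pos h]
    convert ds_sum (fun x : ZMod Q × ZMod Q => P i (Y, x.1) (Y', x.2))
  · simp only [if_neg h]
    convert ds_sum' (fun x : ZMod Q × ZMod Q => P i (Y, x.2) (Y', x.1))

theorem design (Q L : ℕ) [NeZero Q] (a : Fin L → Bool → ℕ) (d : Fin L → ℕ)
    (had : ∀ Z, a Z true + a Z false + d Z = Q) :
    ∃ (S : Fin L → Fin L → Bool ⊕ Fin L → Finset (ZMod Q × ZMod Q)) (c : Fin L → Fin L → ℕ),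
      (∀ Y Y' p p' x, x ∈ S Y Y' p → x ∈ S Y Y' p' → p = p') ∧
      (∀ Y Y' p p' x, Y ≠ Y' → x ∈ S Y Y' p → x ∉ S Y' Y p') ∧
      (∀ Z Y k, #(S Z Y (Sum.inl k)) = a Z k * c Z Y) ∧ (∀ Z Y, c Z Y ≤ Q) ∧
      (∀ Z Y, ∑ Y', #(S Y Y' (Sum.inr Z)) ≤ d Z * c Z Y) ∧
      (∀ Z Y', ∑ Y, #(S Y Y' (Sum.inr Z)) ≤ d Z * Q) ∧
      (∀ Z Y Y' x, x ∈ S Y Y' (Sum.inr Z) → Y ≠ Y' ∧ Y ≠ Z ∧ Y' ≠ Z) ∧
      (∀ Z : Fin L, d Z * Q * (L - Z - 5) ≤ ∑ Y, ∑ Y', #(S Y Y' (Sum.inr Z))) := by
  classical
  have hQ : 0 < Q := Nat.pos_of_ne_zero (NeZero.ne Q)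
  obtain ⟨A, D, hAd, hA, hD⟩ : ∃ A D : ℕ → ℕ, (∀ i, A i + D i = Q) ∧
      (∀ Z : Fin L, A Z = a Z true + a Z false) ∧ ∀ Z : Fin L, D Z = d Z := by
    refine ⟨fun i => if h : i < L then a ⟨i, h⟩ true + a ⟨i, h⟩ false else Q,
      fun i => if h : i < L then d ⟨i, h⟩ else 0, fun i => ?_, fun Z => dif_pos Z.2,
      fun Z => dif_pos Z.2⟩
    by_cases h : i < L
    · simp only [dif_pos h]
      exact had _
    · simp only [dif_neg h, add_zero]
  obtain ⟨j, p, hj, hp, hjp⟩ : ∃ j p : ℕ → ℕ, (∀ i, j (i + 1) = j i + A i) ∧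
      (∀ i, p (i + 1) = p i + D i) ∧ ∀ i, j i + p i = i * Q := by
    refine ⟨fun n => ∑ i ∈ range n, A i, fun n => ∑ i ∈ range n, D i,
      fun i => sum_range_succ _ _, fun i => sum_range_succ _ _, fun i => ?_⟩
    simp [← sum_add_distrib, hAd]
  have mj : Monotone j := monotone_nat_of_le_succ fun i => by rw [hj]; omega
  have mp : Monotone p := monotone_nat_of_le_succ fun i => by rw [hp]; omega
  obtain ⟨pos, hinj, hlt, hC, hsame⟩ := ds_pos Q L A D j p hAd hj hp hjp
  have hcard : Fintype.card (Fin L × ZMod Q) = L * Q := by simp [ZMod.card]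
  -- the window predicate
  let W : Fin L → Fin L × ZMod Q → Fin L × ZMod Q → Prop := fun Z x y =>
    (Z + 1) * Q + Q ≤ pos x ∧ pos y + Q + p Z ≤ pos x ∧ pos x < pos y + Q + p Z + d Z
  let P : Bool ⊕ Fin L → Fin L × ZMod Q → Fin L × ZMod Q → Prop := fun i x y =>
    match i with
    | Sum.inl true => x.2.val < a x.1 true ∧ (x.1 + 1) * Q + Q ≤ pos y
    | Sum.inl false => (a x.1 true ≤ x.2.val ∧ x.2.val < a x.1 true + a x.1 false) ∧
        (x.1 + 1) * Q + Q ≤ pos y
    | Sum.inr Z => (x.1 ≠ y.1 ∧ x.1 ≠ Z ∧ y.1 ≠ Z) ∧ W Z x y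
  have Pl : ∀ k x y, P (Sum.inl k) x y → pos x < j (x.1 + 1) ∧ (x.1 + 1) * Q + Q ≤ pos y := by
    intro k x y h
    cases k
    · exact ⟨hC x (by rw [hA]; exact h.1.2), h.2⟩
    · exact ⟨hC x (by rw [hA]; have := h.1; omega), h.2⟩
  have ex1 : ∀ i i' x y, P i x y → P i' x y → i = i' := by
    intro i i' x y h h'
    rcases i with k | Z <;> rcases i' with k' | Z'
    · cases k <;> cases k'
      · rfl
      · have := h.1
        have := h'.1
        omega
      · have := h.1
        have := h'.1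
        omega
      · rfl
    · have h1 := Pl _ _ _ h
      have h2 := h'.2.2
      have h3 := hjp (x.1 + 1)
      omega
    · have h1 := Pl _ _ _ h'
      have h2 := h.2.2
      have h3 := hjp (x.1 + 1)
      omega
    · have h1 := h.2.2
      have h2 := h'.2.2
      have h3 := hp Z
      have h4 := hp Z'
      rw [hD] at h3 h4
      rcases lt_trichotomy Z Z' with hz | hz | hz
      · have : p (Z + 1) ≤ p Z' := mp hz
        omega
      · rw [hz]
      · have : p (Z' + 1) ≤ p Z := mp hz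
        omega
  have ex2' : ∀ k Z x y, P (Sum.inl k) x y → ¬ P (Sum.inr Z) y x := by
    intro k Z x y h h'
    have h1 := Pl _ _ _ h
    obtain ⟨-, h2, h3, h4⟩ := h'
    have h5 := hjp (x.1 + 1)
    have h6 := hjp (Z + 1)
    have h7 := hp Z
    rw [hD] at h7
    rcases le_total x.1 Z with hz | hz
    · have : j (x.1 + 1) ≤ j (Z + 1) := mj (Nat.succ_le_succ hz)
      omega
    · have : p (Z + 1) ≤ p (x.1 + 1) := mp (Nat.succ_le_succ hz)
      omega
  have ex2 : ∀ i i' x y, P i x y → ¬ P i' y x := by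
    intro i i' x y h h'
    rcases i with k | Z <;> rcases i' with k' | Z'
    · have h1 := Pl _ _ _ h
      have h2 := Pl _ _ _ h'
      have h3 := hjp (x.1 + 1)
      have h4 := hjp (y.1 + 1)
      omega
    · exact ex2' _ _ _ _ h h'
    · exact ex2' _ _ _ _ h' h
    · have h1 := h.2.2
      have h2 := h'.2.2
      omega
  have out_le : ∀ Z x, #(univ.filter fun y => W Z x y) ≤ d Z := by
    intro Z x
    refine ds_le pos hinj (pos x + 1 - (Q + p Z + d Z)) (d Z) _ fun y hy => ?_
    have := hy.2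
    omega
  have in_le : ∀ Z y, #(univ.filter fun x => W Z x y) ≤ d Z := by
    intro Z y
    refine ds_le pos hinj (pos y + Q + p Z) (d Z) _ fun x hx => hx.2
  have out_ge : ∀ (Z : Fin L) x, (Z + 1) * Q + Q ≤ pos x →
      d Z ≤ #(univ.filter fun y => W Z x y) := by
    intro Z x hx
    have h1 := hlt x
    have h2 := hjp (Z + 1)
    have h3 := hp Z
    rw [hD] at h3
    refine ds_ge pos hinj _ hcard hlt (pos x + 1 - (Q + p Z + d Z)) (d Z) (by omega) _
      fun y h4 h5 => ⟨hx, by omega, by omega⟩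
  obtain ⟨S, hS, hSc⟩ := ds_sets Q L (Bool ⊕ Fin L) P
  have hval : ∀ u w, u + w ≤ Q →
      #(univ.filter fun v : ZMod Q => u ≤ v.val ∧ v.val < u + w) = w := by
    intro u w huw
    exact le_antisymm (ds_le ZMod.val (ZMod.val_injective Q) u w _ fun x hx => hx)
      (ds_ge ZMod.val (ZMod.val_injective Q) Q (ZMod.card Q) ZMod.val_lt u w huw _
        fun x h1 h2 => ⟨h1, h2⟩)
  have hrow : ∀ Z Y, ∑ Y', #(S Y Y' (Sum.inr Z)) =
      ∑ v, #(univ.filter fun y => P (Sum.inr Z) (Y, v) y) := by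
    intro Z Y
    simp only [hSc]
    rw [sum_comm]
    refine sum_congr rfl fun v _ => ?_
    convert (ds_sum (fun y => P (Sum.inr Z) (Y, v) y)).symm
  refine ⟨S, fun Z Y => #(univ.filter fun v => (Z + 1) * Q + Q ≤ pos (Y, v)), ?_, ?_, ?_, ?_, ?_,
    ?_, ?_, ?_⟩
  · intro Y Y' i i' x h h'
    rw [hS] at h h'
    split_ifs at h h'
    · exact ex1 _ _ _ _ h h'
    · exact ex1 _ _ _ _ h h'
  · intro Y Y' i i' x hne h h'
    rw [hS] at h h'
    rcases lt_or_gt_of_ne hne with hl | hl
    · rw [if_pos hl] at h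
      rw [if_neg (not_lt.2 hl.le)] at h'
      exact ex2 _ _ _ _ h h'
    · rw [if_neg (not_lt.2 hl.le)] at h
      rw [if_pos hl] at h'
      exact ex2 _ _ _ _ h h'
  · intro Z Y k
    have key : ∀ (R : ZMod Q → Prop) [DecidablePred R],
        (∀ v v', P (Sum.inl k) (Z, v) (Y, v') ↔ R v ∧ (Z + 1) * Q + Q ≤ pos (Y, v')) →
        #(S Z Y (Sum.inl k)) =
          #(univ.filter R) * #(univ.filter fun v => (Z + 1) * Q + Q ≤ pos (Y, v)) := by
      intro R _ hR
      rw [hSc, card_filter R, sum_mul]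
      refine sum_congr rfl fun v _ => ?_
      by_cases hv : R v
      · simp [hR, hv]
      · simp [hR, hv]
    have h1 := had Z
    cases k
    · rw [key (fun v => a Z true ≤ v.val ∧ v.val < a Z true + a Z false) fun _ _ => Iff.rfl,
        hval _ _ (by omega)]
    · rw [key (fun v => 0 ≤ v.val ∧ v.val < 0 + a Z true) fun _ _ => by simp [P],
        hval _ _ (by omega)]
  · intro Z Y
    exact (card_le_univ _).trans (ZMod.card Q).le
  · intro Z Y
    dsimp only
    rw [hrow, card_filter, mul_sum]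
    refine sum_le_sum fun v _ => ?_
    split_ifs with hv
    · rw [mul_one]
      refine le_trans (card_le_card fun y hy => ?_) (out_le Z (Y, v))
      simp only [mem_filter, mem_univ, true_and] at hy ⊢
      exact hy.2
    · rw [mul_zero, Nat.le_zero, card_eq_zero, filter_eq_empty_iff]
      exact fun y _ hy => hv hy.2.1
  · intro Z Y'
    have : ∑ Y, #(S Y Y' (Sum.inr Z)) =
        ∑ v', #(univ.filter fun x => P (Sum.inr Z) x (Y', v')) := by
      rw [← ds_sum' (fun q : (Fin L × ZMod Q) × ZMod Q => P (Sum.inr Z) q.1 (Y', q.2)), ds_sum,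
        Fintype.sum_prod_type]
      simp only [hSc]
      congr!
    rw [this]
    refine le_trans (sum_le_card_nsmul _ _ (d Z) fun v' _ => ?_) (by simp [ZMod.card, mul_comm])
    refine le_trans (card_le_card fun x hx => ?_) (in_le Z (Y', v'))
    simp only [mem_filter, mem_univ, true_and] at hx ⊢
    exact hx.2
  · intro Z Y Y' x h
    rw [hS] at h
    split_ifs at h
    · exact h.1
    · exact h.1
  · intro Z
    have e0 : ∑ Y, ∑ Y', #(S Y Y' (Sum.inr Z)) =
        #(univ.filter fun q : (Fin L × ZMod Q) × (Fin L × ZMod Q) => P (Sum.inr Z) q.1 q.2) := by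
      simp only [hrow]
      rw [ds_sum, Fintype.sum_prod_type]
    have e1 : (L * Q - ((Z + 1) * Q + Q)) * d Z ≤
        #(univ.filter fun q : (Fin L × ZMod Q) × (Fin L × ZMod Q) => W Z q.1 q.2) := by
      rw [ds_sum]
      by_cases hZ : (Z + 1) * Q + Q ≤ L * Q
      · have h1 := ds_ge pos hinj _ hcard hlt ((Z + 1) * Q + Q) (L * Q - ((Z + 1) * Q + Q))
          (by omega) (fun x => (Z + 1) * Q + Q ≤ pos x) fun x h _ => h
        refine le_trans (Nat.mul_le_mul_right _ h1) ?_
        rw [card_filter, sum_mul]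
        refine sum_le_sum fun x _ => ?_
        split_ifs with hx
        · rw [one_mul]
          exact out_ge Z x hx
        · simp
      · rw [show L * Q - ((Z + 1) * Q + Q) = 0 by omega]
        simp
    have e2 : #(univ.filter fun q : (Fin L × ZMod Q) × (Fin L × ZMod Q) =>
        q.1.1 = Z ∧ W Z q.1 q.2) ≤ Q * d Z := by
      rw [ds_sum, Fintype.sum_prod_type, sum_eq_single Z (fun Y _ hY => by simp [hY]) (by simp)]
      refine le_trans (sum_le_card_nsmul _ _ (d Z) fun v _ => ?_) (by simp [ZMod.card])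
      simpa using out_le Z (Z, v)
    have e3 : #(univ.filter fun q : (Fin L × ZMod Q) × (Fin L × ZMod Q) =>
        q.2.1 = Z ∧ W Z q.1 q.2) ≤ Q * d Z := by
      rw [ds_sum', Fintype.sum_prod_type, sum_eq_single Z (fun Y _ hY => by simp [hY]) (by simp)]
      refine le_trans (sum_le_card_nsmul _ _ (d Z) fun v _ => ?_) (by simp [ZMod.card])
      simpa using in_le Z (Z, v)
    have e4 : #(univ.filter fun q : (Fin L × ZMod Q) × (Fin L × ZMod Q) =>
        q.1.1 = q.2.1 ∧ W Z q.1 q.2) ≤ Q * d Z := by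
      refine le_trans (card_le_card_of_injOn (t := (univ : Finset (ZMod Q)) ×ˢ range (d Z))
        (fun q => (q.1.2, pos q.1 - (pos q.2 + Q + p Z))) ?_ ?_) (by simp [ZMod.card])
      · intro q hq
        simp only [coe_filter, mem_univ, true_and, Set.mem_ofPred_eq] at hq
        have := hq.2.2
        simp only [coe_product, coe_univ, coe_range, Set.mem_prod, Set.mem_univ, Set.mem_Iio,
          true_and]
        omega
      · rintro ⟨x, y⟩ hq ⟨x', y'⟩ hq' e
        simp only [coe_filter, mem_univ, true_and, Set.mem_ofPred_eq] at hq hq'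
        simp only [Prod.mk.injEq] at e
        have h1 := hq.2.2
        have h2 := hq'.2.2
        have h3 := hsame x y hq.1 (by omega)
        have h4 := hsame x' y' hq'.1 (by omega)
        have h5 := e.2
        have h6 : x.1 = x'.1 := by
          rcases lt_trichotomy x.1 x'.1 with hz | hz | hz
          · have : (x.1 + 1) * Q ≤ x'.1 * Q := Nat.mul_le_mul_right _ hz
            omega
          · exact hz
          · have : (x'.1 + 1) * Q ≤ x.1 * Q := Nat.mul_le_mul_right _ hz
            omega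
        obtain rfl : x = x' := Prod.ext h6 e.1
        obtain rfl : y = y' := hinj (by omega)
        rfl
    have e5 : (univ.filter fun q : (Fin L × ZMod Q) × (Fin L × ZMod Q) => W Z q.1 q.2) ⊆
        (univ.filter fun q => P (Sum.inr Z) q.1 q.2) ∪ (univ.filter fun q => q.1.1 = Z ∧ W Z q.1 q.2)
          ∪ (univ.filter fun q => q.2.1 = Z ∧ W Z q.1 q.2)
          ∪ (univ.filter fun q => q.1.1 = q.2.1 ∧ W Z q.1 q.2) := by
      intro q hq
      simp only [mem_filter, mem_univ, true_and, mem_union] at hq ⊢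
      by_cases h1 : q.1.1 = Z
      · exact Or.inl (Or.inl (Or.inr ⟨h1, hq⟩))
      by_cases h2 : q.2.1 = Z
      · exact Or.inl (Or.inr ⟨h2, hq⟩)
      by_cases h3 : q.1.1 = q.2.1
      · exact Or.inr ⟨h3, hq⟩
      exact Or.inl (Or.inl (Or.inl ⟨⟨h3, h1, h2⟩, hq⟩))
    have e6 := (card_le_card e5).trans ((card_union_le _ _).trans (add_le_add
      ((card_union_le _ _).trans (add_le_add ((card_union_le _ _).trans
        (add_le_add le_rfl e2)) e3)) e4))
    rw [e0]
    by_cases hZ : L ≤ Z + 5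
    · rw [show L - Z - 5 = 0 by omega]
      simp
    · obtain ⟨t, ht⟩ : ∃ t, L = Z + 5 + t := ⟨L - Z - 5, by omega⟩
      have h1 : L * Q = (Z + 1) * Q + Q + (t + 3) * Q := by
        conv_lhs => rw [ht]
        ring
      rw [show L * Q - ((Z + 1) * Q + Q) = (t + 3) * Q by omega] at e1
      rw [show L - Z - 5 = t by omega]
      have h2 : (t + 3) * Q * d Z = d Z * Q * t + Q * d Z + Q * d Z + Q * d Z := by ring
      omega

end Pool.Agent.Lib.MP_2b1ae8_co.AT
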