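import Mathlib

/-!
Auxiliary lemmas for the hub embedding: ranks, powers of two, the placement of the heavy set,
and the potential estimate.
-/

set_option autoImplicit false

namespace Pool.Agent.Lib.MP_2b1ae8_co.AT

open Finset

lemma hub_inj {X H : Type} [Fintype H] [Nonempty H] (S : Finset X) (h : #S ≤ Fintype.card H) :
    ∃ f : X → H, ∀ a ∈ S, ∀ b ∈ S, f a = f b → a = b := by
  classical
  obtain ⟨f⟩ : Nonempty (S ↪ H) := Function.Embedding.nonempty_of_card_le (by simpa using h)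
  refine ⟨fun x => if hx : x ∈ S then f ⟨x, hx⟩ else Classical.arbitrary H, ?_⟩
  intro a ha b hb hab
  simp only [ha, hb, dif_pos] at hab
  exact congrArg Subtype.val (f.injective hab)

lemma hub_rank {X Y : Type} [DecidableEq Y] (S : Finset X) (t : X → Y) :
    ∃ r : X → ℕ, (∀ x ∈ S, r x < #{y ∈ S | t y = t x}) ∧
      ∀ x ∈ S, ∀ y ∈ S, t x = t y → r x = r y → x = y := by
  classical
  have : ∀ T : Finset X, ∃ r : X → ℕ, (∀ x ∈ T, r x < #T) ∧
      ∀ x ∈ T, ∀ y ∈ T, r x = r y → x = y := by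
    intro T
    refine ⟨fun x => if hx : x ∈ T then (T.equivFin ⟨x, hx⟩ : ℕ) else 0, ?_, ?_⟩
    · intro x hx; simp [hx]
    · intro x hx y hy h
      simp only [hx, hy, dif_pos] at h
      exact congrArg Subtype.val (T.equivFin.injective (Fin.ext h))
  choose r h1 h2 using this
  refine ⟨fun x => r {y ∈ S | t y = t x} x, fun x hx => h1 _ x (by simp [hx]), ?_⟩
  intro x hx y hy ht h
  simp only [ht] at h
  exact h2 _ x (by simp [hx, ht]) y (by simp [hy]) h

lemma hub_pow_aux {a b c d : ℕ} (hab : a ≤ b) (hcd : c ≤ d) (h : 2 ^ a + 2 ^ b = 2 ^ c + 2 ^ d) :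
    b = d := by
  have key : ∀ {a b c d : ℕ}, a ≤ b → 2 ^ a + 2 ^ b = 2 ^ c + 2 ^ d → ¬ b < d := by
    intro a b c d hab h hlt
    have h1 : 2 ^ a ≤ 2 ^ b := Nat.pow_le_pow_right (by norm_num) hab
    have h2 : 2 ^ (b + 1) ≤ 2 ^ d := Nat.pow_le_pow_right (by norm_num) hlt
    have h3 : 0 < 2 ^ c := by positivity
    rw [pow_succ] at h2
    omega
  have := key hab h
  have := key hcd h.symm
  omega

lemma hub_pow {k l k' l' : ℕ} (h : 2 ^ k + 2 ^ l' = 2 ^ k' + 2 ^ l) (hkl : k ≠ l) : k = k' := by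
  have inj : ∀ {a b : ℕ}, 2 ^ a = 2 ^ b → a = b := fun h =>
    Nat.pow_right_injective (le_refl 2) h
  rcases le_total k l' with h1 | h1 <;> rcases le_total k' l with h2 | h2
  · have := hub_pow_aux h1 h2 h
    subst this
    exact inj (by omega)
  · have := hub_pow_aux h1 h2 (by omega)
    subst this
    exact absurd (inj (by omega)) hkl
  · have := hub_pow_aux h1 h2 (by omega)
    exact absurd this hkl
  · exact hub_pow_aux h1 h2 (by omega)

lemma hub_phase1 {V I C H : Type} [DecidableEq V] [DecidableEq I] [Fintype C]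
    [Fintype H] [DecidableEq H] [Nonempty H]
    (tr : V → I) (E : Finset V) (TT : Finset I) (w : V → C → ℝ) (e M : ℕ) (η' : ℝ) (Bd : C → ℝ)
    (hA : ∀ v ∈ E, tr v ∈ TT) (hw : ∀ v c, 0 ≤ w v c) (hBd : ∀ c, 0 ≤ Bd c) (hη' : 0 < η')
    (hcE : ∀ i, #{v ∈ E | tr v = i} ≤ e)
    (htot : ∀ i c, ∑ v ∈ E with tr v = i, w v c ≤ Bd c)
    (hM : ∀ c, Bd c ≤ M * η')
    (hroom : #TT + (M + 1) ^ (e * Fintype.card C) * 2 ^ e ≤ Fintype.card H) :
    ∃ φ : V → H, (∀ u ∈ E, ∀ v ∈ E, tr u = tr v → φ u = φ v → u = v) ∧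
      (∀ u ∈ E, ∀ u' ∈ E, ∀ v ∈ E, ∀ v' ∈ E, tr u = tr u' → u ≠ u' → tr v = tr v' →
        φ u = φ v → φ u' = φ v' → tr u = tr v) ∧
      (∀ x c, ∑ v ∈ E with φ v = x, w v c ≤ Bd c + e * η') := by
  classical
  obtain ⟨κ, hκ1, hκ2⟩ := hub_rank E tr
  have hκe : ∀ v ∈ E, κ v < e := fun v hv => (hκ1 v hv).trans_le (hcE _)
  set W : I → ℕ → C → ℝ := fun i k c => ∑ v ∈ E with (tr v = i ∧ κ v = k), w v c with hW
  have hW0 : ∀ i k c, 0 ≤ W i k c := fun i k c => sum_nonneg fun v _ => hw v c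
  have hWB : ∀ i k c, W i k c ≤ Bd c := by
    intro i k c
    refine le_trans ?_ (htot i c)
    refine sum_le_sum_of_subset_of_nonneg ?_ fun v _ _ => hw v c
    intro v hv
    simp only [mem_filter] at hv ⊢
    exact ⟨hv.1, hv.2.1⟩
  have hWM : ∀ i k c, ⌈W i k c / η'⌉₊ < M + 1 := by
    intro i k c
    refine Nat.lt_succ_of_le (Nat.ceil_le.2 ?_)
    rw [div_le_iff₀ hη']
    exact (hWB i k c).trans (hM c)
  set th : I → (Fin e → C → Fin (M + 1)) := fun i k c => ⟨⌈W i k c / η'⌉₊, hWM i k c⟩ with hth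
  obtain ⟨ρ, hρ1, hρ2⟩ := hub_rank TT th
  set S : Finset ((Fin e → C → Fin (M + 1)) × ℕ) :=
    univ.biUnion fun θ => {θ} ×ˢ range (#{j ∈ TT | th j = θ} + 2 ^ e) with hS
  have hScard : #S ≤ Fintype.card H := by
    refine le_trans card_biUnion_le (le_trans (le_of_eq ?_) hroom)
    simp only [card_product, card_singleton, card_range, one_mul, sum_add_distrib, sum_const,
      card_univ, smul_eq_mul, Fintype.card_pi, prod_const, Fintype.card_fin]
    rw [← card_eq_sum_card_fiberwise (fun j _ => mem_univ (th j)), ← pow_mul,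
      mul_comm (Fintype.card C) e]
  obtain ⟨gH, hgH⟩ := hub_inj S hScard
  have hmem : ∀ v ∈ E, (th (tr v), ρ (tr v) + 2 ^ κ v) ∈ S := by
    intro v hv
    simp only [hS, mem_biUnion, mem_univ, true_and, mem_product, mem_singleton, mem_range]
    refine ⟨th (tr v), rfl, ?_⟩
    have h1 := hρ1 _ (hA v hv)
    have h2 : 2 ^ κ v ≤ 2 ^ e := Nat.pow_le_pow_right (by norm_num) (hκe v hv).le
    omega
  have hsame : ∀ u ∈ E, ∀ v ∈ E, gH (th (tr u), ρ (tr u) + 2 ^ κ u) =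
      gH (th (tr v), ρ (tr v) + 2 ^ κ v) →
      th (tr u) = th (tr v) ∧ ρ (tr u) + 2 ^ κ u = ρ (tr v) + 2 ^ κ v := by
    intro u hu v hv h
    exact Prod.mk.inj (hgH _ (hmem u hu) _ (hmem v hv) h)
  refine ⟨fun v => gH (th (tr v), ρ (tr v) + 2 ^ κ v), ?_, ?_, ?_⟩
  · intro u hu v hv ht h
    have h2 := (hsame u hu v hv h).2
    rw [ht] at h2
    exact hκ2 u hu v hv ht (Nat.pow_right_injective (le_refl 2) (Nat.add_left_cancel h2))
  · intro u hu u' hu' v hv v' hv' ht hne ht' h h'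
    obtain ⟨a1, a2⟩ := hsame u hu v hv h
    obtain ⟨-, b2⟩ := hsame u' hu' v' hv' h'
    rw [← ht, ← ht'] at b2
    have hk : κ u ≠ κ u' := fun hk => hne (hκ2 u hu u' hu' ht hk)
    have hkk : κ u = κ v := hub_pow (l' := κ v') (by omega) hk
    rw [hkk] at a2
    exact hρ2 _ (hA u hu) _ (hA v hv) a1 (Nat.add_right_cancel a2)
  · intro x c
    set F : Finset V := {v ∈ E | gH (th (tr v), ρ (tr v) + 2 ^ κ v) = x} with hF
    rcases F.eq_empty_or_nonempty with h0 | ⟨v0, hv0⟩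
    · rw [h0, sum_empty]
      have := hBd c
      positivity
    have hFE : ∀ v ∈ F, v ∈ E := fun v hv => (mem_filter.1 hv).1
    have hFF : ∀ u ∈ F, ∀ v ∈ F,
        th (tr u) = th (tr v) ∧ ρ (tr u) + 2 ^ κ u = ρ (tr v) + 2 ^ κ v := fun u hu v hv =>
      hsame u (hFE u hu) v (hFE v hv) ((mem_filter.1 hu).2.trans (mem_filter.1 hv).2.symm)
    have hinj : ∀ u ∈ F, ∀ v ∈ F, κ u = κ v → u = v := by
      intro u hu v hv hk
      obtain ⟨a1, a2⟩ := hFF u hu v hv
      rw [hk] at a2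
      exact hκ2 u (hFE u hu) v (hFE v hv)
        (hρ2 _ (hA u (hFE u hu)) _ (hA v (hFE v hv)) a1 (Nat.add_right_cancel a2)) hk
    have h1 : ∀ v ∈ F, w v c ≤ W (tr v0) (κ v) c + η' := by
      intro v hv
      have a1 : w v c ≤ W (tr v) (κ v) c :=
        single_le_sum (f := fun u => w u c) (fun u _ => hw u c) (by simp [hFE v hv])
      have a2 : ⌈W (tr v) (κ v) c / η'⌉₊ = ⌈W (tr v0) (κ v) c / η'⌉₊ :=
        congrArg Fin.val (congrFun (congrFun (hFF v hv v0 hv0).1 ⟨κ v, hκe v (hFE v hv)⟩) c)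
      have a3 : W (tr v) (κ v) c / η' ≤ ⌈W (tr v) (κ v) c / η'⌉₊ := Nat.le_ceil _
      have a4 : (⌈W (tr v0) (κ v) c / η'⌉₊ : ℝ) < W (tr v0) (κ v) c / η' + 1 :=
        Nat.ceil_lt_add_one (div_nonneg (hW0 _ _ _) hη'.le)
      rw [a2] at a3
      have a5 : W (tr v) (κ v) c / η' ≤ (W (tr v0) (κ v) c + η') / η' := by
        rw [add_div, div_self hη'.ne']
        linarith
      rw [div_le_div_iff_of_pos_right hη'] at a5
      linarith
    calc ∑ v ∈ F, w v c ≤ ∑ v ∈ F, (W (tr v0) (κ v) c + η') := sum_le_sum h1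
      _ = ∑ k ∈ F.image κ, (W (tr v0) k c + η') :=
        (sum_image (f := fun k => W (tr v0) k c + η') (fun u hu v hv h => hinj u hu v hv h)).symm
      _ ≤ ∑ k ∈ range e, (W (tr v0) k c + η') := by
        refine sum_le_sum_of_subset_of_nonneg ?_ fun k _ _ => add_nonneg (hW0 _ _ _) hη'.le
        intro k hk
        obtain ⟨v, hv, rfl⟩ := mem_image.1 hk
        exact mem_range.2 (hκe v (hFE v hv))
      _ = ∑ v ∈ E with tr v = tr v0, w v c + e * η' := by
        rw [sum_add_distrib, sum_const, card_range, nsmul_eq_mul]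
        congr 1
        rw [← sum_fiberwise_of_maps_to (s := {v ∈ E | tr v = tr v0}) (t := range e) (g := κ)
          (fun v hv => mem_range.2 (hκe v (mem_filter.1 hv).1))]
        refine sum_congr rfl fun k _ => ?_
        simp only [hW, filter_filter]
      _ ≤ Bd c + e * η' := by linarith [htot (tr v0) c]

lemma hub_pot {C H : Type} [Fintype C] [Fintype H] [DecidableEq H] (y : H → C → ℝ) (w : C → ℝ)
    (g : ℝ) (n0 : ℕ) (hn0 : 0 < n0) (hw : ∀ c, 0 ≤ w c) (hwg : ∀ c, w c ≤ g) (F : Finset H)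
    (hF : n0 ≤ #F) :
    ∃ x0 ∈ F, ∑ c, ∑ x, (max (y x c + (if x0 = x then w c else 0) - w c / n0) 0) ^ 2 ≤
      ∑ c, ∑ x, (max (y x c) 0) ^ 2 + g * ∑ c, w c := by
  have hn : (0 : ℝ) < n0 := by exact_mod_cast hn0
  set z : H → C → ℝ := fun x c => max (y x c - w c / n0) 0 with hz
  have hz0 : ∀ x c, 0 ≤ z x c := fun x c => le_max_right _ _
  set T : H → ℝ := fun x => ∑ c, 2 * w c * z x c with hT
  have hT0 : ∀ x, 0 ≤ T x := fun x => sum_nonneg fun c _ => by
    have := hw c; have := hz0 x c; positivity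
  have hne : F.Nonempty := card_pos.1 (hn0.trans_le hF)
  have hS0 : 0 ≤ (∑ x, T x) / n0 := div_nonneg (sum_nonneg fun x _ => hT0 x) hn.le
  obtain ⟨x0, hx0, hle⟩ := exists_le_of_sum_le (f := T) (g := fun _ => (∑ x, T x) / n0) hne (by
    rw [sum_const, nsmul_eq_mul]
    calc ∑ x ∈ F, T x ≤ ∑ x, T x :=
          sum_le_sum_of_subset_of_nonneg (subset_univ _) fun x _ _ => hT0 x
      _ = n0 * ((∑ x, T x) / n0) := by field_simp
      _ ≤ _ := mul_le_mul_of_nonneg_right (by exact_mod_cast hF) hS0)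
  refine ⟨x0, hx0, ?_⟩
  have h1 : ∀ c x, (max (y x c + (if x0 = x then w c else 0) - w c / n0) 0) ^ 2 ≤
      z x c ^ 2 + if x0 = x then 2 * w c * z x c + g * w c else 0 := by
    intro c x
    split_ifs with h
    · have a1 : max (y x c + w c - w c / n0) 0 ≤ z x c + w c := by
        refine max_le ?_ (add_nonneg (hz0 x c) (hw c))
        have : y x c - w c / n0 ≤ z x c := le_max_left _ _
        linarith
      have a2 := pow_le_pow_left₀ (le_max_right _ _) a1 2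
      have a3 : w c * w c ≤ g * w c := mul_le_mul_of_nonneg_right (hwg c) (hw c)
      nlinarith
    · simp [hz]
  have h2 : ∀ c x, z x c ^ 2 + 2 * w c * z x c / n0 ≤ (max (y x c) 0) ^ 2 := by
    intro c x
    have ha : 0 ≤ w c / n0 := div_nonneg (hw c) hn.le
    have e1 : 2 * w c * z x c / n0 = 2 * (w c / n0) * z x c := by ring
    rw [e1]
    rcases le_total (y x c - w c / n0) 0 with h | h
    · have : z x c = 0 := max_eq_right h
      rw [this]
      have := sq_nonneg (max (y x c) 0)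
      linarith
    · have e2 : z x c = y x c - w c / n0 := max_eq_left h
      rw [e2, max_eq_left (by linarith)]
      nlinarith [sq_nonneg (w c / n0)]
  calc _ ≤ ∑ c, ∑ x, (z x c ^ 2 + if x0 = x then 2 * w c * z x c + g * w c else 0) :=
        sum_le_sum fun c _ => sum_le_sum fun x _ => h1 c x
    _ = ∑ c, ∑ x, z x c ^ 2 + T x0 + g * ∑ c, w c := by
        simp only [sum_add_distrib, sum_ite_eq, mem_univ, if_true, hT, mul_sum, add_assoc]
    _ ≤ ∑ c, ∑ x, z x c ^ 2 + (∑ x, T x) / n0 + g * ∑ c, w c := by linarith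
    _ = ∑ c, ∑ x, (z x c ^ 2 + 2 * w c * z x c / n0) + g * ∑ c, w c := by
        simp only [sum_add_distrib, hT, sum_div]
        rw [sum_comm (f := fun x c => 2 * w c * z x c / n0)]
    _ ≤ _ := by
        have := sum_le_sum (s := univ) fun c _ => sum_le_sum (s := univ) fun x _ => h2 c x
        linarith

lemma hub_bad {C H : Type} [Fintype C] [Fintype H] (y : H → C → ℝ) (η : ℝ) (hη : 0 < η)
    (B : Finset H) (hB : ∀ x ∈ B, ∃ c, η < y x c) :
    (#B : ℝ) * η ^ 2 ≤ ∑ c, ∑ x, (max (y x c) 0) ^ 2 := by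
  rw [sum_comm, ← nsmul_eq_mul, ← sum_const]
  refine le_trans (sum_le_sum fun x hx => ?_) (sum_le_sum_of_subset_of_nonneg (subset_univ B)
    fun x _ _ => sum_nonneg fun c _ => sq_nonneg _)
  obtain ⟨c, hc⟩ := hB x hx
  refine le_trans ?_ (single_le_sum (f := fun c => (max (y x c) 0) ^ 2)
    (fun c _ => sq_nonneg _) (mem_univ c))
  exact pow_le_pow_left₀ hη.le (hc.le.trans (le_max_left _ _)) 2

lemma hub_nbr {V H : Type} [DecidableEq V] [DecidableEq H] (par : V → V) (R A P : Finset V)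
    (hP : P ⊆ A) (φ : V → H) (w0 : V → ℝ)
    (hc0 : ∀ v ∈ A, (1 : ℝ) + #{u ∈ A | u ∉ R ∧ par u = v} ≤ w0 v) (y : H) :
    ∃ N : Finset H, (#N : ℝ) ≤ ∑ p ∈ P with φ p = y, w0 p ∧
      ∀ x, x ∉ N → ∀ u ∈ P, u ∉ R → par u ∈ P → s(φ u, φ (par u)) ≠ s(x, y) := by
  refine ⟨{p ∈ P | φ p = y}.biUnion fun p =>
    insert (φ (par p)) ({u ∈ A | u ∉ R ∧ par u = p}.image φ), ?_, ?_⟩
  · refine le_trans (Nat.cast_le.2 card_biUnion_le) ?_
    rw [Nat.cast_sum]
    refine sum_le_sum fun p hp => le_trans ?_ (hc0 p (hP (mem_filter.1 hp).1))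
    have h1 := card_insert_le (φ (par p)) ({u ∈ A | u ∉ R ∧ par u = p}.image φ)
    have h2 := card_image_le (s := {u ∈ A | u ∉ R ∧ par u = p}) (f := φ)
    have h3 : #(insert (φ (par p)) ({u ∈ A | u ∉ R ∧ par u = p}.image φ)) ≤
        1 + #{u ∈ A | u ∉ R ∧ par u = p} := by omega
    exact_mod_cast h3
  · intro x hx u hu huR hpu h
    apply hx
    rw [mem_biUnion]
    rcases Sym2.eq_iff.1 h with ⟨h1, h2⟩ | ⟨h1, h2⟩
    · refine ⟨par u, mem_filter.2 ⟨hpu, h2⟩, mem_insert_of_mem (mem_image.2 ⟨u, ?_, h1⟩)⟩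
      exact mem_filter.2 ⟨hP hu, huR, rfl⟩
    · exact ⟨u, mem_filter.2 ⟨hu, h1⟩, h2 ▸ mem_insert_self _ _⟩

end Pool.Agent.Lib.MP_2b1ae8_co.AT
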