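import Pool.Agent.Lib.MP_2b1ae8_co.AT.Defs2

/-! Asymptotic tree packing: the labels of the pieces of a decomposed forest. -/

set_option autoImplicit false

namespace Pool.Agent.Lib.MP_2b1ae8_co.AT

open Finset

section

variable {V I : Type} [Fintype V] [DecidableEq V] [DecidableEq I] {K D g : ℕ}

theorem GF.not_R (F : GF V I K D g) {v : V} (hv : v ∉ F.Z) : v ∉ F.R :=
  fun h => hv (F.E_sub (F.R_sub h))

theorem GF.top_fact (F : GF V I K D g) (v : V) (hZ : v ∉ F.Z) (hL : v ∉ F.La) :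
    (F.top v ∉ F.Z ∧ F.top v ∉ F.La ∧ (F.par (F.top v) ∈ F.Z ∨ F.par (F.top v) ∈ F.La)) ∧
      F.tr (F.top v) = F.tr v := by
  induction' hn : F.dep v using Nat.strong_induction_on with n ih generalizing v
  by_cases h : F.par v ∈ F.Z ∨ F.par v ∈ F.La
  · have ht := (F.top_self v hZ hL h).1
    rw [ht]
    exact ⟨⟨hZ, hL, h⟩, rfl⟩
  · have h1 : F.par v ∉ F.Z := fun h' => h (Or.inl h')
    have h2 : F.par v ∉ F.La := fun h' => h (Or.inr h')
    have ht := (F.top_par v hZ hL h1 h2).1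
    have hd := F.dep_par v (F.not_R hZ)
    have := ih (F.dep (F.par v)) (by omega) (F.par v) h1 h2 rfl
    rw [ht]
    exact ⟨this.1, this.2.trans (F.tr_par v)⟩

variable [NeZero K]

/-- The index of a vertex inside its piece. -/
def GF.ixf (F : GF V I K D g) (v : V) : Fin K :=
  if h : v ∉ F.Z ∧ v ∉ F.La then ⟨F.idx v, F.idx_lt v h.1 h.2⟩ else 0

theorem GF.ixf_val (F : GF V I K D g) {v : V} (hZ : v ∉ F.Z) (hL : v ∉ F.La) :
    (F.ixf v : ℕ) = F.idx v := by
  unfold GF.ixf
  rw [dif_pos ⟨hZ, hL⟩]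

theorem GF.ixf_inj (F : GF V I K D g) {u v : V} (hu : u ∉ F.Z) (hu' : u ∉ F.La) (hv : v ∉ F.Z)
    (hv' : v ∉ F.La) (ht : F.top u = F.top v) (hi : F.ixf u = F.ixf v) : u = v := by
  apply F.idx_inj u v hu hu' hv hv' ht
  rw [← F.ixf_val hu hu', ← F.ixf_val hv hv', hi]

/-- The hub of a top vertex. -/
def GF.hubf (F : GF V I K D g) (r : V) : V := if F.par r ∈ F.Z then F.par r else F.rho r

/-- The vertex of index `j` in the piece with top `r` (if there is one). -/
noncomputable def GF.pu (F : GF V I K D g) (r : V) (j : Fin K) : V :=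
  if h : ∃ u, (u ∉ F.Z ∧ u ∉ F.La) ∧ F.top u = r ∧ F.ixf u = j then h.choose else r

theorem GF.pu_self (F : GF V I K D g) {v : V} (hZ : v ∉ F.Z) (hL : v ∉ F.La) :
    F.pu (F.top v) (F.ixf v) = v := by
  have h : ∃ u, (u ∉ F.Z ∧ u ∉ F.La) ∧ F.top u = F.top v ∧ F.ixf u = F.ixf v :=
    ⟨v, ⟨hZ, hL⟩, rfl, rfl⟩
  unfold GF.pu
  rw [dif_pos h]
  obtain ⟨h1, h2, h3⟩ := h.choose_spec
  exact F.ixf_inj h1.1 h1.2 hZ hL h2 h3

/-- The label of the piece with top `r`. -/
noncomputable def GF.code (F : GF V I K D g) (r : V) : Lbl K :=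
  (decide (F.hubf r ∈ F.E),
   fun j => decide (∃ u, (u ∉ F.Z ∧ u ∉ F.La) ∧ F.top u = r ∧ F.ixf u = j),
   fun j => decide ((F.dep (F.pu r j) + F.dep r) % 2 = 1),
   fun j => decide (∃ u, ((u ∉ F.Z ∧ u ∉ F.La) ∧ (F.par u ∈ F.La ∨ ∃ c ∈ F.La, F.par c = u)) ∧
     F.top u = r ∧ F.ixf u = j),
   fun j => F.ixf (F.par (F.pu r j)))

theorem card_idx_le (F : GF V I K D g) (p : V → Prop) [DecidablePred p] (r : V)
    (s : Finset (Fin K)) (hs : ∀ j ∈ s, ∃ u, p u ∧ F.top u = r ∧ F.ixf u = j) :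
    #s ≤ #{u ∈ ({u | p u} : Finset V) | F.top u = r} := by
  refine le_trans (card_le_card ?_) (card_image_le (f := F.ixf))
  intro j hj
  obtain ⟨u, h1, h2, h3⟩ := hs j hj
  exact mem_image.2 ⟨u, by simp [h1, h2], h3⟩

end

theorem exists_LS {V I : Type} [Fintype V] [DecidableEq V] [DecidableEq I] {K D g : ℕ} [NeZero K]
    (F : GF V I K D g) : Nonempty (LS F (lblD K)) := by
  classical
  set Tp : Finset V := {v | v ∉ F.Z ∧ v ∉ F.La ∧ (F.par v ∈ F.Z ∨ F.par v ∈ F.La)} with hTp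
  have mem_Tp : ∀ v, v ∈ Tp ↔ v ∉ F.Z ∧ v ∉ F.La ∧ (F.par v ∈ F.Z ∨ F.par v ∈ F.La) := by
    intro v
    simp [hTp]
  have top_self : ∀ r ∈ Tp, F.top r = r ∧ F.ixf r = 0 := by
    intro r hr
    obtain ⟨h1, h2, h3⟩ := (mem_Tp r).1 hr
    have := F.top_self r h1 h2 h3
    refine ⟨this.1, Fin.ext ?_⟩
    rw [F.ixf_val h1 h2, this.2]
    simp
  have top_in : ∀ v, v ∉ F.Z → v ∉ F.La → F.top v ∈ Tp := fun v h1 h2 =>
    (mem_Tp _).2 (F.top_fact v h1 h2).1
  refine ⟨{
    lab := fun v => F.code (F.top v)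
    ix := F.ixf
    hub := F.hubf
    Tp := Tp
    mem_Tp := mem_Tp
    top_mem := ?_
    top_self := top_self
    ix_inj := fun u v h1 h2 h3 h4 h5 h6 => F.ixf_inj h1 h2 h3 h4 h5 h6
    hub_Z := ?_
    inner := ?_
    mark := ?_
    cnt_us := ?_
    cnt_ma := ?_ }⟩
  · intro v h1 h2
    refine ⟨top_in v h1 h2, (F.top_fact v h1 h2).2, ?_, ?_⟩
    · rw [(top_self _ (top_in v h1 h2)).1]
    · simp only [lblD, GF.code, decide_eq_true_eq]
      exact ⟨v, ⟨h1, h2⟩, rfl, rfl⟩
  · intro r hr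
    have ht := (top_self r hr).1
    refine ⟨?_, ?_, ?_, ?_, ?_⟩
    · unfold GF.hubf
      split_ifs with h
      · exact h
      · exact F.E_sub (F.rho_E r)
    · unfold GF.hubf
      split_ifs with h
      · exact F.tr_par r
      · exact F.tr_rho r
    · simp only [lblD, GF.code, decide_eq_true_eq, ht]
    · intro h
      unfold GF.hubf
      rw [if_pos h]
    · intro h
      unfold GF.hubf at h ⊢
      split_ifs at h ⊢ with h'
      · rfl
      · exact absurd (F.rho_E r) h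
  · intro v h1 h2 h3
    have h4 : ¬ (F.par v ∈ F.Z ∨ F.par v ∈ F.La) := fun h => h3 ((mem_Tp v).2 ⟨h1, h2, h⟩)
    have p1 : F.par v ∉ F.Z := fun h' => h4 (Or.inl h')
    have p2 : F.par v ∉ F.La := fun h' => h4 (Or.inr h')
    obtain ⟨ht, hi⟩ := F.top_par v h1 h2 p1 p2
    have hd := F.dep_par v (F.not_R h1)
    have hlt : F.ixf (F.par v) < F.ixf v := by
      rw [Fin.lt_def, F.ixf_val h1 h2, F.ixf_val p1 p2]
      exact hi
    have hne : F.ixf v ≠ 0 := by
      intro h
      rw [h] at hlt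
      exact absurd hlt (Fin.not_lt_zero _)
    have hpu : F.pu (F.top v) (F.ixf (F.par v)) = F.par v := by
      rw [ht]
      exact F.pu_self p1 p2
    refine ⟨ht.symm, ?_, hlt, ?_⟩
    · simp only [lblD, GF.code]
      rw [F.pu_self h1 h2]
    · simp only [lblD, GF.code]
      rw [F.pu_self h1 h2, hpu]
      by_cases h0 : F.ixf (F.par v) = 0
      · have hr := top_in v h1 h2
        obtain ⟨r1, r2, -⟩ := (mem_Tp _).1 hr
        have : F.par v = F.top v := by
          apply F.ixf_inj p1 p2 r1 r2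
          · rw [(top_self _ hr).1, ht]
          · rw [h0, (top_self _ hr).2]
        rw [← this]
        have h5 : (F.dep v + F.dep (F.par v)) % 2 = 1 := by omega
        simp [hne, h0, h5]
      · by_cases h5 : (F.dep v + F.dep (F.top v)) % 2 = 1
        · have h6 : ¬ (F.dep (F.par v) + F.dep (F.top v)) % 2 = 1 := by omega
          simp [hne, h0, h5, h6]
        · have h6 : (F.dep (F.par v) + F.dep (F.top v)) % 2 = 1 := by omega
          simp [hne, h0, h5, h6]
  · intro v h1 h2 h3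
    simp only [lblD, GF.code, decide_eq_true_eq]
    exact ⟨v, ⟨⟨h1, h2⟩, h3⟩, rfl, rfl⟩
  · intro i
    have h1 : ∀ r ∈ Tp.filter (fun r => F.tr r = i),
        1 + #{j | j ≠ 0 ∧ (lblD K).us (F.code (F.top r)) j = true} ≤
          #{u ∈ ({u | u ∉ F.Z ∧ u ∉ F.La} : Finset V) | F.top u = r} := by
      intro r hr
      have hr' := (mem_filter.1 hr).1
      obtain ⟨t1, t2⟩ := top_self r hr'
      obtain ⟨r1, r2, -⟩ := (mem_Tp _).1 hr'
      have hn : (0 : Fin K) ∉ ({j | j ≠ 0 ∧ (lblD K).us (F.code (F.top r)) j = true} :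
          Finset (Fin K)) := by simp
      rw [add_comm, ← card_insert_of_notMem hn]
      apply card_idx_le F
      intro j hj
      rcases mem_insert.1 hj with rfl | hj
      · exact ⟨r, ⟨r1, r2⟩, t1, t2⟩
      · have := (mem_filter.1 hj).2.2
        simp only [lblD, GF.code, decide_eq_true_eq, t1] at this
        exact this
    refine le_trans (sum_le_sum h1) ?_
    rw [sum_card_fiberwise_eq_card_filter]
    apply card_le_card
    intro u hu
    simp only [mem_filter, mem_univ, true_and] at hu ⊢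
    rw [← (F.top_fact u hu.1.1 hu.1.2).2]
    exact hu.2.2
  · intro i
    have h1 : ∀ r ∈ Tp.filter (fun r => F.tr r = i),
        #{j | (lblD K).ma (F.code (F.top r)) j = true} ≤
          #{u ∈ ({u | (u ∉ F.Z ∧ u ∉ F.La) ∧ (F.par u ∈ F.La ∨ ∃ c ∈ F.La, F.par c = u)} :
            Finset V) | F.top u = r} := by
      intro r hr
      have hr' := (mem_filter.1 hr).1
      obtain ⟨t1, -⟩ := top_self r hr'
      apply card_idx_le F
      intro j hj
      have := (mem_filter.1 hj).2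
      simp only [lblD, GF.code, decide_eq_true_eq, t1] at this
      exact this
    refine le_trans (sum_le_sum h1) ?_
    rw [sum_card_fiberwise_eq_card_filter]
    set S : Finset V := {v ∈ F.La | F.tr v = i} with hS
    have h2 : #{u ∈ ({u | u ∉ F.R} : Finset V) | F.par u ∈ S} ≤ D * #S := by
      rw [← sum_card_fiberwise_eq_card_filter, mul_comm, ← smul_eq_mul, ← sum_const]
      apply sum_le_sum
      intro v hv
      refine le_trans (le_of_eq ?_) (F.ch_La v (mem_filter.1 hv).1)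
      congr 1
      ext u
      simp
    have h3 : #(S.image F.par) ≤ #S := card_image_le
    refine le_trans (card_le_card (t := {u ∈ ({u | u ∉ F.R} : Finset V) | F.par u ∈ S} ∪
      S.image F.par) ?_) (le_trans (card_union_le _ _) (by nlinarith))
    intro u hu
    simp only [mem_filter, mem_univ, true_and] at hu
    obtain ⟨⟨⟨u1, u2⟩, u3⟩, -, u5⟩ := hu
    have htr : F.tr u = i := by
      rw [← (F.top_fact u u1 u2).2]
      exact u5
    rcases u3 with h | ⟨c, hc, hcu⟩
    · apply mem_union_left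
      simp only [mem_filter, mem_univ, true_and, hS]
      exact ⟨F.not_R u1, h, (F.tr_par u).trans htr⟩
    · apply mem_union_right
      refine mem_image.2 ⟨c, ?_, hcu⟩
      simp only [mem_filter, hS]
      refine ⟨hc, ?_⟩
      rw [← F.tr_par c, hcu, htr]

end Pool.Agent.Lib.MP_2b1ae8_co.AT
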