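import Pool.Agent.Lib.MP_2b1ae8_co.AT.TreeA
import Pool.Agent.Lib.MP_2b1ae8_co.Embed

/-! Decomposition of a family of trees into core, late vertices and small pieces. -/

set_option autoImplicit false

namespace Pool.Agent.Lib.MP_2b1ae8_co.AT

open Finset

namespace Fo

variable {V I : Type} [Fintype V] [DecidableEq V] [DecidableEq I] (F : Fo V I)

omit [DecidableEq I] in
/-- Pieces: tops and indices for the vertices outside a set containing the roots. -/
theorem exists_pieces (W : Finset V) (hR : ∀ v ∈ W, v ∉ F.R) (K : ℕ) (s : V → ℕ)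
    (hs : ∀ v ∈ W, 1 + ∑ c ∈ F.ch v, s c ≤ s v) (hK : ∀ v, s v ≤ K) :
    ∃ (top : V → V) (idx : V → ℕ),
      (∀ v ∈ W, F.par v ∉ W → top v = v ∧ idx v = 0) ∧
      (∀ v ∈ W, F.par v ∈ W → top v = top (F.par v) ∧ idx (F.par v) < idx v) ∧
      (∀ v ∈ W, idx v < K) ∧ ∀ u ∈ W, ∀ v ∈ W, top u = top v → idx u = idx v → u = v := by
  rcases isEmpty_or_nonempty V with hV | hV
  · exact ⟨id, fun _ => 0, by simp, by simp, by simp, by simp⟩
  have : Inhabited V := Classical.inhabited_of_nonempty hV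
  obtain ⟨top, ht⟩ := tr_rec F.wf_par
    (fun v t => if v ∈ W ∧ F.par v ∈ W then t (F.par v) else v) fun v t t' h => by
      split_ifs with hv
      · exact h _ ⟨hR v hv.1, rfl⟩
      · rfl
  have hd : ∀ v, top v = v ∨ F.dep (top v) < F.dep v := by
    intro v
    induction v using F.wf_par.induction with
    | h v ih =>
    by_cases hv : v ∈ W ∧ F.par v ∈ W
    · have h1 := F.dep_par v (hR v hv.1)
      rw [ht v, if_pos hv]
      rcases ih _ ⟨hR v hv.1, rfl⟩ with h | h
      · rw [h]; omega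
      · omega
    · rw [ht v, if_neg hv]; exact Or.inl rfl
  obtain ⟨key, k1, k2⟩ : ∃ key : V → ℕ, (∀ u v, F.dep u < F.dep v → key u < key v) ∧
      Function.Injective key := by
    have h1 : ∀ u v, F.dep u < F.dep v →
        F.dep u * Fintype.card V + (Fintype.equivFin V u : ℕ) <
          F.dep v * Fintype.card V + (Fintype.equivFin V v : ℕ) := by
      intro u v h
      have := (Fintype.equivFin V u).2
      have := Nat.mul_le_mul_right (Fintype.card V) (Nat.succ_le_of_lt h)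
      rw [Nat.succ_mul] at this
      omega
    refine ⟨fun v => F.dep v * Fintype.card V + Fintype.equivFin V v, h1, fun u v h => ?_⟩
    simp only at h
    rcases lt_trichotomy (F.dep u) (F.dep v) with e | e | e
    · have := h1 u v e; omega
    · rw [e] at h
      exact (Fintype.equivFin V).injective (Fin.ext (by omega))
    · have := h1 v u e; omega
  have hlt : ∀ u ∈ W, ∀ v, top u = top v → key u < key v →
      #{w ∈ W | top w = top u ∧ key w < key u} < #{w ∈ W | top w = top v ∧ key w < key v} := by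
    intro u hu v e hk
    refine card_lt_card ⟨fun w hw => ?_, fun h => ?_⟩
    · rw [mem_filter] at hw ⊢
      exact ⟨hw.1, hw.2.1.trans e, hw.2.2.trans hk⟩
    · exact lt_irrefl _ (mem_filter.1 (h (mem_filter.2 ⟨hu, e, hk⟩))).2.2
  refine ⟨top, fun v => #{w ∈ W | top w = top v ∧ key w < key v}, fun v _ hp => ?_,
    fun v hv hp => ?_, fun v hv => ?_, fun u hu v hv e h => ?_⟩
  · have e : top v = v := by rw [ht v, if_neg fun h => hp h.2]
    refine ⟨e, card_eq_zero.2 (filter_eq_empty_iff.2 fun w _ h => ?_)⟩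
    rw [e] at h
    rcases hd w with h1 | h1
    · have e' : w = v := h1.symm.trans h.1
      exact lt_irrefl _ (e' ▸ h.2)
    · rw [h.1] at h1
      exact lt_asymm h.2 (k1 _ _ h1)
  · have e : top v = top (F.par v) := by rw [ht v, if_pos ⟨hv, hp⟩]
    refine ⟨e, hlt _ hp _ e.symm (k1 _ _ ?_)⟩
    have := F.dep_par v (hR v hv)
    omega
  · have h1 := F.tele {w ∈ W | top w = top v} (top v) (fun _ => 1) s
      (fun u hu => hs u (mem_filter.1 hu).1) fun c hc hne => by
        rw [mem_filter] at hc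
        have hp : c ∈ W ∧ F.par c ∈ W := by
          by_contra hn
          exact hne (by rw [← hc.2, ht c, if_neg hn])
        exact ⟨hR c hc.1, mem_filter.2 ⟨hp.2, by rw [← hc.2, ht c, if_pos hp]⟩⟩
    rw [← card_eq_sum_ones] at h1
    refine lt_of_lt_of_le (card_lt_card ⟨fun w hw => ?_, fun h => ?_⟩) (h1.trans (hK _))
    · rw [mem_filter] at hw ⊢
      exact ⟨hw.1, hw.2.1⟩
    · exact lt_irrefl _ (mem_filter.1 (h (mem_filter.2 ⟨hv, rfl⟩))).2.2
  · rcases lt_trichotomy (key u) (key v) with k | k | k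
    · exact absurd h (hlt u hu v e k).ne
    · exact k2 k
    · exact absurd h (hlt v hv u e.symm k).ne'

omit [Fintype V] in
theorem card_R (v : V) (X : Finset V) :
    #{u ∈ X ∪ F.R | F.tr u = F.tr v} ≤ #{u ∈ X | F.tr u = F.tr v} + 1 := by
  refine le_trans (card_le_card fun u hu => ?_) (card_insert_le (F.rho v) _)
  rw [mem_filter, mem_union] at hu
  rcases hu.1 with h | h
  · exact mem_insert_of_mem (mem_filter.2 ⟨h, hu.2⟩)
  · rw [F.uniq u h v hu.2.symm]; exact mem_insert_self _ _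

theorem exists_GF (K D g : ℕ) (hK : 0 < K) (hg : 0 < g) :
    ∃ G : GF V I K D g, G.tr = F.tr ∧ G.R = F.R ∧ G.par = F.par := by
  classical
  obtain ⟨f, hf⟩ := F.exists_sum fun _ => 1
  obtain ⟨A0, hA0⟩ := tr_rec F.wf_ch
    (fun v (s : V → Prop) => F.Cu f K v ∨ (D < #(F.ch v) ∧ ∃ c ∈ F.ch v, s c)) fun v s s' h => by
      have : (∃ c ∈ F.ch v, s c) ↔ ∃ c ∈ F.ch v, s' c :=
        exists_congr fun c => and_congr_right fun hc => by rw [h c hc]
      rw [this]
  obtain ⟨A, hA⟩ : ∃ A : Finset V, ∀ v,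
      v ∈ A ↔ F.Cu f K v ∨ (D < #(F.ch v) ∧ ∃ c ∈ F.ch v, c ∈ A) :=
    ⟨univ.filter A0, fun v => by simpa using (hA0 v).to_iff⟩
  obtain ⟨La, hL⟩ : ∃ La : Finset V, ∀ v, v ∈ La ↔ v ∉ A ∪ F.R ∧ ∃ c ∈ F.ch v, c ∈ A :=
    ⟨univ.filter fun v => v ∉ A ∪ F.R ∧ ∃ c ∈ F.ch v, c ∈ A, fun v => by simp⟩
  have heavyA : ∀ v, v ∈ A → K ≤ f v := by
    intro v
    induction v using F.ind with
    | h v ih =>
    intro hv
    rcases (hA v).1 hv with h | ⟨-, c, hc, h⟩
    · exact h.1
    · exact (ih c hc h).trans (F.f_lt hf hc).le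
  have heavyL : ∀ v ∈ La, K ≤ f v := fun v hv => by
    obtain ⟨-, c, hc, h⟩ := (hL v).1 hv
    exact (heavyA c h).trans (F.f_lt hf hc).le
  have nCu : ∀ v, v ∉ A ∪ F.R → ¬F.Cu f K v := fun v hv h =>
    hv (mem_union_left _ ((hA v).2 (Or.inl h)))
  have LR : ∀ v ∈ La, v ∉ F.R := fun v hv h => ((hL v).1 hv).1 (mem_union_right _ h)
  obtain ⟨W, hW⟩ : ∃ W : Finset V, ∀ v, v ∈ W ↔ v ∉ A ∪ F.R ∧ v ∉ La :=
    ⟨univ.filter fun v => v ∉ A ∪ F.R ∧ v ∉ La, fun v => by simp⟩
  obtain ⟨s, hs⟩ := tr_rec F.wf_ch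
    (fun v (s : V → ℕ) => if v ∈ W then 1 + ∑ c ∈ F.ch v, s c else 0) fun v s s' h => by
      rw [sum_congr rfl h]
  have sf : ∀ v, s v ≤ f v % K := by
    intro v
    induction v using F.ind with
    | h v ih =>
    rw [hs v]
    split_ifs with hv
    swap
    · exact Nat.zero_le _
    have ih' : ∀ c ∈ F.ch v, s c ≤ f c := fun c hc => (ih c hc).trans (Nat.mod_le _ _)
    by_cases hk : K ≤ f v
    · have : ∃ c ∈ F.ch v, f c / K = f v / K := by
        by_contra hn
        exact nCu v ((hW v).1 hv).1 ⟨hk, fun c hc e => hn ⟨c, hc, e⟩⟩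
      obtain ⟨c, hc, e⟩ := this
      have h1 := F.f_split hf hc
      have h2 := ih c hc
      have h3 : ∑ u ∈ (F.ch v).erase c, s u ≤ ∑ u ∈ (F.ch v).erase c, f u :=
        sum_le_sum fun u hu => ih' u (mem_of_mem_erase hu)
      have a1 := Nat.div_add_mod (f v) K
      have a2 := Nat.div_add_mod (f c) K
      rw [e] at a2
      rw [← add_sum_erase _ _ hc]
      omega
    · rw [Nat.mod_eq_of_lt (by omega), hf v]
      exact Nat.add_le_add_left (sum_le_sum ih') _
  obtain ⟨top, idx, t1, t2, t3, t4⟩ := F.exists_pieces W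
    (fun v hv h => ((hW v).1 hv).1 (mem_union_right _ h)) K s
    (fun v hv => by rw [hs v, if_pos hv]) fun v => (sf v).trans (Nat.mod_lt _ hK).le
  have tree_cases : ∀ i, (∃ v, F.tr v = i) ∨ ∀ X : Finset V, #{v ∈ X | F.tr v = i} = 0 := by
    intro i
    by_cases h : ∃ v, F.tr v = i
    · exact Or.inl h
    · exact Or.inr fun X => card_eq_zero.2 (filter_eq_empty_iff.2 fun v _ e => h ⟨v, e⟩)
  refine ⟨{ tr := F.tr, R := F.R, par := F.par, dep := F.dep, rho := F.rho, Z := A ∪ F.R, La := La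
            E := {v ∈ A | F.Cu f g v} ∪ F.R, top := top, idx := idx, tr_par := F.tr_par
            dep_par := F.dep_par, tr_rho := F.tr_rho
            rho_E := fun v => mem_union_right _ (F.rho_R v)
            R_sub := subset_union_right
            E_sub := union_subset_union_left (filter_subset _ _)
            disj := fun v hv h => ((hL v).1 h).1 hv
            card_Z := fun i => ?_, card_La := fun i => ?_, card_E := fun i => ?_
            par_Z := fun v hv hr => ?_, par_La := fun v hv hp => ?_, ch_La := fun v hv => ?_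
            ch_small := fun v hv he => ?_, one_E := fun v hv he u hu u' hu' r r' e e' => ?_
            one_La := fun u hu u' hu' e hz => ?_
            top_self := fun v h1 h2 h3 => t1 v ((hW v).2 ⟨h1, h2⟩) fun h =>
              h3.elim ((hW _).1 h).1 ((hW _).1 h).2
            top_par := fun v h1 h2 h3 h4 => t2 v ((hW v).2 ⟨h1, h2⟩) ((hW _).2 ⟨h3, h4⟩)
            idx_lt := fun v h1 h2 => t3 v ((hW v).2 ⟨h1, h2⟩)
            idx_inj := fun u v h1 h2 h3 h4 => t4 u ((hW u).2 ⟨h1, h2⟩) v ((hW v).2 ⟨h3, h4⟩) },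
    rfl, rfl, rfl⟩
  · rcases tree_cases i with ⟨v, rfl⟩ | h
    swap
    · rw [h]; exact Nat.zero_le _
    have h1 := F.card_R v A
    have h2 := F.card_Cu hf hK v
    have h3 : D * #{u ∈ F.tree (F.tr v) | D < #(F.ch u)} ≤ #(F.tree (F.tr v)) := by
      refine le_trans ?_ ((sum_le_sum_of_subset
        (filter_subset (fun u => D < #(F.ch u)) _)).trans (F.sum_card_ch v))
      rw [mul_comm, ← smul_eq_mul]
      exact card_nsmul_le_sum _ _ _ fun u hu => (mem_filter.1 hu).2.le
    have h4 : #{u ∈ A | F.tr u = F.tr v} ≤ #{u ∈ F.tree (F.tr v) | F.Cu f K u} +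
        #{u ∈ F.tree (F.tr v) | D < #(F.ch u)} := by
      refine le_trans (card_le_card fun u hu => ?_) (card_union_le _ _)
      rw [mem_filter] at hu
      rw [mem_union, mem_filter, mem_filter, F.mem_tree]
      rcases (hA u).1 hu.1 with h | h
      · exact Or.inl ⟨hu.2, h⟩
      · exact Or.inr ⟨hu.2, h.1⟩
    have h5 := Nat.mul_le_mul_left (K * D) (h1.trans (Nat.add_le_add_right h4 1))
    have h6 := Nat.mul_le_mul_left D h2
    have h7 := Nat.mul_le_mul_left K h3
    change _ ≤ (2 * D + K) * #(F.tree (F.tr v)) + K * D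
    nlinarith
  · rcases tree_cases i with ⟨v, rfl⟩ | h
    swap
    · rw [h]; exact Nat.zero_le _
    obtain ⟨N, hN⟩ := F.exists_sum fun u => if F.Cu f K u then 1 else 0
    obtain ⟨L, hLs⟩ := F.exists_sum fun u => if u ∈ La then 1 else 0
    have key : ∀ u, L u + (if u ∈ A then 1 else 0) ≤ N u := by
      intro u
      induction u using F.ind with
      | h u ih =>
      have h1 := sum_le_sum ih
      rw [sum_add_distrib, ← card_filter] at h1
      rw [hN u, hLs u]
      by_cases hc : ∃ c ∈ F.ch u, c ∈ A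
      · have : 0 < #{c ∈ F.ch u | c ∈ A} := by
          obtain ⟨c, h2, h3⟩ := hc
          exact card_pos.2 ⟨c, mem_filter.2 ⟨h2, h3⟩⟩
        by_cases ha : u ∈ A
        · rw [if_pos ha, if_neg fun h => ((hL u).1 h).1 (mem_union_left _ ha)]
          omega
        · rw [if_neg ha]
          split_ifs <;> omega
      · rw [if_neg fun h => hc ((hL u).1 h).2]
        by_cases ha : u ∈ A
        · rw [if_pos ha, if_pos (((hA u).1 ha).resolve_right fun h => hc h.2)]
          omega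
        · rw [if_neg ha]
          omega
    have h1 := F.le_root _ L hLs v
    rw [← card_filter] at h1
    have h2 := F.root_Cu hf hK hN v
    have h3 := key (F.rho v)
    have h4 : #{u ∈ La | F.tr u = F.tr v} ≤ #{u ∈ F.tree (F.tr v) | u ∈ La} :=
      card_le_card fun u hu => by
        rw [mem_filter] at hu ⊢
        exact ⟨F.mem_tree.2 hu.2, hu.1⟩
    exact (Nat.mul_le_mul_left K (by omega)).trans h2
  · rcases tree_cases i with ⟨v, rfl⟩ | h
    swap
    · rw [h]; exact Nat.zero_le _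
    have h1 := F.card_R v {v ∈ A | F.Cu f g v}
    have h2 := F.card_Cu hf hg v
    have h4 : #{u ∈ {v ∈ A | F.Cu f g v} | F.tr u = F.tr v} ≤
        #{u ∈ F.tree (F.tr v) | F.Cu f g u} :=
      card_le_card fun u hu => by
        rw [mem_filter, mem_filter] at hu
        exact mem_filter.2 ⟨F.mem_tree.2 hu.2, hu.1.2⟩
    have h5 := Nat.mul_le_mul_left g (h1.trans (Nat.add_le_add_right h4 1))
    change _ ≤ 2 * #(F.tree (F.tr v)) + g
    rw [mul_add, mul_one] at h5
    omega
  · by_cases hp : F.par v ∈ A ∪ F.R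
    · exact Or.inl hp
    · exact Or.inr ((hL _).2 ⟨hp, v, F.mem_ch.2 ⟨hr, rfl⟩, (mem_union.1 hv).resolve_right hr⟩)
  · obtain ⟨h1, c, hc, h2⟩ := (hL _).1 hp
    have := (F.not_Cu hf hK (nCu _ h1)).2 c hc v (F.mem_ch.2 ⟨LR v hv, rfl⟩) (heavyA c h2)
      (heavyL v hv)
    exact ((hL v).1 hv).1 (mem_union_left _ (this ▸ h2))
  · obtain ⟨h1, h2⟩ := (hL v).1 hv
    by_contra hn
    exact h1 (mem_union_left _ ((hA v).2 (Or.inr ⟨not_le.1 hn, h2⟩)))
  · refine (F.not_Cu hf hg fun h => he ?_).1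
    rcases mem_union.1 hv with h1 | h1
    · exact mem_union_left _ (mem_filter.2 ⟨h1, h⟩)
    · exact mem_union_right _ h1
  · have hc : ¬F.Cu f g v := fun h => he (by
      rcases mem_union.1 hv with h1 | h1
      · exact mem_union_left _ (mem_filter.2 ⟨h1, h⟩)
      · exact mem_union_right _ h1)
    exact (F.not_Cu hf hg hc).2 u (F.mem_ch.2 ⟨r, e⟩) u' (F.mem_ch.2 ⟨r', e'⟩)
      (mem_filter.1 ((mem_union.1 hu).resolve_right r)).2.1
      (mem_filter.1 ((mem_union.1 hu').resolve_right r')).2.1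
  · exact (F.not_Cu hf hK (nCu _ hz)).2 u (F.mem_ch.2 ⟨LR u hu, rfl⟩) u'
      (F.mem_ch.2 ⟨LR u' hu', e.symm⟩) (heavyL u hu) (heavyL u' hu')

end Fo

theorem tr_exists_dep {α : Type} (ρ : α) (par : α → α) (d : α → ℕ)
    (h : ∀ w, w ≠ ρ → d (par w) < d w) : ∃ dep : α → ℕ, ∀ w, w ≠ ρ → dep (par w) + 1 = dep w := by
  classical
  have wf : WellFounded fun p w => w ≠ ρ ∧ p = par w := by
    refine Subrelation.wf (r := InvImage (· < ·) d) ?_ (InvImage.wf _ wellFounded_lt)
    rintro p w ⟨h1, rfl⟩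
    exact h w h1
  obtain ⟨dep, hd⟩ := tr_rec wf (fun w (s : α → ℕ) => if w ≠ ρ then s (par w) + 1 else 0)
    fun w s s' e => by
      split_ifs with hw
      · rw [e _ ⟨hw, rfl⟩]
      · rfl
  exact ⟨dep, fun w hw => by rw [hd w, if_pos hw]⟩

set_option linter.unusedVariables false in
theorem exists_GF {I : Type} [Fintype I] [DecidableEq I] (n : I → ℕ)
    (T : (i : I) → SimpleGraph (Fin (n i))) (hT : ∀ i, (T i).IsTree) (K D g : ℕ)
    (hK : 0 < K) (hD : 0 < D) (hg : 0 < g) :
    ∃ F : GF (Σ i, Fin (n i)) I K D g, F.tr = Sigma.fst ∧ ∀ i a b, (T i).Adj a b →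
      ((⟨i, a⟩ : Σ i, Fin (n i)) ∉ F.R ∧ F.par ⟨i, a⟩ = ⟨i, b⟩) ∨
      ((⟨i, b⟩ : Σ i, Fin (n i)) ∉ F.R ∧ F.par ⟨i, b⟩ = ⟨i, a⟩) := by
  have ρ : ∀ i, Fin (n i) := fun i => Classical.choice (hT i).connected.nonempty
  choose par d h1 h2 using fun i => exists_parent (T i) (hT i) (ρ i)
  choose dep h3 using fun i => tr_exists_dep (ρ i) (par i) (d i) (h1 i)
  let F : Fo (Σ i, Fin (n i)) I :=
    { tr := Sigma.fst
      R := {v | v.2 = ρ v.1}
      par := fun v => ⟨v.1, par v.1 v.2⟩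
      dep := fun v => dep v.1 v.2
      rho := fun v => ⟨v.1, ρ v.1⟩
      tr_par := fun _ => rfl
      dep_par := fun v hv => h3 v.1 v.2 (by simpa using hv)
      tr_rho := fun _ => rfl
      rho_R := fun v => by simp
      uniq := by
        rintro ⟨i, r⟩ hr ⟨j, v⟩ e
        simp only [mem_filter, mem_univ, true_and] at hr e
        subst e
        rw [hr] }
  obtain ⟨G, e1, e2, e3⟩ := F.exists_GF K D g hK hg
  refine ⟨G, e1, fun i a b hab => ?_⟩
  rw [e2, e3]
  rcases h2 i a b hab with ⟨h, rfl⟩ | ⟨h, rfl⟩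
  · exact Or.inl ⟨by simpa [F] using h, rfl⟩
  · exact Or.inr ⟨by simpa [F] using h, rfl⟩

end Pool.Agent.Lib.MP_2b1ae8_co.AT
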