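import Pool.Agent.Lib.MP_2b1ae8_co.AT.Micro1

/-! Bundles, positions of the top vertices, shifts. -/

set_option autoImplicit false
set_option linter.unusedSectionVars false

namespace Pool.Agent.Lib.MP_2b1ae8_co.AT

open Finset

variable {V I Lb Bn BB CC Sb : Type} [Fintype V] [DecidableEq V] [Fintype I] [DecidableEq I]
  [Fintype Lb] [DecidableEq Lb] [Fintype Bn] [DecidableEq Bn] [Fintype BB] [DecidableEq BB]
  [DecidableEq CC] [Fintype Sb] [DecidableEq Sb] {K D g : ℕ} [NeZero K] {F : GF V I K D g}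
  {X : LD Lb K} {m q q' n0 Mk : ℕ} (P : LS F X) (M : MS I Lb Bn BB CC Sb X P.nn m q q' n0 Mk)

lemma card_le_of_ne {α : Type} {T : Finset α} {q : ℝ} (hq : 0 ≤ q) (h : ∀ a ∈ T, (#T : ℝ) ≤ q) :
    (#T : ℝ) ≤ q :=
  T.eq_empty_or_nonempty.elim (fun h => by simp [h, hq]) fun ⟨a, ha⟩ => h a ha

theorem colour [NeZero q] [Nonempty Bn] (φ : V → BB × Fin q) (U : ℕ)
    (hφ : ∀ z, ∃ j, (φ z).1 = M.cb (M.cell (M.sc (F.tr z))) j)
    (hload : ∀ x B κ, ∑ r ∈ P.Tp with φ (P.hub r) = x ∧ X.kp (P.lab r) = κ, rho P M B r ≤ U)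
    (hq : U + Fintype.card Sb ≤ q) (hq' : q' ≤ q) :
    ∃ (bn : V → Bn) (col : V → Fin q), (∀ r ∈ P.Tp, bn r ∈ M.bs (M.sc (F.tr r)) (P.lab r)) ∧
      ∀ r ∈ P.Tp, ∀ r' ∈ P.Tp, M.bl (M.sc (F.tr r)) (P.lab r) (bn r) 0 =
        M.bl (M.sc (F.tr r')) (P.lab r') (bn r') 0 → col r = col r' →
        (F.tr r = F.tr r' ∨ φ (P.hub r) = φ (P.hub r')) → r = r' := by
  obtain ⟨bn, b1, b2, b3⟩ := equitable P.Tp (fun r => (M.sc (F.tr r), P.lab r)) F.tr
    (fun r => φ (P.hub r)) (fun k => M.bs k.1 k.2) (fun r _ => M.bs_ne _ _)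
  let rb : V → BB := fun r => M.bl (M.sc (F.tr r)) (P.lab r) (bn r) 0
  have same : ∀ r ∈ P.Tp, ∀ r' ∈ P.Tp, M.sc (F.tr r) = M.sc (F.tr r') → rb r = rb r' →
      P.lab r = P.lab r' ∧ bn r = bn r' := fun r hr r' hr' h h' => by
    have h1 := b1 r hr
    simp only [rb, h] at h1 h'
    have := M.bl_inj _ _ _ _ _ _ _ h1 (P.us0 hr) (b1 r' hr') (P.us0 hr') h'
    exact ⟨this.1, this.2.1⟩
  obtain ⟨col, hcol⟩ := konig P.Tp (fun r => (F.tr r, rb r)) (fun r => (φ (P.hub r), rb r)) q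
    (Nat.pos_of_ne_zero (NeZero.ne q))
    (by
      rintro ⟨i, B⟩
      rw [← Nat.cast_le (α := ℝ)]
      refine card_le_of_ne (by positivity) fun r hr => Nat.cast_le.2 ?_
      obtain ⟨hr, h⟩ := mem_filter.1 hr
      obtain ⟨rfl, rfl⟩ := Prod.mk.inj h
      replace hr := (mem_filter.1 hr).1
      refine le_trans (card_le_card fun e he => ?_) ((b2 (M.sc (F.tr r), P.lab r) (F.tr r) (bn r) q'
        (le_trans (card_le_card fun e he => ?_) (M.size (F.tr r) (P.lab r)))).trans hq')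
      · obtain ⟨he, h⟩ := mem_filter.1 he
        obtain ⟨h1, h2⟩ := Prod.mk.inj h
        obtain ⟨h3, h4⟩ := same e he r hr (by rw [h1]) h2
        exact mem_filter.2 ⟨he, by rw [h1, h3], h1, h4⟩
      · obtain ⟨he, h, h1⟩ := mem_filter.1 he
        exact mem_filter.2 ⟨he, h1, (Prod.mk.inj h).2⟩)
    (by
      rintro ⟨x, B⟩
      rw [← Nat.cast_le (α := ℝ)]
      refine card_le_of_ne (by positivity) fun r0 hr0 => ?_
      have hκ : ∀ r ∈ P.Tp, (φ (P.hub r), rb r) = (x, B) →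
          M.kd x.1 B = if X.kp (P.lab r) then 2 else 3 := fun r hr h => by
        obtain ⟨rfl, rfl⟩ := Prod.mk.inj h
        obtain ⟨j, hj⟩ := hφ (P.hub r)
        rw [hj, (P.hub_Z r hr).2.1]
        exact (M.kd_root _ _ _ j (b1 r hr) (P.us0 hr)).1
      have hκ' : ∀ r ∈ P.Tp, (φ (P.hub r), rb r) = (x, B) →
          X.kp (P.lab r) = X.kp (P.lab r0) := fun r hr h => by
        have := (hκ r hr h).symm.trans (hκ r0 (mem_filter.1 hr0).1 (mem_filter.1 hr0).2)
        revert this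
        cases X.kp (P.lab r) <;> cases X.kp (P.lab r0) <;> simp
      have step : ∀ σ, (#{r ∈ {r ∈ P.Tp | (φ (P.hub r), rb r) = (x, B)} | M.sc (F.tr r) = σ} : ℝ) ≤
          ∑ r ∈ {r ∈ P.Tp | φ (P.hub r) = x ∧ X.kp (P.lab r) = X.kp (P.lab r0)} with
            M.sc (F.tr r) = σ, rho P M B r + 1 := by
        intro σ
        refine card_le_of_ne (add_nonneg (sum_nonneg fun _ _ => rho_nonneg P M _ _) zero_le_one)
          fun r hr => ?_
        obtain ⟨hr, rfl⟩ := mem_filter.1 hr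
        obtain ⟨hr, h⟩ := mem_filter.1 (mem_filter.1 hr).1
        have hn := card_pos.2 (M.bs_ne (F.tr r) (P.lab r))
        have e1 := b3 (M.sc (F.tr r), P.lab r) x (bn r) _
          ((Nat.lt_mul_div_succ _ hn).le.trans (mul_comm _ _).le)
        refine le_trans (Nat.cast_le.2 (le_trans (card_le_card fun e he => ?_) e1)) ?_
        · obtain ⟨he, h1⟩ := mem_filter.1 he
          obtain ⟨he, h2⟩ := mem_filter.1 he
          obtain ⟨h3, h4⟩ := same e he r hr h1 ((Prod.mk.inj h2).2.trans (Prod.mk.inj h).2.symm)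
          exact mem_filter.2 ⟨he, by rw [h1, h3], (Prod.mk.inj h2).1, h4⟩
        · push_cast
          refine add_le_add_left (Nat.cast_div_le.trans (le_trans (le_of_eq ?_)
            (sum_le_sum_of_subset_of_nonneg (s := {e ∈ P.Tp | (M.sc (F.tr e), P.lab e) =
              (M.sc (F.tr r), P.lab r) ∧ φ (P.hub e) = x}) (fun e he => ?_)
              fun _ _ _ => rho_nonneg P M _ _))) _
          · rw [div_eq_mul_one_div, ← nsmul_eq_mul, ← sum_const]
            refine sum_congr rfl fun e he => ?_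
            obtain ⟨h1, h2⟩ := Prod.mk.inj (mem_filter.1 he).2.1
            unfold rho
            rw [h1, h2, if_pos ⟨bn r, b1 r hr, (Prod.mk.inj h).2⟩]
          · obtain ⟨he, h1, h2⟩ := mem_filter.1 he
            obtain ⟨h3, h4⟩ := Prod.mk.inj h1
            exact mem_filter.2 ⟨mem_filter.2 ⟨he, h2, by rw [h4, hκ' r hr h]⟩, h3⟩
      have e2 := sum_le_sum fun σ (_ : σ ∈ univ) => step σ
      rw [sum_add_distrib, sum_fiberwise, ← Nat.cast_sum,
        ← card_eq_sum_card_fiberwise (fun _ _ => mem_univ _)] at e2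
      have e3 := hload x B (X.kp (P.lab r0))
      have e4 : (U + Fintype.card Sb : ℝ) ≤ q := by exact_mod_cast hq
      simp only [sum_const, card_univ, nsmul_eq_mul, mul_one] at e2
      linarith)
  refine ⟨bn, col, b1, fun r hr r' hr' h1 h2 h3 => hcol r hr r' hr' h2 ?_⟩
  exact h3.imp (fun h => Prod.ext h h1) (fun h => Prod.ext h h1)

/-- The edges between blocks used by the bundles. -/
def ME : Finset (I × Lb × Bn × Fin K) :=
  {x | x.2.2.1 ∈ M.bs (M.sc x.1) x.2.1 ∧ x.2.2.2 ≠ 0 ∧ X.us x.2.1 x.2.2.2 = true ∧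
    X.us x.2.1 (X.cp x.2.1 x.2.2.2) = true ∧ X.od x.2.1 x.2.2.2 ≠ X.od x.2.1 (X.cp x.2.1 x.2.2.2)}

/-- The ordered pair of blocks of such an edge. -/
def mkey (x : I × Lb × Bn × Fin K) : BB × BB :=
  (M.bl (M.sc x.1) x.2.1 x.2.2.1 (X.ev x.2.1 x.2.2.2),
    M.bl (M.sc x.1) x.2.1 x.2.2.1 (X.oo x.2.1 x.2.2.2))

theorem shifts [NeZero q] : ∃ (δ : I × Lb × Bn × Fin K → Fin q) (sh : I → Lb → Bn → Fin K → Fin q),
    (∀ x ∈ ME P M, ∀ y ∈ ME P M, mkey P M x = mkey P M y → δ x = δ y → x = y) ∧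
    (∀ i l b, sh i l b 0 = 0) ∧
    ∀ i l b j, X.cp l j < j → sh i l b (X.oo l j) - sh i l b (X.ev l j) = δ (i, l, b, j) := by
  obtain ⟨δ, -, h⟩ := fib_inj (β := Fin q) (ME P M) (mkey P M) (fun _ => univ) (by
    rintro ⟨B, B'⟩
    rw [card_univ, Fintype.card_fin]
    refine le_trans (card_le_card fun x hx => ?_) (M.cnt_pair B B')
    simpa [ME, mkey, and_assoc] using hx)
  choose t t0 t1 using fun i l b => exists_shift
    (fun j => if h : j < K then (X.cp l ⟨j, h⟩ : ℕ) else 0)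
    (fun j => if h : j < K then (if X.od l ⟨j, h⟩ then δ (i, l, b, ⟨j, h⟩) else -δ (i, l, b, ⟨j, h⟩))
      else 0)
  refine ⟨δ, fun i l b j => t i l b j, h, fun i l b => t0 i l b, fun i l b j hj => ?_⟩
  have := t1 i l b j (by simpa using hj)
  simp only [j.2, dif_pos, Fin.eta] at this
  unfold LD.ev LD.oo
  split_ifs at this ⊢ <;> simp [this]

end Pool.Agent.Lib.MP_2b1ae8_co.AT
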