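import Pool.Agent.Lib.MP_2b1ae8_co.AT.Tools

/-! The base embedding of the bundles of one tree into blocks, and translations of blocks. -/

set_option autoImplicit false
set_option linter.unusedSectionVars false

namespace Pool.Agent.Lib.MP_2b1ae8_co.AT

open Finset

abbrev Blk (G : Type) (L m : ℕ) := Fin L × (Fin L → G) × Fin m
abbrev Bun (G : Type) (L M : ℕ) := (Fin L × Fin L × G) × G × Fin M
abbrev MV (Lb G : Type) (L M K : ℕ) := Lb × Bun G L M × Fin K

variable {G : Type} [Fintype G] [DecidableEq G] [AddCommGroup G] {L m M K : ℕ}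

lemma card_cyl (Z P : Fin L) (h : Z ≠ P) (s : Finset G) (v : G) :
    #{b : Fin L → G | b Z ∈ s ∧ b P = v} = #s * Fintype.card G ^ (L - 2) := by
  have : ({b : Fin L → G | b Z ∈ s ∧ b P = v} : Finset _) =
      Fintype.piFinset fun j => if j = Z then s else if j = P then {v} else univ := by
    ext b
    simp only [mem_filter, mem_univ, true_and, Fintype.mem_piFinset]
    refine ⟨fun hb j => ?_, fun hb => ⟨by simpa using hb Z, by simpa [h.symm] using hb P⟩⟩
    split_ifs with h1 h2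
    · exact h1 ▸ hb.1
    · simpa [h2] using hb.2
    · exact mem_univ _
  rw [this, Fintype.card_piFinset, ← mul_prod_erase _ _ (mem_univ Z),
    ← mul_prod_erase _ _ (mem_erase.2 ⟨h.symm, mem_univ P⟩),
    prod_congr rfl (g := fun _ => Fintype.card G) (fun j hj => by
      have h1 := (mem_erase.1 hj).1
      have h2 := (mem_erase.1 (mem_erase.1 hj).2).1
      simp [h1, h2])]
  simp [h.symm, card_erase_of_mem (mem_erase.2 ⟨h.symm, mem_univ P⟩), Nat.sub_sub]

lemma sum_div_le' {ι : Type} (s : Finset ι) (f : ι → ℕ) (n : ℕ) :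
    ∑ i ∈ s, f i / n ≤ (∑ i ∈ s, f i) / n := by
  rcases Nat.eq_zero_or_pos n with rfl | h
  · simp
  · rw [Nat.le_div_iff_mul_le h, sum_mul]
    exact sum_le_sum fun i _ => Nat.div_mul_le_self _ _

/-- Triples (label, copy, index). -/
def TR {Lb : Type} [Fintype Lb] (M K : ℕ) (N : Lb → ℕ) (p : Lb → Fin K → Prop)
    [∀ l i, Decidable (p l i)] : Finset (Lb × Fin M × Fin K) :=
  {x | (x.2.1 : ℕ) < N x.1 ∧ p x.1 x.2.2}

lemma card_TR {Lb : Type} [Fintype Lb] [DecidableEq Lb] (M K : ℕ) (N : Lb → ℕ)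
    (p : Lb → Fin K → Prop) [∀ l i, Decidable (p l i)] :
    #(TR M K N p) ≤ ∑ l, N l * #{i | p l i} := by
  rw [card_eq_sum_card_fiberwise (f := Prod.fst) (t := univ) (fun _ _ => mem_univ _)]
  refine sum_le_sum fun l _ => ?_
  rw [← card_range (N l), ← card_product]
  refine card_le_card_of_injOn (fun x => ((x.2.1 : ℕ), x.2.2)) (fun x hx => ?_)
    (fun x hx y hy h => ?_)
  · simp only [TR, coe_filter, mem_filter, mem_univ, true_and, Set.mem_ofPred_eq] at hx
    obtain ⟨h1, rfl⟩ := hx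
    simpa using h1
  · simp only [TR, coe_filter, mem_filter, mem_univ, true_and, Set.mem_ofPred_eq] at hx hy
    simp only [Prod.mk.injEq] at h
    exact Prod.ext (hx.2.trans hy.2.symm) (Prod.ext (Fin.ext h.1) h.2)

def Valid {Lb : Type} (SI : Fin L → Fin L → Finset G) (N : Lb → ℕ) (us : Lb → Fin K → Bool)
    (x : MV Lb G L M K) : Prop :=
  x.2.1.1.2.2 ∈ SI x.2.1.1.1 x.2.1.1.2.1 ∧ (x.2.1.2.2 : ℕ) < N x.1 ∧ us x.1 x.2.2 = true

instance {Lb : Type} (SI : Fin L → Fin L → Finset G) (N : Lb → ℕ) (us : Lb → Fin K → Bool)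
    (x : MV Lb G L M K) : Decidable (Valid SI N us x) := by unfold Valid; infer_instance

def mcl {Lb : Type} (od : Lb → Fin K → Bool) (x : MV Lb G L M K) : Fin L :=
  if od x.1 x.2.2 then x.2.1.1.2.1 else x.2.1.1.1
def mpt {Lb : Type} (od : Lb → Fin K → Bool) (x : MV Lb G L M K) : Fin L :=
  if od x.1 x.2.2 then x.2.1.1.1 else x.2.1.1.2.1
def mvl {Lb : Type} (od : Lb → Fin K → Bool) (x : MV Lb G L M K) : G :=
  if od x.1 x.2.2 then x.2.1.1.2.2 - x.2.1.2.1 else x.2.1.2.1

theorem exists_base {Lb : Type} [Fintype Lb] [DecidableEq Lb] [NeZero m] [NeZero K] [NeZero L]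
    (Z : Fin L) (SI : Fin L → Fin L → Finset G) (SR : Fin L → Bool → Finset G)
    (a : Bool → ℕ) (d Q : ℕ) (c : Fin L → ℕ) (hG : Fintype.card G = Q * Q)
    (had : a true + a false + d = Q) (hdis : ∀ Y x, x ∈ SR Y true → x ∉ SR Y false)
    (hSR : ∀ Y k, #(SR Y k) = a k * c Y) (hc : ∀ Y, c Y ≤ Q)
    (h1 : ∀ Y, ∑ Y', #(SI Y Y') ≤ d * c Y) (h2 : ∀ Y', ∑ Y, #(SI Y Y') ≤ d * Q)
    (h3 : ∀ Y Y' x, x ∈ SI Y Y' → Y ≠ Y' ∧ Y ≠ Z ∧ Y' ≠ Z) (hLm : L ≤ m)
    (kp : Lb → Bool) (us od : Lb → Fin K → Bool) (hod : ∀ l, od l 0 = false) (N : Lb → ℕ)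
    (hR : ∀ k, d * #(TR M K N fun l i => kp l = k ∧ i = 0) ≤
      a k * (Fintype.card G ^ (L - 2) * (m - L)))
    (hN : #(TR M K N fun l i => i ≠ 0 ∧ us l i = true) ≤ Fintype.card G ^ (L - 2) * (m - L)) :
    ∃ β : MV Lb G L M K → Blk G L m,
      (∀ x y, Valid SI N us x → Valid SI N us y → β x = β y → x = y) ∧
      ∀ x, Valid SI N us x → (β x).1 = mcl od x ∧ (β x).2.1 (mpt od x) = mvl od x ∧
        (x.2.2 = 0 → (β x).2.1 Z ∈ SR x.2.1.1.1 (kp x.1)) := by
  set γ := Fintype.card G ^ (L - 2) with hγ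
  let zs : Fin L → Option Bool → Finset G := fun X o =>
    match o with
    | some k => SR X k
    | none => univ \ (SR X true ∪ SR X false)
  have zdis : ∀ X o o' x, x ∈ zs X o → x ∈ zs X o' → o = o' := by
    intro X o o' x hx hx'
    rcases o with _ | _ | _ <;> rcases o' with _ | _ | _ <;>
      simp only [zs, mem_sdiff, mem_univ, mem_union, true_and, not_or] at hx hx' <;>
      first | rfl | exact absurd hx' (hdis _ _ hx) | exact absurd hx (hdis _ _ hx') | tauto
  let EV := #(TR M K N fun l i => (i ≠ 0 ∧ us l i = true) ∧ od l i = false)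
  let OD := #(TR M K N fun l i => (i ≠ 0 ∧ us l i = true) ∧ od l i = true)
  have hEO : EV + OD ≤ γ * (m - L) := by
    refine le_trans (le_of_eq ?_) hN
    rw [← card_union_of_disjoint]
    · congr 1
      ext x
      simp only [TR, mem_union, mem_filter, mem_univ, true_and]
      cases od x.1 x.2.2 <;> simp
    · rw [disjoint_left]
      intro x h h'
      simp only [TR, mem_filter, mem_univ, true_and] at h h'
      simp [h.2.2] at h'
  let n : Fin L → Option Bool → Fin L → ℕ := fun X o P =>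
    match o with
    | some k => #(TR M K N fun l i => kp l = k ∧ i = 0) * #(SI X P)
    | none => EV * #(SI X P) + OD * #(SI P X)
  have hn : ∀ X o, ∑ P, n X o P ≤ #(zs X o) * γ * (m - L) := by
    intro X o
    rcases o with _ | k
    · simp only [n, zs, sum_add_distrib, ← mul_sum]
      have e1 : d * Q ≤ #(univ \ (SR X true ∪ SR X false)) := by
        have u1 := card_union_le (SR X true) (SR X false)
        rw [card_univ_sdiff, hG]
        rw [hSR, hSR, ← add_mul] at u1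
        have u2 := Nat.mul_le_mul_left (a true + a false) (hc X)
        have u3 : Q * Q = (a true + a false) * Q + d * Q := by rw [← add_mul, had]
        omega
      have e2 : EV * ∑ P, #(SI X P) ≤ EV * (d * Q) :=
        Nat.mul_le_mul_left _ ((h1 X).trans (Nat.mul_le_mul_left _ (hc X)))
      have e3 : OD * ∑ P, #(SI P X) ≤ OD * (d * Q) := Nat.mul_le_mul_left _ (h2 X)
      calc _ ≤ (EV + OD) * (d * Q) := by rw [add_mul]; omega
        _ ≤ (γ * (m - L)) * #(univ \ (SR X true ∪ SR X false)) := Nat.mul_le_mul hEO e1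
        _ = _ := by ring
    · simp only [n, zs, ← mul_sum]
      calc _ ≤ #(TR M K N fun l i => kp l = k ∧ i = 0) * (d * c X) := Nat.mul_le_mul_left _ (h1 X)
        _ = d * #(TR M K N fun l i => kp l = k ∧ i = 0) * c X := by ring
        _ ≤ a k * (γ * (m - L)) * c X := Nat.mul_le_mul_right _ (hR k)
        _ = _ := by rw [hSR]; ring
  let μ : Fin L → Option Bool → Fin L → ℕ := fun X o P => n X o P / (#(zs X o) * γ) + 1
  have hμ1 : ∀ X o, ∑ P, μ X o P ≤ m := by
    intro X o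
    simp only [μ, sum_add_distrib, sum_const, card_univ, Fintype.card_fin, smul_eq_mul, mul_one]
    have : ∑ P, n X o P / (#(zs X o) * γ) ≤ m - L :=
      (sum_div_le' _ _ _).trans (Nat.div_le_of_le_mul (hn X o))
    omega
  have hμ2 : ∀ X o P, n X o P ≤ #(zs X o) * γ * μ X o P := by
    intro X o P
    rcases Nat.eq_zero_or_pos (#(zs X o) * γ) with h | h
    · have := hn X o
      have h4 := single_le_sum (f := n X o) (fun _ _ => Nat.zero_le _) (mem_univ P)
      rw [h] at this ⊢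
      omega
    · exact (Nat.lt_mul_div_succ _ h).le
  choose Mx Mc Md using fun X o => exists_disj (μ X o) m (hμ1 X o)
  let key : MV Lb G L M K → Fin L × Option Bool × Fin L × G := fun x =>
    (mcl od x, if x.2.2 = 0 then some (kp x.1) else none, mpt od x, mvl od x)
  let A : Fin L × Option Bool × Fin L × G → Finset (Blk G L m) := fun k =>
    {k.1} ×ˢ ({b : Fin L → G | b Z ∈ zs k.1 k.2.1 ∧ b k.2.2.1 = k.2.2.2} : Finset _) ×ˢ
      Mx k.1 k.2.1 k.2.2.1
  have hPZ : ∀ x : MV Lb G L M K, Valid SI N us x → mpt od x ≠ Z := fun x hx => by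
    have := h3 _ _ _ hx.1
    unfold mpt
    split_ifs <;> tauto
  obtain ⟨β, b1, b2⟩ := fib_inj (β := Blk G L m) (univ.filter (Valid SI N us)) key A (by
    rintro ⟨X, o, P, v⟩
    by_cases hP : Z = P
    · rw [filter_false_of_mem]
      · simp
      · intro x hx h
        exact hPZ x (mem_filter.1 hx).2 ((congrArg (·.2.2.1) h).trans hP.symm)
    simp only [A, card_product, card_singleton, one_mul, card_cyl Z P hP, Mc]
    refine le_trans ?_ (hμ2 X o P)
    rcases o with _ | k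
    · simp only [n, EV, OD, ← card_product]
      rw [← card_filter_add_card_filter_not (fun x => od x.1 x.2.2 = false)]
      refine Nat.add_le_add ?_ ?_ <;>
      refine card_le_card_of_injOn (fun x => ((x.1, x.2.1.2.2, x.2.2), x.2.1.1.2.2)) ?_ ?_
      · rintro ⟨l, ⟨⟨Y, Y', c⟩, u, r⟩, i⟩ hx
        simp only [key, mcl, mpt, mvl, Valid, coe_filter, mem_filter, mem_univ, true_and,
          Set.mem_ofPred_eq, Prod.mk.injEq] at hx
        obtain ⟨⟨⟨v1, v2, v3⟩, k1, k2, k3, k4⟩, o1⟩ := hx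
        simp only [o1, Bool.false_eq_true, if_false] at k1 k3
        subst k1 k3
        have : i ≠ 0 := fun h => by simp [h] at k2
        simp [TR, v1, v2, v3, o1, this]
      · rintro ⟨l, ⟨⟨Y, Y', c⟩, u, r⟩, i⟩ hx ⟨l2, ⟨⟨Y2, Y2', c2⟩, u2, r2⟩, i2⟩ hy h
        simp only [key, mcl, mpt, mvl, Valid, coe_filter, mem_filter, mem_univ, true_and,
          Set.mem_ofPred_eq, Prod.mk.injEq] at hx hy h
        obtain ⟨⟨-, k1, -, k3, k4⟩, o1⟩ := hx
        obtain ⟨⟨-, j1, -, j3, j4⟩, o2⟩ := hy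
        simp only [o1, o2, Bool.false_eq_true, if_false] at k1 k3 k4 j1 j3 j4
        obtain ⟨⟨rfl, rfl, rfl⟩, rfl⟩ := h
        subst k1 k3 k4 j1 j3 j4
        rfl
      · rintro ⟨l, ⟨⟨Y, Y', c⟩, u, r⟩, i⟩ hx
        simp only [key, mcl, mpt, mvl, Valid, coe_filter, mem_filter, mem_univ, true_and,
          Set.mem_ofPred_eq, Prod.mk.injEq, Bool.not_eq_false] at hx
        obtain ⟨⟨⟨v1, v2, v3⟩, k1, k2, k3, k4⟩, o1⟩ := hx
        simp only [o1, if_true] at k1 k3
        subst k1 k3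
        have : i ≠ 0 := fun h => by simp [h] at k2
        simp [TR, v1, v2, v3, o1, this]
      · rintro ⟨l, ⟨⟨Y, Y', c⟩, u, r⟩, i⟩ hx ⟨l2, ⟨⟨Y2, Y2', c2⟩, u2, r2⟩, i2⟩ hy h
        simp only [key, mcl, mpt, mvl, Valid, coe_filter, mem_filter, mem_univ, true_and,
          Set.mem_ofPred_eq, Prod.mk.injEq, Bool.not_eq_false] at hx hy h
        obtain ⟨⟨-, k1, -, k3, k4⟩, o1⟩ := hx
        obtain ⟨⟨-, j1, -, j3, j4⟩, o2⟩ := hy
        simp only [o1, o2, if_true] at k1 k3 k4 j1 j3 j4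
        obtain ⟨⟨rfl, rfl, rfl⟩, rfl⟩ := h
        subst k1 k3 j1 j3
        rw [sub_right_injective (k4.trans j4.symm)]
    · simp only [n, ← card_product]
      refine card_le_card_of_injOn (fun x => ((x.1, x.2.1.2.2, x.2.2), x.2.1.1.2.2)) ?_ ?_
      · rintro ⟨l, ⟨⟨Y, Y', c⟩, u, r⟩, i⟩ hx
        simp only [key, mcl, mpt, mvl, Valid, coe_filter, mem_filter, mem_univ, true_and,
          Set.mem_ofPred_eq, Prod.mk.injEq] at hx
        obtain ⟨⟨v1, v2, v3⟩, k1, k2, k3, k4⟩ := hx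
        have : i = 0 := by by_contra h; simp [h] at k2
        subst this
        simp only [hod, Bool.false_eq_true, if_false, if_true, Option.some.injEq] at k1 k2 k3
        subst k1 k3
        simp [TR, v1, v2, k2]
      · rintro ⟨l, ⟨⟨Y, Y', c⟩, u, r⟩, i⟩ hx ⟨l2, ⟨⟨Y2, Y2', c2⟩, u2, r2⟩, i2⟩ hy h
        simp only [key, mcl, mpt, mvl, Valid, coe_filter, mem_filter, mem_univ, true_and,
          Set.mem_ofPred_eq, Prod.mk.injEq] at hx hy h
        obtain ⟨-, k1, k2, k3, k4⟩ := hx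
        obtain ⟨-, j1, -, j3, j4⟩ := hy
        obtain ⟨⟨rfl, rfl, rfl⟩, rfl⟩ := h
        have : i = 0 := by by_contra h; simp [h] at k2
        subst this
        simp only [hod, Bool.false_eq_true, if_false] at k1 k3 k4 j1 j3 j4
        subst k1 k3 k4 j1 j3 j4
        rfl)
  have mA : ∀ x, Valid SI N us x → (β x).1 = (key x).1 ∧ ((β x).2.1 Z ∈ zs (key x).1 (key x).2.1 ∧
      (β x).2.1 (key x).2.2.1 = (key x).2.2.2) ∧
      (β x).2.2 ∈ Mx (key x).1 (key x).2.1 (key x).2.2.1 := fun x hx => by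
    have h := b1 x (mem_filter.2 ⟨mem_univ _, hx⟩)
    simp only [A, mem_product, mem_singleton, mem_filter, mem_univ, true_and] at h
    exact h
  refine ⟨β, fun x y hx hy h => b2 x (by simpa using hx) y (by simpa using hy) ?_ h,
    fun x hx => ⟨(mA x hx).1, (mA x hx).2.1.2, fun h0 => ?_⟩⟩
  · obtain ⟨x1, ⟨x2, x3⟩, x4⟩ := mA x hx
    obtain ⟨y1, ⟨y2, y3⟩, y4⟩ := mA y hy
    rw [← h] at y1 y2 y3 y4
    have e1 : (key x).1 = (key y).1 := x1.symm.trans y1
    rw [← e1] at y2 y4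
    have e2 := zdis _ _ _ _ x2 y2
    rw [← e2] at y4
    have e3 := Md _ _ _ _ _ x4 y4
    rw [← e3] at y3
    exact Prod.ext e1 (Prod.ext e2 (Prod.ext e3 (x3.symm.trans y3)))
  · have := (mA x hx).2.1.1
    simpa [key, mcl, h0, hod, zs] using this

end Pool.Agent.Lib.MP_2b1ae8_co.AT
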