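import Pool.Agent.Lib.MP_2b1ae8_co.AT.Trans
import Pool.Agent.Lib.MP_2b1ae8_co.AT.Late
import Pool.Agent.Lib.MP_2b1ae8_co.AT.Design

/-! Existence of the block structure. -/

set_option autoImplicit false
set_option linter.unusedSectionVars false

namespace Pool.Agent.Lib.MP_2b1ae8_co.AT

open Finset

/-- Bundles of a label: admissible invariant, arbitrary offset, copy number below `N`. -/
def bset {G : Type} [Fintype G] [DecidableEq G] {L : ℕ} (M : ℕ) (SI : Fin L → Fin L → Finset G)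
    (N : ℕ) : Finset (Bun G L M) := {b | b.1.2.2 ∈ SI b.1.1 b.1.2.1 ∧ (b.2.2 : ℕ) < N}

lemma card_bset {G : Type} [Fintype G] [DecidableEq G] {L : ℕ} (M : ℕ)
    (SI : Fin L → Fin L → Finset G) (N : ℕ) (h : N ≤ M) :
    #(bset M SI N) = (∑ Y, ∑ Y', #(SI Y Y')) * Fintype.card G * N := by
  have e1 : bset M SI N = ({x | x.2.2 ∈ SI x.1 x.2.1} : Finset (Fin L × Fin L × G)) ×ˢ
      (univ : Finset G) ×ˢ ({r | (r : ℕ) < N} : Finset (Fin M)) := by
    ext b
    simp [bset]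
  have e2 : #({x | x.2.2 ∈ SI x.1 x.2.1} : Finset (Fin L × Fin L × G)) =
      ∑ Y, ∑ Y', #(SI Y Y') := by
    rw [card_filter, Fintype.sum_prod_type]
    refine sum_congr rfl fun Y _ => ?_
    rw [Fintype.sum_prod_type]
    refine sum_congr rfl fun Y' _ => ?_
    simp
  rw [e1, card_product, card_product, e2, Fin.card_filter_val_lt, min_eq_right h, card_univ,
    mul_assoc]

/-- Classes, design parameters and the number of copies of each label. -/
lemma exists_plan {I Lb : Type} [Fintype I] [DecidableEq I] [Fintype Lb] [DecidableEq Lb]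
    (kp : Lb → Bool) (u : Lb → ℕ) (nn : I → Lb → ℕ) (sz rk : I → ℕ) (hrk : Function.Injective rk)
    (k Q L cap : ℕ) (hQ : 5 ≤ Q) (hcap : 0 < cap) (hk : ∀ i, sz i + rk i ≤ k)
    (hkL : k + cap * ((Q + 1) ^ 2 + 6) ≤ cap * L)
    (h1 : ∀ i, ∑ l, nn i l * (1 + u l) ≤ sz i) :
    ∃ (cl : I → Fin L) (a : Fin L → Bool → ℕ) (d : Fin L → ℕ),
      (∀ Z, a Z true + a Z false + d Z = Q) ∧ (∀ Z, #{i | cl i = Z} ≤ cap) ∧
      ∀ i, (cl i : ℕ) + 6 ≤ L ∧ sz i ≤ cap * (L - cl i - 5) ∧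
        (∀ κ, ∃ x, a (cl i) κ = x + 1 ∧ (Q - 5) * ∑ l with kp l = κ, nn i l * 1 ≤ x * sz i) ∧
        ∃ z, d (cl i) = z + 1 ∧ (Q - 5) * ∑ l, nn i l * u l ≤ z * sz i := by
  have h2 : ∀ i, ∑ l with kp l = true, nn i l * 1 + ∑ l with kp l = false, nn i l * 1 +
      ∑ l, nn i l * u l ≤ sz i := by
    intro i
    refine le_trans (le_of_eq ?_) (h1 i)
    simp only [mul_add, sum_add_distrib]
    rw [← sum_filter_add_sum_filter_not univ (fun l => kp l = true) (fun l => nn i l * 1)]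
    simp
  choose x y z e1 e2 e3 e4 using fun i => exists_type Q (sz i) _ _ _ (h2 i) hQ
  obtain ⟨cl, c1, c2, c3⟩ := exists_class (Ty := Fin (Q + 1) × Fin (Q + 1))
    (fun i => (⟨x i, by have := e1 i; omega⟩, ⟨y i, by have := e1 i; omega⟩)) rk hrk cap hcap
  have c4 : ∀ i, sz i + cap * (cl i + 6) ≤ cap * L := by
    intro i
    have := c3 i
    have := hk i
    simp only [Fintype.card_prod, Fintype.card_fin] at *
    nlinarith
  have c5 : ∀ i, cl i + 6 ≤ L := fun i =>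
    Nat.le_of_mul_le_mul_left (le_trans (Nat.le_add_left _ _) (c4 i)) hcap
  have hx : ∀ i j, cl i = cl j → x i = x j ∧ y i = y j ∧ z i = z j := fun i j h => by
    have := c1 i j h
    simp only [Prod.mk.injEq, Fin.mk.injEq] at this
    have := e1 i
    have := e1 j
    omega
  have : ∀ Z : Fin L, ∃ a b d, a + b + d = Q ∧
      ∀ i, cl i = Z → a = x i + 1 ∧ b = y i + 1 ∧ d = z i + 1 := by
    intro Z
    by_cases h : ∃ i, cl i = Z
    · obtain ⟨i, hi⟩ := h
      refine ⟨x i + 1, y i + 1, z i + 1, by have := e1 i; omega, fun j hj => ?_⟩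
      have := hx i j (hi.trans hj.symm)
      omega
    · exact ⟨0, 0, Q, by omega, fun i hi => absurd ⟨i, hi⟩ h⟩
  choose a b d f1 f2 using this
  refine ⟨fun i => ⟨cl i, by have := c5 i; omega⟩, fun Z κ => if κ then a Z else b Z, d,
    fun Z => by simpa using f1 Z, fun Z => le_trans (card_le_card fun i hi => ?_) (c2 Z),
    fun i => ⟨c5 i, ?_, fun κ => ?_, z i, (f2 _ i rfl).2.2, e4 i⟩⟩
  · simpa [Fin.ext_iff] using hi
  · obtain ⟨t, ht⟩ := Nat.exists_eq_add_of_le (c5 i)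
    have := c4 i
    have e : L - cl i - 5 = t + 1 := by omega
    simp only [e]
    rw [ht] at this
    nlinarith
  · cases κ
    · exact ⟨y i, by simpa using (f2 _ i rfl).2.1, e3 i⟩
    · exact ⟨x i, by simpa using (f2 _ i rfl).1, e2 i⟩

lemma gen_le {α : Type} (T : Finset α) (q : ℕ) (h : ∀ T', T = T' → T'.Nonempty → #T' ≤ q) :
    #T ≤ q := T.eq_empty_or_nonempty.elim (fun h => by simp [h]) (h T rfl)

abbrev GQ (Q : ℕ) := ZMod Q × ZMod Q
abbrev MM (Q L m : ℕ) : ℕ := Q * ((Q * Q) ^ (L - 2) * (m - L))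
abbrev Pln (Lb : Type) (Q L m : ℕ) := Fin L × (Lb → Fin (MM Q L m + 1))

/-- The number of subclasses. -/
def JJ (lb Q L m : ℕ) : ℕ := L * (MM Q L m + 1) ^ lb * (((Q * Q) ^ L) ^ L * m ^ L)

/-- The plan of a tree satisfies the conditions of the base embedding. -/
lemma plan_ok {Lb : Type} [Fintype Lb] [DecidableEq Lb] {K : ℕ} [NeZero K] (X : LD Lb K)
    (nn : Lb → ℕ) (a : Bool → ℕ) (Q d sz m' A r : ℕ) (hQ : 6 ≤ Q)
    (had : a true + a false + d = Q) (hA : 0 < A) (hr : d * A ≤ r) (hsz : sz ≤ (Q - 5) * m' * A)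
    (hlb : Q * K * Fintype.card Lb ≤ m')
    (ha : ∀ κ, ∃ x, a κ = x + 1 ∧ (Q - 5) * ∑ l with X.kp l = κ, nn l * 1 ≤ x * sz)
    (hd : ∃ z, d = z + 1 ∧ (Q - 5) * ∑ l, nn l * #{j | j ≠ 0 ∧ X.us l j = true} ≤ z * sz) :
    (∀ κ, d * #(TR (Q * m') K (fun l => nn l / r + 1) fun l i => X.kp l = κ ∧ i = 0) ≤
      a κ * m') ∧
    #(TR (Q * m') K (fun l => nn l / r + 1) fun l i => i ≠ 0 ∧ X.us l i = true) ≤ m' ∧
    ∀ l, nn l / r + 1 ≤ Q * m' := by
  obtain ⟨z, rfl, hz⟩ := hd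
  have hK : 1 ≤ K := Nat.pos_of_ne_zero (NeZero.ne K)
  have hdl : (z + 1) * (K * Fintype.card Lb) ≤ m' := by
    refine le_trans ?_ hlb
    rw [mul_assoc]
    exact Nat.mul_le_mul_right _ (by omega)
  have hdl' : (z + 1) * Fintype.card Lb ≤ m' :=
    le_trans (Nat.mul_le_mul_left _ (Nat.le_mul_of_pos_left _ hK)) hdl
  refine ⟨fun κ => ?_, ?_, fun l => ?_⟩
  · obtain ⟨x, hx, h⟩ := ha κ
    have p1 := plan_num _ nn (fun _ => 1) _ x sz _ m' A r (by omega) hA hr h hsz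
    have p2 : #(TR (Q * m') K (fun l => nn l / r + 1) fun l i => X.kp l = κ ∧ i = 0) ≤
        ∑ l with X.kp l = κ, nn l / r * 1 + Fintype.card Lb := by
      refine (card_TR _ _ _ _).trans ?_
      rw [sum_filter, ← card_univ, card_eq_sum_ones (univ : Finset Lb), ← sum_add_distrib]
      refine sum_le_sum fun l _ => ?_
      by_cases hl : X.kp l = κ
      · simp [hl, filter_eq']
      · simp [hl]
    have := Nat.mul_le_mul_left (z + 1) p2
    rw [hx]
    nlinarith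
  · have p1 := plan_num _ nn _ _ z sz _ m' A r (by omega) hA hr hz hsz
    have p2 : #(TR (Q * m') K (fun l => nn l / r + 1) fun l i => i ≠ 0 ∧ X.us l i = true) ≤
        ∑ l, nn l / r * #{j | j ≠ 0 ∧ X.us l j = true} + Fintype.card Lb * K := by
      refine (card_TR _ _ _ _).trans ?_
      rw [← card_univ, ← smul_eq_mul, ← sum_const, ← sum_add_distrib]
      refine sum_le_sum fun l _ => ?_
      have : #{j | j ≠ 0 ∧ X.us l j = true} ≤ K := (card_le_univ _).trans (by simp)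
      rw [add_mul]
      omega
    have := Nat.mul_le_mul_left (z + 1) p2
    exact Nat.le_of_mul_le_mul_left (c := z + 1) (by nlinarith) (by omega)
  · obtain ⟨x, hx, h⟩ := ha (X.kp l)
    have p1 := plan_num _ nn (fun _ => 1) _ x sz _ m' A r (by omega) hA hr h hsz
    have p2 := single_le_sum (f := fun l => nn l / r * 1) (fun _ _ => Nat.zero_le _)
      (show l ∈ univ.filter (fun l' => X.kp l' = X.kp l) by simp)
    have p3 : 1 ≤ Fintype.card Lb := Fintype.card_pos_iff.2 ⟨l⟩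
    have p4 : x + 1 ≤ Q := by
      rw [← hx]
      cases X.kp l <;> omega
    have := Nat.mul_le_mul_right m' p4
    have p5 : 1 ≤ m' := le_trans (Nat.mul_pos (by omega) p3) hdl'
    have p6 := Nat.le_mul_of_pos_left (∑ l' with X.kp l' = X.kp l, nn l' / r * 1)
      (show 0 < z + 1 by omega)
    rw [add_mul] at this
    omega

set_option synthInstance.maxSize 2000 in
theorem exists_MS {I Lb : Type} [Fintype I] [DecidableEq I] [Fintype Lb] [DecidableEq Lb]
    [Nonempty Lb] {K : ℕ} [NeZero K] (X : LD Lb K) (nn : I → Lb → ℕ) (sz rk : I → ℕ)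
    (hrk : Function.Injective rk) {k D g Q L m q q' ζ lam e η η' θ Mh n0 Mk w : ℕ}
    [NeZero Q] [NeZero m] [NeZero L]
    (H : Num k K D g Q L m q q' ζ lam e η η' θ Mh n0 Mk w (Fintype.card Lb)
      (JJ (Fintype.card Lb) Q L m))
    (hk : ∀ i, sz i + rk i ≤ k)
    (h1 : ∀ i, ∑ l, nn i l * (1 + #{j | j ≠ 0 ∧ X.us l j = true}) ≤ sz i)
    (h2 : ∀ i, ∑ l, nn i l * #{j | X.ma l j = true} ≤ (D + 1) * lam) :
    Nonempty (MS I Lb (Bun (GQ Q) L (MM Q L m)) (Blk (GQ Q) L m) (Fin L × (Fin L → GQ Q))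
      (Pln Lb Q L m × Tr (GQ Q) L m) X nn m q q' n0 Mk) := by
  have hG : Fintype.card (GQ Q) = Q * Q := by simp
  have hQ := H.hQ
  have hQQ : 0 < Q * Q := by positivity
  have hm' : 0 < (Q * Q) ^ (L - 2) * (m - L) :=
    lt_of_lt_of_le (Nat.mul_pos (Nat.mul_pos (by omega) H.hK) Fintype.card_pos) H.hlb
  have hA : 0 < Q * (Q * Q) * q' := Nat.mul_pos (by positivity) H.hq'
  have hJ : Fintype.card (Pln Lb Q L m) * Fintype.card (Tr (GQ Q) L m) =
      JJ (Fintype.card Lb) Q L m := by simp [JJ]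
  obtain ⟨cl, a, d, had, hcl, hpl⟩ := exists_plan X.kp (fun l => #{j | j ≠ 0 ∧ X.us l j = true})
    nn sz rk hrk k Q L _ (by omega) (Nat.mul_pos (Nat.mul_pos (by omega) hm') hA) hk H.hk h1
  obtain ⟨S, c, s1, s2, s3, s4, s5, s6, s7, s8⟩ := design Q L a d had
  let r : Fin L → ℕ := fun Z => (∑ Y, ∑ Y', #(S Y Y' (Sum.inr Z))) * (Q * Q) * q'
  have hr : ∀ i, d (cl i) * ((L - cl i - 5) * (Q * (Q * Q) * q')) ≤ r (cl i) := fun i => by
    calc _ = d (cl i) * Q * (L - cl i - 5) * (Q * Q) * q' := by ring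
      _ ≤ _ := Nat.mul_le_mul_right _ (Nat.mul_le_mul_right _ (s8 _))
  have hA' : ∀ i, 0 < (L - cl i - 5) * (Q * (Q * Q) * q') := fun i =>
    Nat.mul_pos (by have := (hpl i).1; omega) hA
  have hr0 : ∀ i, 0 < r (cl i) := fun i => by
    obtain ⟨z, hz, -⟩ := (hpl i).2.2.2
    exact lt_of_lt_of_le (Nat.mul_pos (by omega) (hA' i)) (hr i)
  have hok := fun i => plan_ok X (nn i) (a (cl i)) Q (d (cl i)) (sz i) _ _ (r (cl i)) hQ (had _)
    (hA' i) (hr i) ((hpl i).2.1.trans (le_of_eq (by ring))) H.hlb (hpl i).2.2.1 (hpl i).2.2.2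
  let pl : I → Pln Lb Q L m := fun i =>
    (cl i, fun l => ⟨nn i l / r (cl i) + 1, Nat.lt_succ_of_le ((hok i).2.2 l)⟩)
  have hβ : ∀ π : Pln Lb Q L m, ∃ β : MV Lb (GQ Q) L (MM Q L m) K → Blk (GQ Q) L m,
      (∃ i, pl i = π) →
      (∀ x y, Valid (fun Y Y' => S Y Y' (Sum.inr π.1)) (fun l => π.2 l) X.us x →
        Valid (fun Y Y' => S Y Y' (Sum.inr π.1)) (fun l => π.2 l) X.us y → β x = β y → x = y) ∧
      ∀ x, Valid (fun Y Y' => S Y Y' (Sum.inr π.1)) (fun l => π.2 l) X.us x →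
        (β x).1 = mcl X.od x ∧ (β x).2.1 (mpt X.od x) = mvl X.od x ∧
        (x.2.2 = 0 → (β x).2.1 π.1 ∈ S π.1 x.2.1.1.1 (Sum.inl (X.kp x.1))) := by
    intro π
    by_cases h : ∃ i, pl i = π
    · obtain ⟨i, rfl⟩ := h
      obtain ⟨β, hβ⟩ := exists_base (M := MM Q L m) (m := m) (cl i)
        (fun Y Y' => S Y Y' (Sum.inr (cl i))) (fun Y κ => S (cl i) Y (Sum.inl κ)) (a (cl i))
        (d (cl i)) Q (c (cl i)) hG (had _)
        (fun Y x h h' => by simpa using s1 _ _ _ _ _ h h') (s3 _) (s4 _) (s5 _) (s6 _) (s7 _)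
        H.hm X.kp X.us X.od X.od_zero (fun l => nn i l / r (cl i) + 1)
        (by rw [hG]; exact (hok i).1) (by rw [hG]; exact (hok i).2.1)
      exact ⟨β, fun _ => hβ⟩
    · exact ⟨fun _ => default, fun h' => absurd h' h⟩
  choose β hβ using hβ
  replace hβ := fun i => hβ (pl i) ⟨i, rfl⟩
  obtain ⟨ω, hω⟩ := count_fib (P := Tr (GQ Q) L m) pl
  rw [hJ] at hω
  have : DecidableEq (Lb × Bun (GQ Q) L (MM Q L m) × Fin K) := Classical.decEq _
  let bs : Pln Lb Q L m → Lb → Finset (Bun (GQ Q) L (MM Q L m)) := fun π l =>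
    bset _ (fun Y Y' => S Y Y' (Sum.inr π.1)) (π.2 l)
  have hv : ∀ π l b j, b ∈ bs π l → X.us l j = true →
      Valid (fun Y Y' => S Y Y' (Sum.inr π.1)) (fun l => π.2 l) X.us (l, b, j) := by
    intro π l b j hb hj
    simp only [bs, bset, mem_filter, mem_univ, true_and] at hb
    exact ⟨hb.1, hb.2, hj⟩
  have hcard : ∀ i l, q' * #(bs (pl i) l) = r (cl i) * (nn i l / r (cl i) + 1) := fun i l => by
    rw [card_bset _ _ _ ((hok i).2.2 l), hG]
    simp only [r, pl]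
    ring
  have hne : ∀ i l b j, b ∈ bs (pl i) l → X.us l j = true → cl i ≠ (β (pl i) (l, b, j)).1 := by
    intro i l b j hb hj
    have h := hv _ _ _ _ hb hj
    rw [((hβ i).2 _ h).1]
    have := s7 _ _ _ _ h.1
    unfold mcl
    split_ifs <;> tauto
  have hin : ∀ i l b j j', b ∈ bs (pl i) l → X.us l j = true → X.us l j' = true →
      X.od l j = false → X.od l j' = true → (β (pl i) (l, b, j)).1 = b.1.1 ∧
        (β (pl i) (l, b, j')).1 = b.1.2.1 ∧ b.1.1 ≠ b.1.2.1 ∧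
        inv (β (pl i) (l, b, j)) (β (pl i) (l, b, j')) = b.1.2.2 ∧
        b.1.2.2 ∈ S b.1.1 b.1.2.1 (Sum.inr (cl i)) := by
    intro i l b j j' hb hj hj' o o'
    have h := hv _ _ _ _ hb hj
    obtain ⟨a1, a2, -⟩ := (hβ i).2 _ h
    obtain ⟨b1, b2, -⟩ := (hβ i).2 _ (hv _ _ _ _ hb hj')
    simp only [mcl, mpt, mvl, o, o', Bool.false_eq_true, if_false, if_true] at a1 a2 b1 b2
    refine ⟨a1, b1, (s7 _ _ _ _ h.1).1, ?_, h.1⟩
    simp only [inv, a1, b1, a2, b2]
    abel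
  have hn0 : n0 ≤ m * q := by have := H.hfree; omega
  have hs : ∀ Z i i', pl i = pl i' → i ∈ ({i | cl i = Z} : Finset I) →
      i' ∈ ({i | cl i = Z} : Finset I) := fun Z i i' h hi => by
    have : cl i = cl i' := congrArg Prod.fst h
    simpa [this] using hi
  refine ⟨⟨fun i => (pl i, ω i), fun σ => (σ.1.1, (tY σ.1.1 σ.2).1), fun a j => (a.1, a.2, j),
    fun σ => bs σ.1, fun σ l b j => act σ.2 (β σ.1 (l, b, j)), kind S, ?_, ?_, ?_, ?_, ?_, ?_, ?_,
    ?_, ?_, ?_, ?_⟩⟩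
  · rintro ⟨Y, b⟩ j ⟨Y', b'⟩ j' h
    simpa [and_assoc] using h
  · intro i l b j l' b' j' hb hj hb' hj' h
    simpa using (hβ i).1 _ _ (hv _ _ _ _ hb hj) (hv _ _ _ _ hb' hj') (act_inj _ h)
  · intro i l b j j' hb hj h
    exact hne i l b j hb hj (congrArg Prod.fst h).symm
  · intro a j j'
    simp [kind]
  · intro i l b j' hb hj
    have h := hv _ _ _ _ hb hj
    obtain ⟨a1, -, a3⟩ := (hβ i).2 _ h
    have a4 := a3 rfl
    simp only [mcl, X.od_zero, Bool.false_eq_true, if_false] at a1 a4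
    rw [← a1, ← inv_cell (ω i) _ j' (hne i l b 0 hb hj)] at a4
    exact kind_eq S s1 s2 (B' := act (ω i) (β (pl i) (l, b, 0))) (hne i l b 0 hb hj) _ a4
  · intro i l b j j' hb hj hj' o o'
    obtain ⟨a1, a2, a3, a4, a5⟩ := hin i l b j j' hb hj hj' o o'
    rw [← a1, ← a2] at a3
    rw [← a4, ← a1, ← a2, ← inv_act (ω i) a3] at a5
    exact kind_eq S s1 s2 (B := act (ω i) (β (pl i) (l, b, j)))
      (B' := act (ω i) (β (pl i) (l, b, j'))) a3 _ a5
  · intro i l
    rw [← card_pos]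
    have := hcard i l
    have h0 := Nat.mul_pos (hr0 i) (Nat.succ_pos (nn i l / r (cl i)))
    exact Nat.pos_of_mul_pos_left (by rw [this]; exact h0)
  · intro i l
    exact (Nat.lt_mul_div_succ _ (hr0 i)).le.trans (hcard i l).ge
  · rintro ⟨Z, α⟩
    have := hω _ Unit {i | cl i = Z} (hs Z) ((AddMonoidHom.fst _ _).comp (tY Z)) univ
      (fun a _ => by
        obtain ⟨p, hp⟩ := tY_surj (m := m) Z (a, 0)
        exact ⟨p, congrArg Prod.fst hp⟩) (fun _ => univ) (fun _ _ => α) 1 1 (by simp)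
    simp only [card_univ, Fintype.card_pi, hG, prod_const, Fintype.card_fin, mul_one] at this
    have h3 := (this.trans (Nat.add_le_add_right (hcl Z) _)).trans H.hcap
    rw [mul_comm] at h3
    refine le_trans ?_ (Nat.le_of_mul_le_mul_left h3 (by positivity))
    refine card_le_card_of_injOn (fun i => (i, ())) (fun i hi => ?_) (fun i _ j _ h => by simpa using h)
    simp only [coe_filter, mem_univ, true_and, Set.mem_ofPred_eq, Prod.mk.injEq, mem_filter] at hi ⊢
    obtain ⟨rfl, rfl⟩ := hi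
    exact ⟨rfl, rfl⟩
  · intro B B'
    refine gen_le _ _ fun T hT h0 => ?_
    have key : ∀ x ∈ T, B.1 ≠ B'.1 ∧ inv B B' ∈ S B.1 B'.1 (Sum.inr (cl x.1)) ∧
        (x.2.2.1 ∈ bs (pl x.1) x.2.1 ∧ x.2.2.2 ≠ 0 ∧ X.us x.2.1 x.2.2.2 = true ∧
          x.2.2.1.1 = (B.1, B'.1, inv B B')) ∧
        ((tY B.1).prod (tY B'.1)) (ω x.1) =
          (B.2 - (β (pl x.1) (x.2.1, x.2.2.1, X.ev x.2.1 x.2.2.2)).2,
            B'.2 - (β (pl x.1) (x.2.1, x.2.2.1, X.oo x.2.1 x.2.2.2)).2) := by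
      rintro ⟨i, l, b, j⟩ hx
      rw [← hT, mem_filter] at hx
      obtain ⟨-, hb, hj0, hj, hj', ho, rfl, rfl⟩ := hx
      obtain ⟨o1, o2, o3, o4⟩ := X.ev_oo l j hj hj' ho
      obtain ⟨a1, a2, a3, a4, a5⟩ := hin i l b (X.ev l j) (X.oo l j) hb o1 o2 o3 o4
      have a6 := a3
      rw [← a1, ← a2] at a6
      rw [inv_act _ a6, a4]
      refine ⟨a6, ?_, ⟨hb, hj0, hj, ?_⟩, by simp [act]⟩
      · simpa only [act, a1, a2] using a5
      · simp only [act, a1, a2]
    obtain ⟨x0, hx0⟩ := h0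
    obtain ⟨k1, k2, -⟩ := key x0 hx0
    have := hω _ (Lb × Bun (GQ Q) L (MM Q L m) × Fin K) {i | cl i = cl x0.1} (hs _)
      ((tY B.1).prod (tY B'.1)) (SP (GQ Q) m B.1 B'.1) (tY_surj2 k1)
      (fun π => {y | y.2.1 ∈ bs π y.1 ∧ y.2.2 ≠ 0 ∧ X.us y.1 y.2.2 = true ∧
        y.2.1.1 = (B.1, B'.1, inv B B')})
      (fun π y => (B.2 - (β π (y.1, y.2.1, X.ev y.1 y.2.2)).2,
        B'.2 - (β π (y.1, y.2.1, X.oo y.1 y.2.2)).2)) 1
      ((Q * Q) ^ (L - 2) * (m - L) * (Q * Q)) (fun i _ => by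
        rw [mul_one]
        refine le_trans ?_ (Nat.mul_le_mul (hok i).2.1 ((card_univ (α := GQ Q)).trans hG).le)
        rw [← card_product]
        refine card_le_card_of_injOn (fun y => ((y.1, y.2.1.2.2, y.2.2), y.2.1.2.1)) ?_ ?_
        · intro y hy
          simp only [coe_filter, mem_univ, true_and, Set.mem_ofPred_eq, bs, bset, mem_filter] at hy
          simpa [TR] using ⟨Nat.le_of_lt_succ hy.1.2, hy.2.1, hy.2.2.1⟩
        · rintro ⟨l, ⟨c, u, t⟩, j⟩ hy ⟨l', ⟨c', u', t'⟩, j'⟩ hy' h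
          simp only [coe_filter, mem_univ, true_and, Set.mem_ofPred_eq, Prod.mk.injEq] at hy hy' h
          obtain ⟨⟨rfl, rfl, rfl⟩, rfl⟩ := h
          rw [hy.2.2.2, hy'.2.2.2])
    have h4 : #T * #(SP (GQ Q) m B.1 B'.1) ≤
        (Q * Q) ^ L * (m * q) * ((Q * Q) ^ (L - 2) * m * (Q * Q)) := by
      refine le_trans (le_trans ?_ this) (Nat.mul_le_mul (((Nat.add_le_add_right (hcl _) _).trans
        H.hcap).trans (Nat.mul_le_mul_left _ hn0)) (by gcongr; omega))
      rw [mul_one]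
      refine Nat.mul_le_mul_right _ (card_le_card fun x hx => ?_)
      obtain ⟨-, j2, j3, j4⟩ := key x hx
      simp only [mem_filter, mem_univ, true_and]
      exact ⟨by simpa using s1 _ _ _ _ _ j2 k2, j3, j4⟩
    have h5 := card_SP (G := GQ Q) (m := m) B.1 B'.1
    rw [hG] at h5
    have h6 : (Q * Q) ^ L = (Q * Q) ^ (L - 2) * (Q * Q) * (Q * Q) := by
      rw [← pow_succ, ← pow_succ]
      congr 1
      have := H.hL
      omega
    have hm : 0 < m := Nat.pos_of_ne_zero (NeZero.ne m)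
    refine Nat.le_of_mul_le_mul_right (c := (Q * Q) ^ L * m * ((Q * Q) ^ L * m)) ?_ (by positivity)
    calc _ ≤ #T * (#(SP (GQ Q) m B.1 B'.1) * (Q * Q)) := Nat.mul_le_mul_left _ h5
      _ ≤ (Q * Q) ^ L * (m * q) * ((Q * Q) ^ (L - 2) * m * (Q * Q)) * (Q * Q) := by
        rw [← mul_assoc]
        exact Nat.mul_le_mul_right _ h4
      _ = _ := by
        nth_rewrite 3 [h6]
        ring
  · intro B
    have := hω _ (Lb × Bun (GQ Q) L (MM Q L m) × Fin K) univ (by simp) (tY B.1) univ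
      (fun a _ => tY_surj _ a)
      (fun π => {y | y.2.1 ∈ bs π y.1 ∧ X.us y.1 y.2.2 = true ∧ X.ma y.1 y.2.2 = true})
      (fun π y => B.2 - (β π y).2) q'
      ((D + 1) * lam + q' * (L * L * (Q * Q) * (Q * Q)) * (K * Fintype.card Lb)) (fun i _ => by
        have e1 : #({y | y.2.1 ∈ bs (pl i) y.1 ∧ X.us y.1 y.2.2 = true ∧ X.ma y.1 y.2.2 = true} :
            Finset (Lb × Bun (GQ Q) L (MM Q L m) × Fin K)) ≤
            ∑ l, #(bs (pl i) l) * #{j | X.ma l j = true} := by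
          rw [card_eq_sum_card_fiberwise (f := Prod.fst) (t := univ) (fun _ _ => mem_univ _)]
          refine sum_le_sum fun l _ => ?_
          rw [← card_product]
          refine card_le_card_of_injOn (fun y => y.2) ?_ ?_
          · rintro ⟨l', b, j⟩ hy
            simp only [coe_filter, mem_univ, true_and, Set.mem_ofPred_eq, mem_filter] at hy
            obtain ⟨hy, rfl⟩ := hy
            simpa using ⟨hy.1, hy.2.2⟩
          · rintro y hy y' hy' h
            simp only [coe_filter, Set.mem_ofPred_eq] at hy hy'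
            exact Prod.ext (hy.2.trans hy'.2.symm) h
        have e2 : r (cl i) ≤ q' * (L * L * (Q * Q) * (Q * Q)) := by
          rw [mul_comm q']
          refine Nat.mul_le_mul_right _ (Nat.mul_le_mul_right _ ?_)
          calc _ ≤ ∑ _Y : Fin L, ∑ _Y' : Fin L, Q * Q :=
                sum_le_sum fun _ _ => sum_le_sum fun _ _ => (card_le_univ _).trans hG.le
            _ = _ := by simp [mul_assoc]
        refine (Nat.mul_le_mul_right _ e1).trans (le_trans ?_ (Nat.add_le_add (h2 i)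
          (Nat.mul_le_mul_right _ e2)))
        rw [sum_mul, mul_comm K, ← mul_assoc, mul_comm _ (Fintype.card Lb), mul_assoc,
          ← card_univ, ← smul_eq_mul (#(univ : Finset Lb)), ← sum_const, ← sum_add_distrib]
        refine sum_le_sum fun l _ => ?_
        have e3 : #{j | X.ma l j = true} ≤ K := (card_le_univ _).trans (by simp)
        have e4 := Nat.mul_div_le (nn i l) (r (cl i))
        rw [mul_right_comm, mul_comm _ q', hcard, mul_add, add_mul, mul_one]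
        gcongr)
    have e5 : #(univ : Finset I) ≤ k + 1 := by
      rw [← card_range (k + 1)]
      exact card_le_card_of_injOn rk (fun i _ => by have := hk i; simp; omega) hrk.injOn
    have h3 := (this.trans (Nat.mul_le_mul_right _ (Nat.add_le_add_right e5 _))).trans H.hMk
    simp only [card_univ, Fintype.card_prod, Fintype.card_pi, ZMod.card, prod_const,
      Fintype.card_fin] at h3
    have hm : 0 < m := Nat.pos_of_ne_zero (NeZero.ne m)
    have hq' := H.hq'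
    rw [mul_assoc, mul_comm] at h3
    refine le_trans (card_le_card fun x hx => ?_) (Nat.le_of_mul_le_mul_left h3 (by positivity))
    simp only [mem_filter, mem_univ, true_and] at hx ⊢
    obtain ⟨j1, j2, j3, rfl⟩ := hx
    exact ⟨⟨j1, j2, j3⟩, by simp [act]⟩

end Pool.Agent.Lib.MP_2b1ae8_co.AT
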