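import Mathlib

/-! Asymptotic tree packing: the decomposed forest structure. -/

set_option autoImplicit false

namespace Pool.Agent.Lib.MP_2b1ae8_co.AT

open Finset

/-- A family of rooted trees on one vertex type `V` (`tr v` is the tree of `v`, `R` the roots),
with a core `Z`, late vertices `La`, an early part `E` of the core, and the remaining vertices
split into pieces (`top v` is the top vertex of the piece of `v`, `idx v` its index there). -/
structure GF (V I : Type) [Fintype V] [DecidableEq V] [DecidableEq I] (K D g : ℕ) where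
  tr : V → I
  R : Finset V
  par : V → V
  dep : V → ℕ
  rho : V → V
  Z : Finset V
  La : Finset V
  E : Finset V
  top : V → V
  idx : V → ℕ
  tr_par : ∀ v, tr (par v) = tr v
  dep_par : ∀ v, v ∉ R → dep (par v) + 1 = dep v
  tr_rho : ∀ v, tr (rho v) = tr v
  rho_E : ∀ v, rho v ∈ E
  R_sub : R ⊆ E
  E_sub : E ⊆ Z
  disj : ∀ v ∈ Z, v ∉ La
  card_Z : ∀ i, K * D * #{v ∈ Z | tr v = i} ≤ (2 * D + K) * #{v | tr v = i} + K * D
  card_La : ∀ i, K * #{v ∈ La | tr v = i} ≤ 2 * #{v | tr v = i}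
  card_E : ∀ i, g * #{v ∈ E | tr v = i} ≤ 2 * #{v | tr v = i} + g
  par_Z : ∀ v ∈ Z, v ∉ R → par v ∈ Z ∨ par v ∈ La
  par_La : ∀ v ∈ La, par v ∉ La
  ch_La : ∀ v ∈ La, #{u | u ∉ R ∧ par u = v} ≤ D
  ch_small : ∀ v ∈ Z, v ∉ E → #{u | u ∉ R ∧ par u = v} ≤ g
  one_E : ∀ v ∈ Z, v ∉ E → ∀ u ∈ E, ∀ u' ∈ E, u ∉ R → u' ∉ R → par u = v → par u' = v → u = u'
  one_La : ∀ u ∈ La, ∀ u' ∈ La, par u = par u' → par u ∉ Z → u = u'
  top_self : ∀ v, v ∉ Z → v ∉ La → (par v ∈ Z ∨ par v ∈ La) → top v = v ∧ idx v = 0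
  top_par : ∀ v, v ∉ Z → v ∉ La → par v ∉ Z → par v ∉ La →
    top v = top (par v) ∧ idx (par v) < idx v
  idx_lt : ∀ v, v ∉ Z → v ∉ La → idx v < K
  idx_inj : ∀ u v, u ∉ Z → u ∉ La → v ∉ Z → v ∉ La → top u = top v → idx u = idx v → u = v

end Pool.Agent.Lib.MP_2b1ae8_co.AT
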