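import Pool.Agent.Lib.MP_2b1ae8_co.AT.Defs

/-! Asymptotic tree packing: labels of pieces, the block structure, the numerical conditions. -/

set_option autoImplicit false

namespace Pool.Agent.Lib.MP_2b1ae8_co.AT

open Finset

/-- What a label says about a piece: kind of its hub, used indices, parity, marks, parent index. -/
structure LD (Lb : Type) (K : ℕ) [NeZero K] where
  kp : Lb → Bool
  us : Lb → Fin K → Bool
  od : Lb → Fin K → Bool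
  ma : Lb → Fin K → Bool
  cp : Lb → Fin K → Fin K
  od_zero : ∀ l, od l 0 = false

/-- The even end of the edge from index `j` to its parent index. -/
def LD.ev {Lb : Type} {K : ℕ} [NeZero K] (X : LD Lb K) (l : Lb) (j : Fin K) : Fin K :=
  if X.od l j then X.cp l j else j

/-- The odd end of the edge from index `j` to its parent index. -/
def LD.oo {Lb : Type} {K : ℕ} [NeZero K] (X : LD Lb K) (l : Lb) (j : Fin K) : Fin K :=
  if X.od l j then j else X.cp l j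

abbrev Lbl (K : ℕ) := Bool × (Fin K → Bool) × (Fin K → Bool) × (Fin K → Bool) × (Fin K → Fin K)

def lblD (K : ℕ) [NeZero K] : LD (Lbl K) K where
  kp l := l.1
  us l := l.2.1
  od l j := decide (j ≠ 0) && l.2.2.1 j
  ma l := l.2.2.2.1
  cp l := l.2.2.2.2
  od_zero l := by simp

/-- Labels of the pieces of a decomposed forest; `Tp` is the set of top vertices of pieces. -/
structure LS {V I Lb : Type} [Fintype V] [DecidableEq V] [DecidableEq I] {K D g : ℕ} [NeZero K]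
    (F : GF V I K D g) (X : LD Lb K) where
  lab : V → Lb
  ix : V → Fin K
  hub : V → V
  Tp : Finset V
  mem_Tp : ∀ v, v ∈ Tp ↔ v ∉ F.Z ∧ v ∉ F.La ∧ (F.par v ∈ F.Z ∨ F.par v ∈ F.La)
  top_mem : ∀ v, v ∉ F.Z → v ∉ F.La → F.top v ∈ Tp ∧ F.tr (F.top v) = F.tr v ∧
    lab (F.top v) = lab v ∧ X.us (lab v) (ix v) = true
  top_self : ∀ r ∈ Tp, F.top r = r ∧ ix r = 0
  ix_inj : ∀ u v, u ∉ F.Z → u ∉ F.La → v ∉ F.Z → v ∉ F.La → F.top u = F.top v → ix u = ix v →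
    u = v
  hub_Z : ∀ r ∈ Tp, hub r ∈ F.Z ∧ F.tr (hub r) = F.tr r ∧ (X.kp (lab r) = true ↔ hub r ∈ F.E) ∧
    (F.par r ∈ F.Z → hub r = F.par r) ∧ (hub r ∉ F.E → hub r = F.par r)
  inner : ∀ v, v ∉ F.Z → v ∉ F.La → v ∉ Tp → F.top (F.par v) = F.top v ∧
    X.cp (lab v) (ix v) = ix (F.par v) ∧ ix (F.par v) < ix v ∧
    X.od (lab v) (ix v) ≠ X.od (lab v) (ix (F.par v))
  mark : ∀ v, v ∉ F.Z → v ∉ F.La → (F.par v ∈ F.La ∨ ∃ u ∈ F.La, F.par u = v) →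
    X.ma (lab v) (ix v) = true
  cnt_us : ∀ i, ∑ r ∈ Tp with F.tr r = i, (1 + #{j | j ≠ 0 ∧ X.us (lab r) j = true}) ≤
    #{v | F.tr v = i}
  cnt_ma : ∀ i, ∑ r ∈ Tp with F.tr r = i, #{j | X.ma (lab r) j = true} ≤
    (D + 1) * #{v ∈ F.La | F.tr v = i}

/-- The block structure: `sc i` is the subclass of tree `i`; it determines the cell of the core,
the admissible bundles of each label and the block of each index of each bundle. -/
structure MS (I Lb Bn BB CC Sb : Type) [Fintype I] [Fintype Lb] [Fintype Bn] [DecidableEq Bn]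
    [DecidableEq BB] [DecidableEq CC] {K : ℕ} [NeZero K] (X : LD Lb K) (nn : I → Lb → ℕ)
    (m q q' n0 Mk : ℕ) where
  sc : I → Sb
  cell : Sb → CC
  cb : CC → Fin m → BB
  bs : Sb → Lb → Finset Bn
  bl : Sb → Lb → Bn → Fin K → BB
  kd : BB → BB → ℕ
  cb_inj : ∀ a j a' j', cb a j = cb a' j' → a = a' ∧ j = j'
  bl_inj : ∀ i l b j l' b' j', b ∈ bs (sc i) l → X.us l j = true → b' ∈ bs (sc i) l' →
    X.us l' j' = true → bl (sc i) l b j = bl (sc i) l' b' j' → l = l' ∧ b = b' ∧ j = j'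
  bl_ne : ∀ i l b j j', b ∈ bs (sc i) l → X.us l j = true → bl (sc i) l b j ≠ cb (cell (sc i)) j'
  kd_core : ∀ a j j', kd (cb a j) (cb a j') = 0
  kd_root : ∀ i l b j', b ∈ bs (sc i) l → X.us l 0 = true →
    kd (cb (cell (sc i)) j') (bl (sc i) l b 0) = (if X.kp l then 2 else 3) ∧
    kd (bl (sc i) l b 0) (cb (cell (sc i)) j') = 4
  kd_in : ∀ i l b j j', b ∈ bs (sc i) l → X.us l j = true → X.us l j' = true → X.od l j = false →
    X.od l j' = true → kd (bl (sc i) l b j) (bl (sc i) l b j') = 1 ∧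
      kd (bl (sc i) l b j') (bl (sc i) l b j) = 5
  bs_ne : ∀ i l, (bs (sc i) l).Nonempty
  size : ∀ i l, nn i l ≤ q' * #(bs (sc i) l)
  cnt_cell : ∀ a, #{i | cell (sc i) = a} ≤ n0
  cnt_pair : ∀ B B', #{x : I × Lb × Bn × Fin K | x.2.2.1 ∈ bs (sc x.1) x.2.1 ∧ x.2.2.2 ≠ 0 ∧
    X.us x.2.1 x.2.2.2 = true ∧ X.us x.2.1 (X.cp x.2.1 x.2.2.2) = true ∧
    X.od x.2.1 x.2.2.2 ≠ X.od x.2.1 (X.cp x.2.1 x.2.2.2) ∧
    bl (sc x.1) x.2.1 x.2.2.1 (X.ev x.2.1 x.2.2.2) = B ∧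
    bl (sc x.1) x.2.1 x.2.2.1 (X.oo x.2.1 x.2.2.2) = B'} ≤ q
  cnt_ma : ∀ B, #{x : I × Lb × Bn × Fin K | x.2.2.1 ∈ bs (sc x.1) x.2.1 ∧
    X.us x.2.1 x.2.2.2 = true ∧ X.ma x.2.1 x.2.2.2 = true ∧
    bl (sc x.1) x.2.1 x.2.2.1 x.2.2.2 = B} ≤ Mk

/-- All numerical conditions. `lb` is the number of labels, `J` the number of subclasses. -/
structure Num (k K D g Q L m q q' ζ lam e η η' θ Mh n0 Mk w lb J : ℕ) : Prop where
  hK : 0 < K
  hD : 0 < D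
  hg : 0 < g
  hQ : 6 ≤ Q
  hL : 2 ≤ L
  hm : L ≤ m
  hq' : 0 < q'
  hη : 0 < η
  hη' : 0 < η'
  hn0 : 0 < n0
  hζ : (2 * D + K) * k + K * D ≤ K * D * ζ
  hlam : 2 * k ≤ K * lam
  he : 2 * k + g ≤ g * e
  hk : k + (Q - 5) * ((Q * Q) ^ (L - 2) * (m - L)) * (Q * (Q * Q) * q') * ((Q + 1) ^ 2 + 6) ≤
    (Q - 5) * ((Q * Q) ^ (L - 2) * (m - L)) * (Q * (Q * Q) * q') * L
  hlb : Q * K * lb ≤ (Q * Q) ^ (L - 2) * (m - L)
  hcap : (Q - 5) * ((Q * Q) ^ (L - 2) * (m - L)) * (Q * (Q * Q) * q') + J ≤ (Q * Q) ^ L * n0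
  hMk : (k + 1 + J) * ((D + 1) * lam + q' * (L * L * (Q * Q) * (Q * Q)) * (K * lb)) ≤
    (Q * Q) ^ L * m * q' * Mk
  hM1 : q' ≤ Mh * η'
  hM2 : 2 * ζ ≤ Mh * η'
  hM3 : (D + 1) * lam ≤ Mh * η'
  hroom : n0 + (Mh + 1) ^ (e * (L * (Q * Q) ^ L * m + 2)) * 2 ^ e ≤ m * q
  hθ : (g + 1) * n0 * (L * (Q * Q) ^ L * m * q' + 2 * ζ + (D + 1) * lam) ≤ θ * η ^ 2
  hfree : 9 * ζ + 2 * (e * η' + η + g + 1) + θ + n0 ≤ m * q
  hq : q' + e * η' + η + g + 1 + J ≤ q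
  hw : lam + (D + 1) * (2 * ((D + 1) * lam) + e * η' + η + g + 1 + 2 * Mk) < w

end Pool.Agent.Lib.MP_2b1ae8_co.AT
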