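import Mathlib
import Pool.Agent.Lib.MP_2b1ae8_co.AT.Hub1

/-!
The hub embedding.
-/

set_option autoImplicit false

namespace Pool.Agent.Lib.MP_2b1ae8_co.AT

open Finset

theorem hub {V I C H : Type} [Fintype V] [DecidableEq V] [DecidableEq I] [Fintype C]
    [Fintype H] [DecidableEq H] [Nonempty H]
    (tr : V → I) (par : V → V) (dep : V → ℕ) (R A E : Finset V) (TT : Finset I)
    (w : V → C → ℝ) (c0 : C) (e M n0 : ℕ) (ζ g η η' : ℝ) (Bd : C → ℝ)
    (hA : ∀ v ∈ A, tr v ∈ TT) (hE : E ⊆ A) (htr : ∀ v, tr (par v) = tr v)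
    (hdep : ∀ v, v ∉ R → dep (par v) < dep v)
    (hw : ∀ v c, 0 ≤ w v c) (hBd : ∀ c, 0 ≤ Bd c) (hg : 0 ≤ g) (hη : 0 < η) (hη' : 0 < η')
    (hc0 : ∀ v ∈ A, (1 : ℝ) + #{u ∈ A | u ∉ R ∧ par u = v} ≤ w v c0)
    (hcE : ∀ i, #{v ∈ E | tr v = i} ≤ e)
    (hcA : ∀ i, (#{v ∈ A | tr v = i} : ℝ) ≤ ζ)
    (hone : ∀ v ∈ A, v ∉ E → ∀ u ∈ E, ∀ u' ∈ E, u ∉ R → u' ∉ R → par u = v → par u' = v → u = u')
    (hsmall : ∀ v ∈ A, v ∉ E → ∀ c, w v c ≤ g)
    (htot : ∀ i c, ∑ v ∈ A with tr v = i, w v c ≤ Bd c)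
    (hM : ∀ c, Bd c ≤ M * η')
    (hn0 : #TT ≤ n0) (hn0' : 0 < n0)
    (hroom : n0 + (M + 1) ^ (e * Fintype.card C) * 2 ^ e ≤ Fintype.card H)
    (hfree : ζ + 2 * (2 * Bd c0 + e * η' + η + g) + g * n0 * (∑ c, Bd c) / η ^ 2 + n0
      ≤ Fintype.card H) :
    ∃ φ : V → H,
      (∀ u ∈ A, ∀ v ∈ A, tr u = tr v → φ u = φ v → u = v) ∧
      (∀ u ∈ A, ∀ v ∈ A, u ∉ R → v ∉ R → par u ∈ A → par v ∈ A →
        s(φ u, φ (par u)) = s(φ v, φ (par v)) → tr u = tr v) ∧
      (∀ x c, ∑ v ∈ E with φ v = x, w v c ≤ Bd c + e * η') ∧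
      (∀ x c, ∑ v ∈ A \ E with φ v = x, w v c ≤ Bd c + η + g) := by
  classical
  have hn : (0 : ℝ) < n0 := by exact_mod_cast hn0'
  obtain ⟨φ0, p1, p2, p3⟩ := hub_phase1 (H := H) tr E TT w e M η' Bd (fun v hv => hA v (hE hv))
    hw hBd hη' hcE (fun i c => le_trans (sum_le_sum_of_subset_of_nonneg
      (filter_subset_filter _ hE) fun v _ _ => hw v c) (htot i c)) hM (by omega)
  have hne : ∀ u, u ∉ R → par u ≠ u := fun u hu h => by
    have := hdep u hu
    rw [h] at this
    exact lt_irrefl _ this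
  have hAs : ∀ s ⊆ A \ E, ∀ c, (∑ v ∈ s, w v c) / n0 ≤ Bd c := by
    intro s hs c
    rw [div_le_iff₀ hn]
    calc ∑ v ∈ s, w v c ≤ ∑ v ∈ A, w v c :=
          sum_le_sum_of_subset_of_nonneg (hs.trans sdiff_subset) fun v _ _ => hw v c
      _ = ∑ i ∈ TT, ∑ v ∈ A with tr v = i, w v c := (sum_fiberwise_of_maps_to hA _).symm
      _ ≤ ∑ i ∈ TT, Bd c := sum_le_sum fun i _ => htot i c
      _ = #TT * Bd c := by rw [sum_const, nsmul_eq_mul]
      _ ≤ n0 * Bd c := mul_le_mul_of_nonneg_right (by exact_mod_cast hn0) (hBd c)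
      _ = Bd c * n0 := mul_comm _ _
  have main : ∀ s : Finset V, s ⊆ A \ E → ∃ φ : V → H,
      (∀ u ∈ E ∪ s, ∀ v ∈ E ∪ s, tr u = tr v → φ u = φ v → u = v) ∧
      (∀ u ∈ E ∪ s, ∀ v ∈ E ∪ s, u ∉ R → v ∉ R → par u ∈ E ∪ s → par v ∈ E ∪ s →
        s(φ u, φ (par u)) = s(φ v, φ (par v)) → tr u = tr v) ∧
      (∀ x c, ∑ v ∈ E with φ v = x, w v c ≤ Bd c + e * η') ∧
      (∀ x c, ∑ v ∈ s with φ v = x, w v c ≤ (∑ v ∈ s, w v c) / n0 + η + g) ∧
      ∑ c, ∑ x, (max (∑ v ∈ s with φ v = x, w v c - (∑ v ∈ s, w v c) / n0) 0) ^ 2 ≤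
        g * ∑ c, ∑ v ∈ s, w v c := by
    intro s
    induction s using Finset.induction_on_max_value dep with
    | empty =>
      intro _
      refine ⟨φ0, by simpa using p1, ?_, p3, ?_, by simp⟩
      · simp only [union_empty]
        intro u hu v hv huR hvR hpu hpv h
        rcases Sym2.eq_iff.1 h with ⟨h1, h2⟩ | ⟨h1, h2⟩
        · exact p2 u hu _ hpu v hv _ hpv (htr u).symm (hne u huR).symm (htr v).symm h1 h2
        · exact (p2 u hu _ hpu _ hpv v hv (htr u).symm (hne u huR).symm (htr v) h1 h2).trans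
            (htr v)
      · intro x c
        simp only [filter_empty, sum_empty, zero_div, zero_add]
        positivity
    | insert a s has hmax ih =>
      intro hsub
      have hs : s ⊆ A \ E := (subset_insert a s).trans hsub
      obtain ⟨haA, haE⟩ := mem_sdiff.1 (hsub (mem_insert_self a s))
      obtain ⟨φ, i1, i2, i3, i4, i5⟩ := ih hs
      have hP : E ∪ s ⊆ A := union_subset hE (hs.trans sdiff_subset)
      have haP : a ∉ E ∪ s := by simp [haE, has]
      have hdisj : Disjoint E s := disjoint_left.2 fun _ h1 h2 => (mem_sdiff.1 (hs h2)).2 h1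
      have hload : ∀ y, ∑ p ∈ E ∪ s with φ p = y, w p c0 ≤ 2 * Bd c0 + e * η' + η + g := by
        intro y
        rw [filter_union, sum_union (disjoint_filter_filter hdisj)]
        linarith [i3 y c0, i4 y c0, hAs s hs c0]
      obtain ⟨u0, hu0⟩ : ∃ u0, ∀ u ∈ E, u ∉ R → par u = a → u = u0 := by
        by_cases h : ∃ u ∈ E, u ∉ R ∧ par u = a
        · obtain ⟨u0, h1, h2, h3⟩ := h
          exact ⟨u0, fun u hu huR hp => hone a haA haE u hu u0 h1 huR h2 hp h3⟩
        · exact ⟨a, fun u hu huR hp => absurd ⟨u, hu, huR, hp⟩ h⟩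
      obtain ⟨N1, hN1, hN1'⟩ := hub_nbr par R A (E ∪ s) hP φ (fun v => w v c0) hc0 (φ (par a))
      obtain ⟨N2, hN2, hN2'⟩ := hub_nbr par R A (E ∪ s) hP φ (fun v => w v c0) hc0 (φ u0)
      set y : H → C → ℝ := fun x c => ∑ v ∈ s with φ v = x, w v c - (∑ v ∈ s, w v c) / n0
        with hy
      set B : Finset H := {x | ∃ c, η < y x c} with hB
      set U : Finset H := {v ∈ A | tr v = tr a}.image φ with hU
      have hBc : (#B : ℝ) ≤ g * n0 * (∑ c, Bd c) / η ^ 2 := by
        rw [le_div_iff₀ (by positivity)]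
        refine (hub_bad y η hη B fun x hx => (mem_filter.1 hx).2).trans (i5.trans ?_)
        rw [mul_assoc, mul_sum univ Bd]
        refine mul_le_mul_of_nonneg_left (sum_le_sum fun c _ => ?_) hg
        have := hAs s hs c
        rw [div_le_iff₀ hn] at this
        linarith
      have hUc : (#U : ℝ) ≤ ζ := le_trans (Nat.cast_le.2 card_image_le) (hcA (tr a))
      have hF : n0 ≤ #(U ∪ N1 ∪ N2 ∪ B)ᶜ := by
        have c1 : #(U ∪ N1 ∪ N2 ∪ B) ≤ #U + #N1 + #N2 + #B := by
          have a1 := card_union_le (U ∪ N1 ∪ N2) B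
          have a2 := card_union_le (U ∪ N1) N2
          have a3 := card_union_le U N1
          omega
        have c2 := card_add_card_compl (U ∪ N1 ∪ N2 ∪ B)
        have c3 : (#(U ∪ N1 ∪ N2 ∪ B) : ℝ) ≤ #U + #N1 + #N2 + #B := by exact_mod_cast c1
        have c4 : (#(U ∪ N1 ∪ N2 ∪ B) : ℝ) + #(U ∪ N1 ∪ N2 ∪ B)ᶜ = Fintype.card H := by
          exact_mod_cast c2
        have c5 : (n0 : ℝ) ≤ #(U ∪ N1 ∪ N2 ∪ B)ᶜ := by
          linarith [hload (φ (par a)), hload (φ u0)]
        exact_mod_cast c5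
      obtain ⟨x0, hx0, hpot⟩ := hub_pot y (w a) g n0 hn0' (hw a) (hsmall a haA haE) _ hF
      simp only [mem_compl, mem_union, not_or] at hx0
      obtain ⟨⟨⟨hxU, hxN1⟩, hxN2⟩, hxB⟩ := hx0
      set ψ : V → H := Function.update φ a x0 with hψ
      have hψa : ψ a = x0 := Function.update_self ..
      have hψP : ∀ u ∈ E ∪ s, ψ u = φ u := fun u hu =>
        Function.update_of_ne (fun h : u = a => haP (h ▸ hu)) ..
      have hmem : ∀ u ∈ E ∪ insert a s, u = a ∨ u ∈ E ∪ s := by
        intro u hu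
        simp only [mem_union, mem_insert] at hu ⊢
        tauto
      have hload' : ∀ x c, ∑ v ∈ insert a s with ψ v = x, w v c =
          ∑ v ∈ s with φ v = x, w v c + if x0 = x then w a c else 0 := by
        intro x c
        rw [sum_filter, sum_insert has, sum_filter, hψa, add_comm]
        congr 1
        exact sum_congr rfl fun v hv => by rw [hψP v (mem_union_right _ hv)]
      have hedge : ∀ u ∈ E ∪ insert a s, u ∉ R → par u ∈ E ∪ insert a s →
          (u ∈ E ∪ s ∧ par u ∈ E ∪ s ∧ s(ψ u, ψ (par u)) = s(φ u, φ (par u))) ∨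
          (tr u = tr a ∧ (s(ψ u, ψ (par u)) = s(x0, φ (par a)) ∨
            s(ψ u, ψ (par u)) = s(x0, φ u0))) := by
        intro u hu huR hpu
        rcases hmem u hu with rfl | hu'
        · rcases hmem _ hpu with h | h
          · exact absurd h (hne u huR)
          · exact Or.inr ⟨rfl, Or.inl (by rw [hψa, hψP _ h])⟩
        · rcases hmem _ hpu with h | h
          · refine Or.inr ⟨by rw [← h, htr], Or.inr ?_⟩
            rcases mem_union.1 hu' with h1 | h1
            · rw [h, hψa, hψP u hu', ← hu0 u h1 huR h, Sym2.eq_swap]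
            · have a1 := hmax u h1
              have a2 := hdep u huR
              rw [h] at a2
              omega
          · exact Or.inl ⟨hu', h, by rw [hψP u hu', hψP _ h]⟩
      refine ⟨ψ, ?_, ?_, ?_, ?_, ?_⟩
      · have key : ∀ v ∈ E ∪ s, tr v = tr a → φ v ≠ x0 := fun v hv ht h =>
          hxU (mem_image.2 ⟨v, mem_filter.2 ⟨hP hv, ht⟩, h⟩)
        intro u hu v hv ht h
        rcases hmem u hu with hua | hu' <;> rcases hmem v hv with hva | hv'
        · rw [hua, hva]
        · rw [hua, hψa, hψP v hv'] at h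
          exact absurd h.symm (key v hv' (by rw [← ht, hua]))
        · rw [hva, hψa, hψP u hu'] at h
          exact absurd h (key u hu' (by rw [ht, hva]))
        · rw [hψP u hu', hψP v hv'] at h
          exact i1 u hu' v hv' ht h
      · intro u hu v hv huR hvR hpu hpv h
        rcases hedge u hu huR hpu with ⟨a1, a2, a3⟩ | ⟨a1, a2⟩ <;>
          rcases hedge v hv hvR hpv with ⟨b1, b2, b3⟩ | ⟨b1, b2⟩
        · exact i2 u a1 v b1 huR hvR a2 b2 (by rw [← a3, ← b3, h])
        · exfalso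
          rcases b2 with b2 | b2
          · exact hN1' x0 hxN1 u a1 huR a2 (by rw [← a3, h, b2])
          · exact hN2' x0 hxN2 u a1 huR a2 (by rw [← a3, h, b2])
        · exfalso
          rcases a2 with a2 | a2
          · exact hN1' x0 hxN1 v b1 hvR b2 (by rw [← b3, ← h, a2])
          · exact hN2' x0 hxN2 v b1 hvR b2 (by rw [← b3, ← h, a2])
        · rw [a1, b1]
      · intro x c
        refine le_trans (le_of_eq ?_) (i3 x c)
        refine sum_congr (filter_congr fun v hv => ?_) fun _ _ => rfl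
        rw [hψP v (mem_union_left _ hv)]
      · intro x c
        rw [hload', sum_insert has, add_div]
        have a1 : 0 ≤ w a c / n0 := div_nonneg (hw a c) hn.le
        split_ifs with h
        · have a2 : y x0 c ≤ η := by
            by_contra a2
            exact hxB (mem_filter.2 ⟨mem_univ _, c, not_le.1 a2⟩)
          have a3 := hsmall a haA haE c
          simp only [hy, h] at a2
          linarith
        · linarith [i4 x c]
      · have e1 : ∀ x c, ∑ v ∈ insert a s with ψ v = x, w v c - (∑ v ∈ insert a s, w v c) / n0 =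
            y x c + (if x0 = x then w a c else 0) - w a c / n0 := by
          intro x c
          rw [hload', sum_insert has, add_div, hy]
          ring
        simp only [e1]
        refine hpot.trans ?_
        simp only [sum_insert has, sum_add_distrib, mul_add]
        linarith
  obtain ⟨φ, i1, i2, i3, i4, -⟩ := main (A \ E) subset_rfl
  rw [union_sdiff_of_subset hE] at i1 i2
  exact ⟨φ, i1, i2, i3, fun x c => by linarith [i4 x c, hAs _ subset_rfl c]⟩

end Pool.Agent.Lib.MP_2b1ae8_co.AT
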