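import Pool.Agent.Lib.MP_2b1ae8_co.AT.Defs2

set_option autoImplicit false

namespace Pool.Agent.Lib.MP_2b1ae8_co.AT

theorem par_zeta {D K k W x : ℕ} (hK : 2 * D ≤ K) (hD : D = 40 * W) (hk : k ≤ 20 * (W * x))
    (hx : 1 ≤ x) : (2 * D + K) * k + K * D ≤ K * D * (2 * x) := by
  have h1 : (2 * D + K) * k ≤ (2 * K) * (20 * (W * x)) := Nat.mul_le_mul (by omega) hk
  have h2 : K * D * 1 ≤ K * D * x := Nat.mul_le_mul_left _ hx
  have h3 : (2 * K) * (20 * (W * x)) = K * D * x := by rw [hD]; ring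
  have h4 : K * D * (2 * x) = K * D * x + K * D * x := by ring
  omega

theorem par_e {k g W e : ℕ} (hg : 1 ≤ g) (he : e = 80 * W + 1) (hk : k ≤ 20 * (W * (g + 1))) :
    2 * k + g ≤ g * e := by
  have h1 : W * (g + 1) ≤ W * (2 * g) := Nat.mul_le_mul_left _ (by omega)
  have h2 : g * e = 40 * (W * (2 * g)) + g := by rw [he]; ring
  omega

theorem par_theta {y n0 S Q m v Nb c : ℕ} (hn : n0 ≤ Q * m * (20 * v)) (hS : S ≤ 60 * (Q * Nb * v))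
    (hc : c = 3 * Q * Q * Nb) (hv : v = c * y) : y * n0 * S ≤ m * (20 * v) * (5 * v) ^ 2 := by
  calc y * n0 * S ≤ y * (Q * m * (20 * v)) * (60 * (Q * Nb * v)) :=
        Nat.mul_le_mul (Nat.mul_le_mul_left _ hn) hS
    _ = 400 * (m * v * v * (c * y)) := by rw [hc]; ring
    _ ≤ 500 * (m * v * v * (c * y)) := Nat.mul_le_mul_right _ (by norm_num)
    _ = _ := by rw [← hv]; ring

theorem par_main {s m m0 L B k A t : ℕ} (hs : 5 ≤ s) (hm : m = L + m0) (hL : (s + 5) * L ≤ m0)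
    (hA : A * t = s * m0 * (s + 5) * B) (ht : A * t ≤ k + A) (hk : (s + 5) * A ≤ k) :
    (s + 5) * ((s + 6) ^ 2 * m * B) ≤ (s + 28) * k := by
  have h1 : (s + 5) * m ≤ (s + 6) * m0 := by rw [hm]; nlinarith
  have h2 : (s + 5) * (A * t) ≤ (s + 6) * k := by nlinarith
  have h3 : (s + 6) ^ 4 ≤ (s + 5) ^ 2 * s * (s + 28) := by
    obtain ⟨a, rfl⟩ := Nat.exists_eq_add_of_le hs
    have : ((5 + a) + 5) ^ 2 * (5 + a) * ((5 + a) + 28) = ((5 + a) + 6) ^ 4 +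
      (14 * a ^ 3 + 299 * a ^ 2 + 1776 * a + 1859) := by ring
    omega
  refine Nat.le_of_mul_le_mul_left (c := (s + 5) ^ 2 * s) ?_ (by positivity)
  calc (s + 5) ^ 2 * s * ((s + 5) * ((s + 6) ^ 2 * m * B))
      = (s + 6) ^ 2 * (s + 5) ^ 2 * s * B * ((s + 5) * m) := by ring
    _ ≤ (s + 6) ^ 2 * (s + 5) ^ 2 * s * B * ((s + 6) * m0) := Nat.mul_le_mul_left _ h1
    _ = (s + 6) ^ 3 * ((s + 5) * (A * t)) := by rw [hA]; ring
    _ ≤ (s + 6) ^ 3 * ((s + 6) * k) := Nat.mul_le_mul_left _ h2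
    _ = (s + 6) ^ 4 * k := by ring
    _ ≤ (s + 5) ^ 2 * s * (s + 28) * k := Nat.mul_le_mul_right _ h3
    _ = _ := by ring

theorem par_w {Q L D K lam y v X m0 k A : ℕ} (hL : 1 ≤ L) (hK : K = 8 * Q * L * (D + 1) ^ 2)
    (hlam : K * lam ≤ 2 * k + K) (hy : y ≤ v) (h1 : 4 * Q * L * (D + 1) * Q * X ≤ m0)
    (h2 : Q * (D + 1) ≤ m0) (h3 : m0 * (20 * v) ≤ k + A) (hk : K + 2 * A + Q ≤ k) :
    Q * (lam + (D + 1) * (2 * ((D + 1) * lam) + y + 5 * v + y +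
      2 * (2 * L * ((D + 1) * lam + Q * (20 * v) * X))) + 1) ≤ 5 * k := by
  obtain ⟨x, hx⟩ : ∃ x, x = (D + 1) ^ 2 := ⟨_, rfl⟩
  have hx1 : 1 ≤ x := hx ▸ Nat.one_le_pow _ _ (by omega)
  have a1 : 1 * x ≤ L * x := Nat.mul_le_mul_right _ hL
  have a2 : (1 + 2 * x + 4 * (L * x)) * (Q * lam) ≤ (8 * (L * x)) * (Q * lam) :=
    Nat.mul_le_mul_right _ (by omega)
  have a3 : (8 * (L * x)) * (Q * lam) = K * lam := by rw [hK, hx]; ring
  have a4 : Q * (D + 1) * (2 * y + 5 * v) ≤ m0 * (20 * v) := Nat.mul_le_mul h2 (by omega)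
  have a5 : 4 * Q * L * (D + 1) * Q * X * (20 * v) ≤ m0 * (20 * v) := Nat.mul_le_mul_right _ h1
  have a6 : Q * (lam + (D + 1) * (2 * ((D + 1) * lam) + y + 5 * v + y +
      2 * (2 * L * ((D + 1) * lam + Q * (20 * v) * X))) + 1)
      = (1 + 2 * x + 4 * (L * x)) * (Q * lam) + Q * (D + 1) * (2 * y + 5 * v)
        + 4 * Q * L * (D + 1) * Q * X * (20 * v) + Q := by rw [hx]; ring
  omega

theorem par_nat (s : ℕ) (hs : 5 ≤ s) (lbN : ℕ → ℕ) (JN : ℕ → ℕ → ℕ → ℕ → ℕ) :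
    ∃ k0 : ℕ, ∀ k, k0 ≤ k → ∃ K D g Q L m q q' ζ lam e η η' θ Mh n0 Mk w : ℕ,
      Num k K D g Q L m q q' ζ lam e η η' θ Mh n0 Mk w (lbN K) (JN K Q L m) ∧
      (s + 5) * (L * (Q * Q) ^ L * m * q + w) ≤ (s + 33) * k := by
  obtain ⟨Q, hQ⟩ : ∃ Q, Q = s + 5 := ⟨_, rfl⟩
  obtain ⟨T, hT⟩ : ∃ T, T = (Q + 1) ^ 2 + 6 := ⟨_, rfl⟩
  obtain ⟨L, hL⟩ : ∃ L, L = (Q + 1) * T := ⟨_, rfl⟩
  have Q1 : 1 ≤ Q := by omega
  have T6 : 6 ≤ T := by omega
  have L2 : 2 ≤ L := by rw [hL]; nlinarith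
  obtain ⟨H, hH⟩ : ∃ H, H = (Q * Q) ^ (L - 2) := ⟨_, rfl⟩
  obtain ⟨G, hG⟩ : ∃ G, G = (Q * Q) ^ L := ⟨_, rfl⟩
  have H1 : 1 ≤ H := hH ▸ Nat.one_le_pow _ _ (by positivity)
  have G1 : 1 ≤ G := hG ▸ Nat.one_le_pow _ _ (by positivity)
  have GH : G = H * (Q * Q) ^ 2 := by rw [hG, hH, ← pow_add, Nat.sub_add_cancel L2]
  obtain ⟨D, hD⟩ : ∃ D, D = 40 * (Q * G * L) := ⟨_, rfl⟩
  obtain ⟨K, hK⟩ : ∃ K, K = 8 * Q * L * (D + 1) ^ 2 := ⟨_, rfl⟩
  have D1 : 0 < D := by rw [hD]; positivity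
  have KD : 4 * (D + 1) ≤ K := by
    have a1 : 1 * 1 ≤ Q * L := Nat.mul_le_mul Q1 (by omega)
    have a2 : 1 * (D + 1) ≤ (Q * L * (D + 1)) * (D + 1) :=
      Nat.mul_le_mul_right _ (Nat.mul_pos (by omega) (by omega))
    have a3 : K = 8 * ((Q * L * (D + 1)) * (D + 1)) := by rw [hK]; ring
    omega
  obtain ⟨lb, hlb⟩ : ∃ lb, lb = lbN K := ⟨_, rfl⟩
  obtain ⟨X, hX⟩ : ∃ X, X = L * L * (Q * Q) * (Q * Q) * (K * lb) := ⟨_, rfl⟩
  obtain ⟨m0, hm0⟩ : ∃ m0, m0 = Q * L + Q * K * lb + 4 * Q * L * (D + 1) * Q * X + Q * (D + 1) :=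
    ⟨_, rfl⟩
  obtain ⟨m, hm⟩ : ∃ m, m = L + m0 := ⟨_, rfl⟩
  have m01 : 1 ≤ m0 := by
    have : 0 < Q * (D + 1) := by positivity
    omega
  have hml : m - L = m0 := by omega
  obtain ⟨J, hJ⟩ : ∃ J, J = JN K Q L m := ⟨_, rfl⟩
  obtain ⟨Nb, hNb⟩ : ∃ Nb, Nb = L * G * m := ⟨_, rfl⟩
  have mNb : m ≤ Nb := by
    rw [hNb]
    exact Nat.le_mul_of_pos_left _ (by positivity)
  obtain ⟨c, hc⟩ : ∃ c, c = 3 * Q * Q * Nb := ⟨_, rfl⟩
  have c1 : 1 ≤ c := by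
    have : 0 < Nb := by omega
    rw [hc]
    exact Nat.succ_le_of_lt (by positivity)
  obtain ⟨e, he⟩ : ∃ e, e = 80 * (Q * Nb * c) + 1 := ⟨_, rfl⟩
  have e1 : 1 ≤ e := by omega
  obtain ⟨A, hA⟩ : ∃ A, A = s * m0 * Q * (T * G * (20 * (c * e))) := ⟨_, rfl⟩
  have A1 : 0 < A := by
    have : 0 < s := by omega
    rw [hA]
    positivity
  obtain ⟨Mh, hMh⟩ : ∃ Mh, Mh = 20 * (Q * Nb * (c * e)) := ⟨_, rfl⟩
  obtain ⟨C, hC⟩ : ∃ C, C = (Mh + 1) ^ (e * (Nb + 2)) * 2 ^ e := ⟨_, rfl⟩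
  refine ⟨(J + C + K) * A + Q * A + (K + 2 * A + Q), fun k hk => ?_⟩
  obtain ⟨t, ht⟩ : ∃ t, t = k / A + 1 := ⟨_, rfl⟩
  have t1 : J + C + K + 1 ≤ t := by
    have := (Nat.le_div_iff_mul_le A1).2 (show (J + C + K) * A ≤ k by omega)
    omega
  have t2 : k ≤ A * t := by
    rw [ht]
    exact (Nat.lt_mul_div_succ k A1).le
  have t3 : A * t ≤ k + A := by
    have := Nat.mul_div_le k A
    rw [ht, mul_add, mul_one]
    omega
  obtain ⟨y, hy⟩ : ∃ y, y = e * t := ⟨_, rfl⟩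
  obtain ⟨v, hv⟩ : ∃ v, v = c * y := ⟨_, rfl⟩
  have ty : t ≤ y := hy ▸ Nat.le_mul_of_pos_left _ e1
  have yv : y ≤ v := hv ▸ Nat.le_mul_of_pos_left _ c1
  obtain ⟨g, hg⟩ : ∃ g, y = g + 1 := ⟨y - 1, by omega⟩
  have At : A * t = s * m0 * Q * (T * G * (20 * v)) := by rw [hA, hv, hy]; ring
  have kb : k ≤ 20 * (Q * Nb * v) := by
    have a1 : s * T ≤ L := hL ▸ Nat.mul_le_mul_right _ (by omega)
    have a2 : s * T * m0 ≤ L * m := Nat.mul_le_mul a1 (by omega)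
    calc k ≤ A * t := t2
      _ = s * T * m0 * (20 * (Q * G * v)) := by rw [At]; ring
      _ ≤ L * m * (20 * (Q * G * v)) := Nat.mul_le_mul_right _ a2
      _ = _ := by rw [hNb]; ring
  have mv : m * v ≤ Q * Nb * v :=
    Nat.mul_le_mul_right _ (mNb.trans (Nat.le_mul_of_pos_left _ Q1))
  have Qv : Q * v ≤ Q * Nb * v := Nat.mul_le_mul_right _ (Nat.le_mul_of_pos_right _ (by omega))
  have vm : v ≤ m * v := Nat.le_mul_of_pos_left _ (by omega)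
  obtain ⟨lam, hlam⟩ : ∃ lam, lam = 2 * k / K + 1 := ⟨_, rfl⟩
  have l1 : 2 * k ≤ K * lam := by
    rw [hlam]
    exact (Nat.lt_mul_div_succ _ (by omega)).le
  have l2 : K * lam ≤ 2 * k + K := by
    have := Nat.mul_div_le (2 * k) K
    rw [hlam, mul_add, mul_one]
    omega
  have l3 : (D + 1) * lam ≤ 20 * (Q * Nb * v) := by
    have a1 : 4 * (D + 1) * lam ≤ K * lam := Nat.mul_le_mul_right _ KD
    rw [mul_assoc] at a1
    omega
  have Mt : Mh * t = 20 * (Q * Nb * v) := by rw [hMh, hv, hy]; ring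
  have cap : (Q - 5) * (H * m0) * (Q * (Q * Q) * (Q * (20 * v))) = G * (s * m0 * (20 * v)) := by
    rw [show Q - 5 = s by omega, GH]; ring
  have n1 : s * m0 * (20 * v) ≤ s * m * (20 * v) :=
    Nat.mul_le_mul_right _ (Nat.mul_le_mul_left _ (by omega))
  have n2 : m * ((Q + 1) * (20 * v)) = s * m * (20 * v) + 120 * (m * v) := by rw [hQ]; ring
  have n3 : Q * m * (20 * v) = s * m * (20 * v) + 100 * (m * v) := by rw [hQ]; ring
  have n4 : m0 * (20 * v) ≤ A * t := by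
    have : 0 < s := by omega
    rw [At, show s * m0 * Q * (T * G * (20 * v)) = (s * Q * T * G) * (m0 * (20 * v)) by ring]
    exact Nat.le_mul_of_pos_left _ (by positivity)
  refine ⟨K, D, g, Q, L, m, (Q + 1) * (20 * v), Q * (20 * v), 2 * (m * v), lam, e, 5 * v, t,
    m * (20 * v), Mh, s * m0 * (20 * v) + J, 2 * L * ((D + 1) * lam + Q * (20 * v) * X),
    lam + (D + 1) * (2 * ((D + 1) * lam) + y + 5 * v + y +
      2 * (2 * L * ((D + 1) * lam + Q * (20 * v) * X))) + 1, ?_, ?_⟩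
  · rw [← hlb, ← hJ]
    refine ⟨by omega, D1, by omega, by omega, L2, by omega, Nat.mul_pos Q1 (by omega), by omega,
      by omega, ?_, ?_, l1, ?_, ?_, ?_, ?_, ?_, ?_, ?_, ?_, ?_, ?_, ?_, ?_, ?_⟩
    · have : 0 < s * m0 * (20 * v) := Nat.mul_pos (Nat.mul_pos (by omega) m01) (by omega)
      omega
    · refine par_zeta (by omega) hD (kb.trans (le_of_eq ?_)) (by omega)
      rw [hNb]; ring
    · refine par_e (by omega) he (kb.trans (le_of_eq ?_))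
      rw [hv, hg]; ring
    · rw [← hH, hml, cap, ← hT]
      have : G * (s * m0 * (20 * v)) * L = A * t + G * (s * m0 * (20 * v)) * T := by
        rw [At, hL]; ring
      omega
    · rw [← hH, hml]
      exact le_trans (by omega) (Nat.le_mul_of_pos_left _ H1)
    · rw [← hH, ← hG, hml, cap, mul_add]
      exact Nat.add_le_add_left (Nat.le_mul_of_pos_left _ G1) _
    · rw [← hG, mul_assoc (Q * (20 * v)), ← hX]
      calc _ ≤ (40 * (Q * Nb * v)) * ((D + 1) * lam + Q * (20 * v) * X) :=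
            Nat.mul_le_mul_right _ (by omega)
        _ = _ := by rw [hNb]; ring
    · rw [Mt, mul_left_comm]
      omega
    · omega
    · omega
    · rw [← hG, ← hNb, ← hC]
      omega
    · rw [← hG, ← hNb, ← hg]
      refine par_theta (by omega) ?_ hc hv
      have : Nb * (Q * (20 * v)) = 20 * (Q * Nb * v) := by ring
      omega
    · have : m * (20 * v) = 20 * (m * v) := by ring
      rw [← hy]
      omega
    · have : (Q + 1) * (20 * v) = Q * (20 * v) + 20 * v := by ring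
      rw [← hy]
      omega
    · rw [← hy, show 2 * ((D + 1) * lam) + y + 5 * v + g + 1 = 2 * ((D + 1) * lam) + y + 5 * v + y by
        omega]
      exact Nat.lt_succ_self _
  · have a1 := par_main (B := T * G * (20 * v)) hs hm (by rw [← hQ]; omega) (hQ ▸ At) t3
      (by rw [← hQ]; omega)
    have a2 := par_w (y := y) (by omega) hK l2 yv (X := X) (m0 := m0) (by omega) (by omega)
      (n4.trans t3) (by omega)
    have a3 : L * G * m * ((Q + 1) * (20 * v)) = (s + 6) ^ 2 * m * (T * G * (20 * v)) := by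
      rw [hL, hQ]; ring
    rw [← hG, a3, mul_add (s + 5), show (s + 33) * k = (s + 28) * k + 5 * k by ring]
    exact Nat.add_le_add a1 (hQ ▸ a2)

theorem exists_num (ε : ℝ) (hε : 0 < ε) (lbN : ℕ → ℕ) (JN : ℕ → ℕ → ℕ → ℕ → ℕ) :
    ∃ k0 : ℕ, ∀ k, k0 ≤ k → ∃ K D g Q L m q q' ζ lam e η η' θ Mh n0 Mk w : ℕ,
      Num k K D g Q L m q q' ζ lam e η η' θ Mh n0 Mk w (lbN K) (JN K Q L m) ∧
      ((L * (Q * Q) ^ L * m * q + w : ℕ) : ℝ) ≤ (1 + ε) * k := by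
  obtain ⟨s0, hs0⟩ := exists_nat_ge (28 / ε)
  obtain ⟨k0, hk0⟩ := par_nat (s0 + 5) (by omega) lbN JN
  refine ⟨k0, fun k hk => ?_⟩
  obtain ⟨K, D, g, Q, L, m, q, q', ζ, lam, e, η, η', θ, Mh, n0, Mk, w, h1, h2⟩ := hk0 k hk
  refine ⟨K, D, g, Q, L, m, q, q', ζ, lam, e, η, η', θ, Mh, n0, Mk, w, h1, ?_⟩
  generalize L * (Q * Q) ^ L * m * q + w = z at h2 ⊢
  have h3 : ((s0 : ℝ) + 5 + 5) * z ≤ ((s0 : ℝ) + 5 + 33) * k := by exact_mod_cast h2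
  have h4 : (28 : ℝ) ≤ s0 * ε := (div_le_iff₀ hε).1 hs0
  have h5 : (0 : ℝ) ≤ k := Nat.cast_nonneg k
  have h6 : (0 : ℝ) < (s0 : ℝ) + 5 + 5 := by positivity
  refine le_of_mul_le_mul_left (h3.trans ?_) h6
  rw [← mul_assoc]
  exact mul_le_mul_of_nonneg_right (by nlinarith) h5

end Pool.Agent.Lib.MP_2b1ae8_co.AT
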