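import Pool.Agent.Lib.MP_2b1ae8_co.AT.Micro3
import Pool.Agent.Lib.MP_2b1ae8_co.AT.Blocks
import Pool.Agent.Lib.MP_2b1ae8_co.AT.Labels
import Pool.Agent.Lib.MP_2b1ae8_co.AT.Params
import Pool.Agent.Lib.MP_2b1ae8_co.AT.Tree

/-! Asymptotic tree packing: assembling the parts. -/

set_option autoImplicit false

namespace Pool.Agent.Lib.MP_2b1ae8_co.AT

open Finset

lemma LS.nn_sum {V I Lb : Type} [Fintype V] [DecidableEq V] [DecidableEq I] [Fintype Lb]
    [DecidableEq Lb] {K D g : ℕ} [NeZero K] {F : GF V I K D g} {X : LD Lb K} (P : LS F X) (i : I)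
    (f : Lb → ℕ) : ∑ l, P.nn i l * f l = ∑ r ∈ P.Tp with F.tr r = i, f (P.lab r) := by
  rw [← sum_fiberwise' _ P.lab f]
  simp only [LS.nn, sum_const, smul_eq_mul, filter_filter]

/-- Trees whose orders `n i` satisfy `n i + rk i ≤ k` for an injective `rk` pack into the complete
graph on `N ≥ (1 + ε) k` vertices. -/
theorem pack (ε : ℝ) (hε : 0 < ε) : ∃ k0 : ℕ, ∀ k N : ℕ, k0 ≤ k → (1 + ε) * k ≤ N →
    ∀ (I : Type) [Fintype I] [DecidableEq I] (n rk : I → ℕ), Function.Injective rk →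
      (∀ i, n i + rk i ≤ k) → ∀ T : (i : I) → SimpleGraph (Fin (n i)), (∀ i, (T i).IsTree) →
      Nonempty (Fin N) ∧ ∃ f : (i : I) → Fin (n i) → Fin N, (∀ i, Function.Injective (f i)) ∧
        ∀ i j a b c d, (T i).Adj a b → (T j).Adj c d → s(f i a, f i b) = s(f j c, f j d) →
          i = j := by
  obtain ⟨k0, h0⟩ := exists_num ε hε (fun K => Fintype.card (Lbl K))
    (fun K Q L m => JJ (Fintype.card (Lbl K)) Q L m)
  refine ⟨k0, fun k N hk hN I _ _ n rk hrk hn T hT => ?_⟩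
  obtain ⟨K, D, g, Q, L, m, q, q', ζ, lam, e, η, η', θ, Mh, n0, Mk, w, H, hε'⟩ := h0 k hk
  have : NeZero K := ⟨H.hK.ne'⟩
  have : NeZero Q := ⟨by have := H.hQ; omega⟩
  have : NeZero L := ⟨by have := H.hL; omega⟩
  have : NeZero m := ⟨by have := H.hL; have := H.hm; omega⟩
  have : NeZero q := ⟨by have := H.hq; omega⟩
  obtain ⟨F, hF, hadj⟩ := exists_GF n T hT K D g H.hK H.hD H.hg
  obtain ⟨P⟩ := exists_LS F
  have : DecidableEq (Lbl K) := Classical.decEq _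
  have hsz : ∀ i, #{v | F.tr v = i} ≤ n i := fun i => by
    rw [hF, ← card_fin (n i)]
    refine le_trans (card_le_card fun v hv => ?_) (card_image_le (f := fun a => (⟨i, a⟩ : Σ i, _)))
    obtain ⟨j, a⟩ := v
    obtain rfl : j = i := by simpa using hv
    exact mem_image_of_mem _ (mem_univ a)
  have hsz' : ∀ i, #{v | F.tr v = i} ≤ k := fun i => by
    have := hsz i
    have := hn i
    omega
  have hLa : ∀ i, #{v ∈ F.La | F.tr v = i} ≤ lam := fun i => Nat.le_of_mul_le_mul_left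
    ((F.card_La i).trans ((Nat.mul_le_mul_left _ (hsz' i)).trans H.hlam)) H.hK
  have hZ : ∀ i, #{v ∈ F.Z | F.tr v = i} ≤ ζ := fun i => Nat.le_of_mul_le_mul_left
    ((F.card_Z i).trans ((Nat.add_le_add_right (Nat.mul_le_mul_left _ (hsz' i)) _).trans H.hζ))
    (Nat.mul_pos H.hK H.hD)
  have hE : ∀ i, #{v ∈ F.E | F.tr v = i} ≤ e := fun i => Nat.le_of_mul_le_mul_left
    ((F.card_E i).trans ((Nat.add_le_add_right (Nat.mul_le_mul_left _ (hsz' i)) _).trans H.he))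
    H.hg
  obtain ⟨M⟩ := exists_MS (lblD K) P.nn n rk hrk H hn
    (fun i => (P.nn_sum i _).trans_le ((P.cnt_us i).trans (hsz i)))
    (fun i => (P.nn_sum i _).trans_le ((P.cnt_ma i).trans (Nat.mul_le_mul_left _ (hLa i))))
  have hB : Fintype.card (Blk (GQ Q) L m) = L * (Q * Q) ^ L * m := by simp [mul_assoc]
  have hM : 0 < MM Q L m := Nat.mul_pos (NeZero.pos Q) (lt_of_lt_of_le
    (Nat.mul_pos (Nat.mul_pos (NeZero.pos Q) H.hK) Fintype.card_pos) H.hlb)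
  have : NeZero (MM Q L m) := ⟨hM.ne'⟩
  have : DecidableEq (Pln (Lbl K) Q L m × Tr (GQ Q) L m) := Classical.decEq _
  obtain ⟨f, f1, f2⟩ := micro P M ζ lam e η η' θ Mh w hZ hLa hE H.hη H.hη' H.hn0 H.hM1 H.hM2 H.hM3
    (hB ▸ H.hroom) (hB ▸ H.hθ) H.hfree (by convert H.hq; simp [JJ]) H.hw
  obtain ⟨ι⟩ := Function.Embedding.nonempty_of_card_le
    (α := (Blk (GQ Q) L m × Fin q) ⊕ Fin w) (β := Fin N) (by
      rw [Fintype.card_sum, Fintype.card_prod, hB]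
      simp only [Fintype.card_fin]
      exact_mod_cast hε'.trans hN)
  refine ⟨⟨ι (Sum.inl default)⟩, fun i a => ι (f ⟨i, a⟩), fun i a b h => ?_,
    fun i j a b c d h1 h2 h => ?_⟩
  · simpa using f1 ⟨i, a⟩ ⟨i, b⟩ (by rw [hF]) (ι.injective h)
  · have h3 : s(f ⟨i, a⟩, f ⟨i, b⟩) = s(f ⟨j, c⟩, f ⟨j, d⟩) :=
      Sym2.map.injective ι.injective (by simpa using h)
    have key : ∀ i a b, (T i).Adj a b → ∃ u, u ∉ F.R ∧ F.tr u = i ∧
        s(f u, f (F.par u)) = s(f ⟨i, a⟩, f ⟨i, b⟩) := fun i a b h => by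
      rcases hadj i a b h with ⟨h1, h2⟩ | ⟨h1, h2⟩
      · exact ⟨_, h1, by rw [hF], by rw [h2]⟩
      · exact ⟨_, h1, by rw [hF], by rw [h2, Sym2.eq_swap]⟩
    obtain ⟨u, u1, rfl, u3⟩ := key i a b h1
    obtain ⟨v, v1, rfl, v3⟩ := key j c d h2
    exact f2 u v u1 v1 (u3.trans (h3.trans v3.symm))

end Pool.Agent.Lib.MP_2b1ae8_co.AT
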