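import Pool.Agent.Lib.MP_2b1ae8_co.AT.Trans
import Pool.Agent.Lib.MP_2b1ae8_co.AT.Hub

/-! Placing the cores. -/

set_option autoImplicit false
set_option linter.unusedSectionVars false

namespace Pool.Agent.Lib.MP_2b1ae8_co.AT

open Finset

variable {V I Lb Bn BB CC Sb : Type} [Fintype V] [DecidableEq V] [Fintype I] [DecidableEq I]
  [Fintype Lb] [DecidableEq Lb] [Fintype Bn] [DecidableEq Bn] [Fintype BB] [DecidableEq BB]
  [DecidableEq CC] [Fintype Sb] [DecidableEq Sb] {K D g : ℕ} [NeZero K] {F : GF V I K D g}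
  {X : LD Lb K}

/-- The number of pieces of tree `i` with label `l`. -/
def LS.nn (P : LS F X) (i : I) (l : Lb) : ℕ := #{r ∈ P.Tp | F.tr r = i ∧ P.lab r = l}

lemma LS.us0 (P : LS F X) {r : V} (hr : r ∈ P.Tp) : X.us (P.lab r) 0 = true := by
  obtain ⟨h1, h2, -⟩ := (P.mem_Tp r).1 hr
  have := (P.top_mem r h1 h2).2.2.2
  rwa [(P.top_self r hr).2] at this

lemma GF.nR (F : GF V I K D g) {v : V} (hv : v ∉ F.Z) : v ∉ F.R :=
  fun h => hv (F.E_sub (F.R_sub h))

lemma GF.nZ (F : GF V I K D g) {v : V} (hv : v ∈ F.La) : v ∉ F.Z := fun h => F.disj v h hv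

lemma GF.card_chLa (F : GF V I K D g) (i : I) :
    #{u | u ∉ F.R ∧ F.par u ∈ F.La ∧ F.tr u = i} ≤ D * #{v ∈ F.La | F.tr v = i} := by
  refine card_le_mul_card_image_of_maps_to (f := F.par) (fun u hu => ?_) D (fun v hv => ?_)
  · simp only [mem_filter, mem_univ, true_and] at hu ⊢
    exact ⟨hu.2.1, (F.tr_par u).trans hu.2.2⟩
  · refine le_trans (card_le_card fun u hu => ?_) (F.ch_La v (mem_filter.1 hv).1)
    simp only [mem_filter, mem_univ, true_and] at hu ⊢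
    exact ⟨hu.1.1, hu.2⟩

variable {m q q' n0 Mk : ℕ} (P : LS F X) (M : MS I Lb Bn BB CC Sb X P.nn m q q' n0 Mk)

open Classical in
/-- The share of the piece with top `r` in block `B`. -/
noncomputable def rho (B : BB) (r : V) : ℝ :=
  if ∃ b ∈ M.bs (M.sc (F.tr r)) (P.lab r), M.bl (M.sc (F.tr r)) (P.lab r) b 0 = B then
    1 / #(M.bs (M.sc (F.tr r)) (P.lab r)) else 0

lemma rho_nonneg (B : BB) (r : V) : 0 ≤ rho P M B r := by
  unfold rho
  split_ifs <;> positivity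

lemma rho_le (B : BB) (r : V) : rho P M B r ≤ 1 := by
  unfold rho
  split_ifs
  · have := card_pos.2 (M.bs_ne (F.tr r) (P.lab r))
    exact (div_le_one (by positivity)).2 (by exact_mod_cast this)
  · exact zero_le_one

lemma rho_tree (B : BB) (i : I) : ∑ r ∈ P.Tp with F.tr r = i, rho P M B r ≤ q' := by
  by_cases h : ∃ l, X.us l 0 = true ∧ ∃ b ∈ M.bs (M.sc i) l, M.bl (M.sc i) l b 0 = B
  · obtain ⟨l, hl, b, hb, hB⟩ := h
    have h0 : (0 : ℝ) < #(M.bs (M.sc i) l) := by exact_mod_cast card_pos.2 ⟨b, hb⟩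
    calc _ ≤ ∑ r ∈ P.Tp with F.tr r = i, if P.lab r = l then (1 : ℝ) / #(M.bs (M.sc i) l) else 0 := by
          refine sum_le_sum fun r hr => ?_
          obtain ⟨hr, rfl⟩ := mem_filter.1 hr
          replace hr := (mem_filter.1 hr).1
          unfold rho
          split_ifs with h1 h2 h2
          · rw [h2]
          · obtain ⟨b', hb', hB'⟩ := h1
            exact absurd (M.bl_inj _ _ _ _ _ _ _ hb' (P.us0 hr) hb hl (hB'.trans hB.symm)).1 h2
          · positivity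
          · rfl
      _ = P.nn i l / #(M.bs (M.sc i) l) := by
          rw [← sum_filter, filter_filter, sum_const, nsmul_eq_mul, LS.nn, mul_one_div]
      _ ≤ _ := (div_le_iff₀ h0).2 (by exact_mod_cast M.size i l)
  · rw [sum_eq_zero]
    · positivity
    · intro r hr
      obtain ⟨hr', rfl⟩ := mem_filter.1 hr
      exact if_neg fun h1 => h ⟨_, P.us0 hr', h1⟩

/-- The weights of the core vertices. -/
noncomputable def wt (z : V) : BB ⊕ Bool → ℝ
  | Sum.inl B => ∑ r ∈ P.Tp with P.hub r = z, rho P M B r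
  | Sum.inr false => 1 + #{u ∈ F.Z | u ∉ F.R ∧ F.par u = z}
  | Sum.inr true => #{u ∈ F.La | F.par u = z} + if z ∉ F.R ∧ F.par z ∈ F.La then 1 else 0

lemma wt_nonneg (z : V) (c : BB ⊕ Bool) : 0 ≤ wt P M z c := by
  rcases c with B | _ | _
  · exact sum_nonneg fun _ _ => rho_nonneg P M _ _
  · simp only [wt]; positivity
  · simp only [wt]; split_ifs <;> positivity

lemma wt_small {z : V} (hz : z ∈ F.Z) (hE : z ∉ F.E) (c : BB ⊕ Bool) :
    wt P M z c ≤ (g : ℝ) + 1 := by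
  have h : ∀ s : Finset V, (∀ u ∈ s, u ∉ F.R ∧ F.par u = z) → (#s : ℝ) ≤ g := fun s hs => by
    exact_mod_cast le_trans (card_le_card fun u hu => by simpa using hs u hu) (F.ch_small z hz hE)
  rcases c with B | _ | _
  · refine (sum_le_card_nsmul _ _ 1 fun _ _ => rho_le P M _ _).trans ?_
    rw [nsmul_eq_mul, mul_one]
    refine (h _ fun u hu => ?_).trans (by linarith)
    obtain ⟨hu', rfl⟩ := mem_filter.1 hu
    exact ⟨F.nR ((P.mem_Tp u).1 hu').1, ((P.hub_Z u hu').2.2.2.2 hE).symm⟩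
  · have := h {u ∈ F.Z | u ∉ F.R ∧ F.par u = z} fun u hu => (mem_filter.1 hu).2
    simp only [wt]
    linarith
  · have := h {u ∈ F.La | F.par u = z} fun u hu =>
      ⟨F.nR (F.nZ (mem_filter.1 hu).1), (mem_filter.1 hu).2⟩
    simp only [wt]
    split_ifs <;> linarith

lemma sum_fib_le {α β : Type} [DecidableEq β] (s t : Finset α) (A : Finset β) (f : α → β)
    (w : α → ℝ) (hw : ∀ a, 0 ≤ w a) (h : ∀ a ∈ s, f a ∈ A → a ∈ t) :
    ∑ b ∈ A, ∑ a ∈ s with f a = b, w a ≤ ∑ a ∈ t, w a := by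
  rw [sum_fiberwise_eq_sum_filter]
  exact sum_le_sum_of_subset_of_nonneg
    (fun a ha => h a (mem_filter.1 ha).1 (mem_filter.1 ha).2) fun a _ _ => hw a

lemma le_sum_fib {α β : Type} [DecidableEq β] (s t : Finset α) (A : Finset β) (f : α → β)
    (w : α → ℝ) (hw : ∀ a, 0 ≤ w a) (h : ∀ a ∈ t, a ∈ s ∧ f a ∈ A) :
    ∑ a ∈ t, w a ≤ ∑ b ∈ A, ∑ a ∈ s with f a = b, w a := by
  rw [sum_fiberwise_eq_sum_filter]
  exact sum_le_sum_of_subset_of_nonneg (fun a ha => mem_filter.2 (h a ha)) fun a _ _ => hw a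

lemma wt_tree (ζ lam : ℕ) (hZ : ∀ i, #{v ∈ F.Z | F.tr v = i} ≤ ζ)
    (hLa : ∀ i, #{v ∈ F.La | F.tr v = i} ≤ lam) (i : I) (c : BB ⊕ Bool) :
    ∑ v ∈ F.Z with F.tr v = i, wt P M v c ≤
      c.elim (fun _ => (q' : ℝ)) (fun b => if b then ((D + 1) * lam : ℕ) else (2 * ζ : ℕ)) := by
  have h1 : (#{v ∈ F.Z | F.tr v = i} : ℝ) ≤ ζ := by exact_mod_cast hZ i
  have h2 : (#{v ∈ F.La | F.tr v = i} : ℝ) ≤ lam := by exact_mod_cast hLa i
  rcases c with B | _ | _
  · refine (sum_fib_le _ _ _ _ _ (rho_nonneg P M B) fun r hr h => ?_).trans (rho_tree P M B i)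
    exact mem_filter.2 ⟨hr, (P.hub_Z r hr).2.1.symm.trans (mem_filter.1 h).2⟩
  · have := sum_fib_le {u ∈ F.Z | u ∉ F.R} {v ∈ F.Z | F.tr v = i} {v ∈ F.Z | F.tr v = i} F.par
      (fun _ => 1) (fun _ => zero_le_one) fun u hu h =>
        mem_filter.2 ⟨(mem_filter.1 hu).1, (F.tr_par u).symm.trans (mem_filter.1 h).2⟩
    simp only [filter_filter, sum_const, nsmul_eq_mul, mul_one] at this
    simp only [wt, sum_add_distrib, sum_const, nsmul_eq_mul, mul_one, Sum.elim_inr,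
      Bool.false_eq_true, if_false]
    push_cast
    linarith
  · have := sum_fib_le F.La {v ∈ F.La | F.tr v = i} {v ∈ F.Z | F.tr v = i} F.par
      (fun _ => 1) (fun _ => zero_le_one) fun u hu h =>
        mem_filter.2 ⟨hu, (F.tr_par u).symm.trans (mem_filter.1 h).2⟩
    simp only [sum_const, nsmul_eq_mul, mul_one] at this
    have h3 : (#{v ∈ {v ∈ F.Z | F.tr v = i} | v ∉ F.R ∧ F.par v ∈ F.La} : ℝ) ≤ D * lam := by
      exact_mod_cast le_trans (card_le_card fun u hu => by simp_all)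
        ((F.card_chLa i).trans (Nat.mul_le_mul_left _ (hLa i)))
    simp only [wt, sum_add_distrib, Sum.elim_inr, if_true, sum_boole]
    push_cast
    linarith

theorem place [NeZero m] [NeZero q] (ζ lam e η η' θ Mh : ℕ)
    (hZ : ∀ i, #{v ∈ F.Z | F.tr v = i} ≤ ζ) (hLa : ∀ i, #{v ∈ F.La | F.tr v = i} ≤ lam)
    (hE : ∀ i, #{v ∈ F.E | F.tr v = i} ≤ e) (hη : 0 < η) (hη' : 0 < η') (hn0 : 0 < n0)
    (hM1 : q' ≤ Mh * η') (hM2 : 2 * ζ ≤ Mh * η') (hM3 : (D + 1) * lam ≤ Mh * η')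
    (hroom : n0 + (Mh + 1) ^ (e * (Fintype.card BB + 2)) * 2 ^ e ≤ m * q)
    (hθ : (g + 1) * n0 * (Fintype.card BB * q' + 2 * ζ + (D + 1) * lam) ≤ θ * η ^ 2)
    (hfree : 9 * ζ + 2 * (e * η' + η + g + 1) + θ + n0 ≤ m * q) :
    ∃ φ : V → BB × Fin q, (∀ z, ∃ j, (φ z).1 = M.cb (M.cell (M.sc (F.tr z))) j) ∧
      (∀ u ∈ F.Z, ∀ v ∈ F.Z, F.tr u = F.tr v → φ u = φ v → u = v) ∧
      (∀ u ∈ F.Z, ∀ v ∈ F.Z, u ∉ F.R → v ∉ F.R → F.par u ∈ F.Z → F.par v ∈ F.Z →
        s(φ u, φ (F.par u)) = s(φ v, φ (F.par v)) → F.tr u = F.tr v) ∧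
      (∀ x B κ, ∑ r ∈ P.Tp with φ (P.hub r) = x ∧ X.kp (P.lab r) = κ, rho P M B r ≤
        (q' + e * η' + η + g + 1 : ℕ)) ∧
      ∀ x, #{u ∈ F.La | F.par u ∈ F.Z ∧ φ (F.par u) = x} +
        #{u ∈ F.Z | u ∉ F.R ∧ F.par u ∈ F.La ∧ φ u = x} ≤
          2 * ((D + 1) * lam) + e * η' + η + g + 1 := by
  let Bd : BB ⊕ Bool → ℝ := fun c =>
    c.elim (fun _ => (q' : ℝ)) (fun b => if b then ((D + 1) * lam : ℕ) else (2 * ζ : ℕ))
  have hBd : ∀ c, 0 ≤ Bd c := by
    rintro (B | _ | _) <;> simp only [Bd, Sum.elim_inl, Sum.elim_inr] <;> positivity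
  let cl : V → CC := fun v => M.cell (M.sc (F.tr v))
  have hcp : ∀ v, cl (F.par v) = cl v := fun v => by simp only [cl, F.tr_par]
  choose φ p1 p2 p3 p4 using fun a : CC => hub (H := Fin m × Fin q) F.tr F.par F.dep F.R
    {v ∈ F.Z | cl v = a} {v ∈ F.E | cl v = a} {i | M.cell (M.sc i) = a} (wt P M) (Sum.inr false)
    e Mh n0 ζ (g + 1) η η' Bd (fun v hv => by simpa using (mem_filter.1 hv).2)
    (filter_subset_filter _ F.E_sub) F.tr_par (fun v hv => by have := F.dep_par v hv; omega)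
    (wt_nonneg P M) hBd (by positivity) (by positivity) (by positivity)
    (fun v _ => by
      simp only [wt, add_le_add_iff_left, Nat.cast_le]
      exact card_le_card (filter_subset_filter _ (filter_subset _ _)))
    (fun i => (card_le_card (filter_subset_filter _ (filter_subset _ _))).trans (hE i))
    (fun i => by
      exact_mod_cast (card_le_card (filter_subset_filter _ (filter_subset _ _))).trans (hZ i))
    (fun v hv h u hu u' hu' => F.one_E v (mem_filter.1 hv).1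
      (fun h' => h (mem_filter.2 ⟨h', (mem_filter.1 hv).2⟩)) u (mem_filter.1 hu).1 u'
      (mem_filter.1 hu').1)
    (fun v hv h => wt_small P M (mem_filter.1 hv).1
      (fun h' => h (mem_filter.2 ⟨h', (mem_filter.1 hv).2⟩)))
    (fun i c => (sum_le_sum_of_subset_of_nonneg (filter_subset_filter _ (filter_subset _ _))
      fun v _ _ => wt_nonneg P M v c).trans (wt_tree P M ζ lam hZ hLa i c))
    (by
      rintro (B | _ | _) <;> simp only [Bd, Sum.elim_inl, Sum.elim_inr, Bool.false_eq_true,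
        if_true, if_false] <;> assumption_mod_cast)
    (M.cnt_cell a) hn0 (by simpa using hroom)
    (by
      have e1 : (g + 1 : ℝ) * n0 * (∑ c, Bd c) / η ^ 2 ≤ θ := by
        rw [div_le_iff₀ (by positivity)]
        simp only [Bd, Fintype.sum_sum_type, Sum.elim_inl, Sum.elim_inr, Fintype.sum_bool,
          sum_const, card_univ, nsmul_eq_mul, Bool.false_eq_true, if_true, if_false]
        rw [add_comm (((D + 1) * lam : ℕ) : ℝ), ← add_assoc]
        exact_mod_cast hθ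
      have e2 : (9 * ζ + 2 * (e * η' + η + g + 1) + θ + n0 : ℝ) ≤ m * q := by exact_mod_cast hfree
      simp only [Bd, Sum.elim_inr, Bool.false_eq_true, if_false, Fintype.card_prod,
        Fintype.card_fin] at e1 ⊢
      push_cast at e1 ⊢
      linarith)
  let ψ : V → BB × Fin q := fun z => (M.cb (cl z) (φ (cl z) z).1, (φ (cl z) z).2)
  have hψ : ∀ u v, ψ u = ψ v → cl u = cl v ∧ φ (cl v) u = φ (cl v) v := fun u v h => by
    obtain ⟨h1, h2⟩ := Prod.mk.inj h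
    obtain ⟨h3, h4⟩ := M.cb_inj _ _ _ _ h1
    rw [h3] at h2 h4
    exact ⟨h3, Prod.ext h4 h2⟩
  have load : ∀ (x : BB × Fin q) c (s : Finset V) (b : ℝ), 0 ≤ b →
      (∀ a y, ∑ v ∈ {v ∈ s | cl v = a} with φ a v = y, wt P M v c ≤ b) →
      ∑ v ∈ s with ψ v = x, wt P M v c ≤ b := by
    intro x c s b hb h
    rcases (s.filter (ψ · = x)).eq_empty_or_nonempty with h0 | ⟨z, hz⟩
    · rw [h0, sum_empty]
      exact hb
    · refine (sum_le_sum_of_subset_of_nonneg (fun v hv => ?_) fun v _ _ => wt_nonneg P M v c).trans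
        (h (cl z) (φ (cl z) z))
      obtain ⟨h1, h2⟩ := hψ v z ((mem_filter.1 hv).2.trans (mem_filter.1 hz).2.symm)
      exact mem_filter.2 ⟨mem_filter.2 ⟨(mem_filter.1 hv).1, h1⟩, h2⟩
  have l1 : ∀ x c, ∑ v ∈ F.E with ψ v = x, wt P M v c ≤ Bd c + e * η' := fun x c =>
    load x c _ _ (by have := hBd c; positivity) fun a y => p3 a y c
  have l2 : ∀ x c, ∑ v ∈ F.Z \ F.E with ψ v = x, wt P M v c ≤ Bd c + η + (g + 1) := fun x c =>
    load x c _ _ (by have := hBd c; positivity) fun a y => by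
      convert p4 a y c using 3
      ext v
      simp only [mem_filter, mem_sdiff]
      tauto
  refine ⟨ψ, fun z => ⟨_, rfl⟩, fun u hu v hv ht h => ?_, fun u hu v hv hu' hv' pu pv h => ?_,
    fun x B κ => ?_, fun x => ?_⟩
  · obtain ⟨h1, h2⟩ := hψ u v h
    exact p1 _ u (mem_filter.2 ⟨hu, h1⟩) v (mem_filter.2 ⟨hv, rfl⟩) ht h2
  · have h1 : cl u = cl v ∧ s(φ (cl v) u, φ (cl v) (F.par u)) =
        s(φ (cl v) v, φ (cl v) (F.par v)) := by
      rcases Sym2.eq_iff.1 h with ⟨a, b⟩ | ⟨a, b⟩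
      · obtain ⟨a1, a2⟩ := hψ _ _ a
        obtain ⟨-, b2⟩ := hψ _ _ b
        rw [hcp] at b2
        exact ⟨a1, by rw [a2, b2]⟩
      · obtain ⟨a1, a2⟩ := hψ _ _ a
        obtain ⟨-, b2⟩ := hψ _ _ b
        rw [hcp] at a1 a2
        exact ⟨a1, by rw [a2, b2, Sym2.eq_swap]⟩
    exact p2 _ u (mem_filter.2 ⟨hu, h1.1⟩) v (mem_filter.2 ⟨hv, rfl⟩) hu' hv'
      (mem_filter.2 ⟨pu, (hcp u).trans h1.1⟩) (mem_filter.2 ⟨pv, hcp v⟩) h1.2
  · have e1 := l1 x (Sum.inl B)
    have e2 := l2 x (Sum.inl B)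
    simp only [Bd, Sum.elim_inl, wt] at e1 e2
    push_cast
    cases κ
    · refine (le_sum_fib _ _ _ _ _ (rho_nonneg P M B) fun r hr => ?_).trans
        (e2.trans (by have : (0 : ℝ) ≤ e * η' := by positivity
                      linarith))
      obtain ⟨hr, h1, h2⟩ := mem_filter.1 hr
      have := P.hub_Z r hr
      exact ⟨hr, mem_filter.2 ⟨mem_sdiff.2 ⟨this.1, fun h => by simp [this.2.2.1.2 h] at h2⟩, h1⟩⟩
    · refine (le_sum_fib _ _ _ _ _ (rho_nonneg P M B) fun r hr => ?_).trans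
        (e1.trans (by have : (0 : ℝ) ≤ η + g := by positivity
                      linarith))
      obtain ⟨hr, h1, h2⟩ := mem_filter.1 hr
      exact ⟨hr, mem_filter.2 ⟨(P.hub_Z r hr).2.2.1.1 h2, h1⟩⟩
  · have e1 := l1 x (Sum.inr true)
    have e2 := l2 x (Sum.inr true)
    have e3 : ∑ v ∈ F.Z with ψ v = x, wt P M v (Sum.inr true) =
        ∑ v ∈ F.Z \ F.E with ψ v = x, wt P M v (Sum.inr true) +
        ∑ v ∈ F.E with ψ v = x, wt P M v (Sum.inr true) := by
      simp only [sum_filter, sum_sdiff F.E_sub]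
    have e4 := le_sum_fib F.La {u ∈ F.La | F.par u ∈ F.Z ∧ ψ (F.par u) = x}
      {v ∈ F.Z | ψ v = x} F.par (fun _ => 1) (fun _ => zero_le_one) fun u hu =>
        ⟨(mem_filter.1 hu).1, mem_filter.2 (mem_filter.1 hu).2⟩
    have e5 : #{u ∈ F.Z | u ∉ F.R ∧ F.par u ∈ F.La ∧ ψ u = x} =
        #{u ∈ {v ∈ F.Z | ψ v = x} | u ∉ F.R ∧ F.par u ∈ F.La} := by
      congr 1
      ext u
      simp only [mem_filter]
      tauto
    rw [e5, ← Nat.cast_le (α := ℝ)]
    simp only [Bd, Sum.elim_inr, if_true] at e1 e2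
    rw [← add_le_add_iff_left, ← e3] at e1
    simp only [wt, sum_add_distrib, sum_boole, sum_const, nsmul_eq_mul, mul_one] at e1 e2 e4
    push_cast at e1 e2 ⊢
    linarith

end Pool.Agent.Lib.MP_2b1ae8_co.AT
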