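import Pool.Agent.Lib.MP_2b1ae8_co.AT.Micro2
import Pool.Agent.Lib.MP_2b1ae8_co.AT.Late

/-! From the block structure to an edge-disjoint placement of the whole forest. -/

set_option autoImplicit false
set_option linter.unusedSectionVars false

namespace Pool.Agent.Lib.MP_2b1ae8_co.AT

open Finset

variable {V I Lb Bn BB CC Sb : Type} [Fintype V] [DecidableEq V] [Fintype I] [DecidableEq I]
  [Fintype Lb] [DecidableEq Lb] [Fintype Bn] [DecidableEq Bn] [Fintype BB] [DecidableEq BB]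
  [DecidableEq CC] [Fintype Sb] [DecidableEq Sb] {K D g : ℕ} [NeZero K] {F : GF V I K D g}
  {X : LD Lb K} {m q q' n0 Mk : ℕ}

theorem micro (P : LS F X) (M : MS I Lb Bn BB CC Sb X P.nn m q q' n0 Mk) [NeZero m] [NeZero q]
    [Nonempty Bn] (ζ lam e η η' θ Mh w : ℕ)
    (hZ : ∀ i, #{v ∈ F.Z | F.tr v = i} ≤ ζ) (hLa : ∀ i, #{v ∈ F.La | F.tr v = i} ≤ lam)
    (hE : ∀ i, #{v ∈ F.E | F.tr v = i} ≤ e) (hη : 0 < η) (hη' : 0 < η') (hn0 : 0 < n0)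
    (hM1 : q' ≤ Mh * η') (hM2 : 2 * ζ ≤ Mh * η') (hM3 : (D + 1) * lam ≤ Mh * η')
    (hroom : n0 + (Mh + 1) ^ (e * (Fintype.card BB + 2)) * 2 ^ e ≤ m * q)
    (hθ : (g + 1) * n0 * (Fintype.card BB * q' + 2 * ζ + (D + 1) * lam) ≤ θ * η ^ 2)
    (hfree : 9 * ζ + 2 * (e * η' + η + g + 1) + θ + n0 ≤ m * q)
    (hq : q' + e * η' + η + g + 1 + Fintype.card Sb ≤ q)
    (hw : lam + (D + 1) * (2 * ((D + 1) * lam) + e * η' + η + g + 1 + 2 * Mk) < w) :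
    ∃ f : V → (BB × Fin q) ⊕ Fin w, (∀ u v, F.tr u = F.tr v → f u = f v → u = v) ∧
      ∀ u v, u ∉ F.R → v ∉ F.R → s(f u, f (F.par u)) = s(f v, f (F.par v)) →
        F.tr u = F.tr v := by
  obtain ⟨φ, p1, p2, p3, p4, p5⟩ := place P M ζ lam e η η' θ Mh hZ hLa hE hη hη' hn0 hM1 hM2 hM3
    hroom hθ hfree
  obtain ⟨bn, col, c1, c2⟩ := colour P M φ _ p1 p4 hq (by omega)
  obtain ⟨δ, sh, d1, d2, d3⟩ := shifts P M
  let ψ : V → BB × Fin q := fun v => if v ∈ F.Z then φ v else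
    (M.bl (M.sc (F.tr v)) (P.lab v) (bn (F.top v)) (P.ix v),
      col (F.top v) + sh (F.tr v) (P.lab v) (bn (F.top v)) (P.ix v))
  have ψ1 : ∀ v ∈ F.Z, ψ v = φ v := fun v hv => if_pos hv
  have ψ2 : ∀ v, v ∉ F.Z → ψ v = (M.bl (M.sc (F.tr v)) (P.lab v) (bn (F.top v)) (P.ix v),
      col (F.top v) + sh (F.tr v) (P.lab v) (bn (F.top v)) (P.ix v)) := fun v hv => if_neg hv
  have hb : ∀ v, v ∉ F.Z → v ∉ F.La → bn (F.top v) ∈ M.bs (M.sc (F.tr v)) (P.lab v) := by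
    intro v h1 h2
    obtain ⟨a1, a2, a3, -⟩ := P.top_mem v h1 h2
    simpa only [a2, a3] using c1 _ a1
  have hu : ∀ v, v ∉ F.Z → v ∉ F.La → X.us (P.lab v) (P.ix v) = true :=
    fun v h1 h2 => (P.top_mem v h1 h2).2.2.2
  have hinj : ∀ u v, u ∉ F.La → v ∉ F.La → F.tr u = F.tr v → ψ u = ψ v → u = v := by
    have mixed : ∀ u v, u ∈ F.Z → v ∉ F.Z → v ∉ F.La → F.tr u = F.tr v → ψ u ≠ ψ v := by
      intro u v h1 h2 h3 ht h
      obtain ⟨j, hj⟩ := p1 u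
      rw [ψ1 u h1, ψ2 v h2] at h
      rw [h, ht] at hj
      exact M.bl_ne _ _ _ _ _ (hb v h2 h3) (hu v h2 h3) hj
    intro u v h1 h2 ht h
    by_cases a : u ∈ F.Z <;> by_cases b : v ∈ F.Z
    · exact p2 u a v b ht (by rwa [ψ1 u a, ψ1 v b] at h)
    · exact absurd h (mixed u v a b h2 ht)
    · exact absurd h.symm (mixed v u b a h1 ht.symm)
    · rw [ψ2 u a, ψ2 v b, ht, Prod.mk.injEq] at h
      obtain ⟨e1, e2, e3⟩ := M.bl_inj _ _ _ _ _ _ _ (ht ▸ hb u a h1) (hu u a h1) (hb v b h2)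
        (hu v b h2) h.1
      obtain ⟨a1, a2, a3, -⟩ := P.top_mem u a h1
      obtain ⟨b1, b2, b3, -⟩ := P.top_mem v b h2
      have e4 := h.2
      rw [e1, e2, e3, add_left_inj] at e4
      exact P.ix_inj u v a h1 b h2 (c2 _ a1 _ b1 (by rw [a2, a3, b2, b3, ht, e1, e2]) e4
        (Or.inl (by rw [a2, b2, ht]))) e3
  have cls : ∀ u, u ∉ F.R → u ∉ F.La → F.par u ∉ F.La → ∃ x y, s(ψ u, ψ (F.par u)) = s(x, y) ∧
      ((u ∈ F.Z ∧ F.par u ∈ F.Z ∧ M.kd x.1 y.1 = 0 ∧ M.kd y.1 x.1 = 0) ∨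
       (u ∈ P.Tp ∧ x = φ (P.hub u) ∧ y = (M.bl (M.sc (F.tr u)) (P.lab u) (bn u) 0, col u) ∧
          (M.kd x.1 y.1 = 2 ∨ M.kd x.1 y.1 = 3) ∧ M.kd y.1 x.1 = 4) ∨
       (∃ z ∈ ME P M, z.1 = F.tr u ∧ mkey P M z = (x.1, y.1) ∧ δ z = y.2 - x.2 ∧
          M.kd x.1 y.1 = 1 ∧ M.kd y.1 x.1 = 5)) := by
    intro u h1 h2 h3
    by_cases a : u ∈ F.Z
    · have b := (F.par_Z u a h1).resolve_right h3
      obtain ⟨j, hj⟩ := p1 u
      obtain ⟨j', hj'⟩ := p1 (F.par u)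
      rw [F.tr_par] at hj'
      refine ⟨_, _, rfl, Or.inl ⟨a, b, ?_⟩⟩
      rw [ψ1 u a, ψ1 _ b, hj, hj']
      exact ⟨M.kd_core _ _ _, M.kd_core _ _ _⟩
    by_cases b : F.par u ∈ F.Z
    · have t := (P.mem_Tp u).2 ⟨a, h2, Or.inl b⟩
      obtain ⟨t1, t2⟩ := P.top_self u t
      obtain ⟨j, hj⟩ := p1 (P.hub u)
      obtain ⟨k1, k2⟩ := M.kd_root _ _ _ j (c1 u t) (P.us0 t)
      rw [(P.hub_Z u t).2.1] at hj
      refine ⟨_, _, ?_, Or.inr (Or.inl ⟨t, rfl, rfl, ?_, ?_⟩)⟩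
      · rw [ψ1 _ b, ψ2 u a, t1, t2, d2, add_zero, (P.hub_Z u t).2.2.2.1 b, Sym2.eq_swap]
      · rw [hj, k1]
        split_ifs <;> simp
      · rw [hj, k2]
    · have t : u ∉ P.Tp := fun h => by have := ((P.mem_Tp u).1 h).2.2; tauto
      obtain ⟨i1, i2, i3, i4⟩ := P.inner u a h2 t
      have i5 : P.lab (F.par u) = P.lab u := by
        rw [← (P.top_mem _ b h3).2.2.1, i1, (P.top_mem u a h2).2.2.1]
      have i6 := hu _ b h3
      rw [i5, ← i2] at i6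
      rw [← i2] at i3 i4
      obtain ⟨o1, o2, o3, o4⟩ := X.ev_oo _ _ (hu u a h2) i6 i4
      refine ⟨(M.bl (M.sc (F.tr u)) (P.lab u) (bn (F.top u)) (X.ev (P.lab u) (P.ix u)),
          col (F.top u) + sh (F.tr u) (P.lab u) (bn (F.top u)) (X.ev (P.lab u) (P.ix u))),
        (M.bl (M.sc (F.tr u)) (P.lab u) (bn (F.top u)) (X.oo (P.lab u) (P.ix u)),
          col (F.top u) + sh (F.tr u) (P.lab u) (bn (F.top u)) (X.oo (P.lab u) (P.ix u))), ?_,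
        Or.inr (Or.inr ⟨(F.tr u, P.lab u, bn (F.top u), P.ix u), ?_, rfl, rfl, ?_,
          M.kd_in _ _ _ _ _ (hb u a h2) o1 o2 o3 o4⟩)⟩
      · rw [ψ2 u a, ψ2 _ b, F.tr_par, i5, i1, ← i2]
        unfold LD.ev LD.oo
        split_ifs
        · exact Sym2.eq_swap
        · rfl
      · simp only [ME, mem_filter, mem_univ, true_and]
        exact ⟨hb u a h2, (lt_of_le_of_lt (Fin.zero_le _) i3).ne', hu u a h2, i6, i4⟩
      · rw [← d3 _ _ _ _ i3, add_sub_add_left_eq_sub]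
  have mark : ∀ (y : BB × Fin q) (s : Finset V) (f : V → V), Set.InjOn f s →
      (∀ u ∈ s, f u ∉ F.Z ∧ f u ∉ F.La ∧ (F.par (f u) ∈ F.La ∨ ∃ u' ∈ F.La, F.par u' = f u) ∧
        ψ (f u) = y) → #s ≤ Mk := by
    intro y s f hf hs
    refine le_trans (card_le_card_of_injOn
      (fun u => (F.tr (f u), P.lab (f u), bn (F.top (f u)), P.ix (f u))) (fun u h => ?_)
      (fun u h v h' e => ?_)) (M.cnt_ma y.1)
    · obtain ⟨a, b, c, d⟩ := hs u h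
      simp only [coe_filter, mem_univ, true_and, Set.mem_ofPred_eq]
      exact ⟨hb _ a b, hu _ a b, P.mark _ a b c, by rw [← d, ψ2 _ a]⟩
    · exact hf h h' (hinj _ _ (hs u h).2.1 (hs v h').2.1 (Prod.mk.inj e).1
        ((hs u h).2.2.2.trans (hs v h').2.2.2.symm))
  refine late F ψ lam _ w hinj (fun u v h1 h2 h3 h4 h5 h6 h => ?_) hLa (fun y => ?_) hw
  · obtain ⟨x, y, e1, k1⟩ := cls u h1 h3 h4
    obtain ⟨x', y', e2, k2⟩ := cls v h2 h5 h6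
    have e3 := Sym2.eq_iff.1 (e1.symm.trans (h.trans e2))
    have e6 : (M.kd x.1 y.1 = M.kd x'.1 y'.1 ∧ M.kd y.1 x.1 = M.kd y'.1 x'.1) ∨
        (M.kd x.1 y.1 = M.kd y'.1 x'.1 ∧ M.kd y.1 x.1 = M.kd x'.1 y'.1) :=
      e3.imp (by rintro ⟨rfl, rfl⟩; exact ⟨rfl, rfl⟩) (by rintro ⟨rfl, rfl⟩; exact ⟨rfl, rfl⟩)
    rcases k1 with ⟨a1, a2, a3, a4⟩ | ⟨a1, a2, a3, a4, a5⟩ | ⟨z, a1, a2, a3, a4, a5, a6⟩ <;>
      rcases k2 with ⟨b1, b2, b3, b4⟩ | ⟨b1, b2, b3, b4, b5⟩ | ⟨z', b1, b2, b3, b4, b5, b6⟩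
    · exact p3 u a1 v b1 h1 h2 a2 b2 (by rwa [ψ1 _ a1, ψ1 _ a2, ψ1 _ b1, ψ1 _ b2] at h)
    any_goals (exfalso; omega)
    · rcases e3 with ⟨rfl, rfl⟩ | ⟨rfl, rfl⟩
      · obtain ⟨e4, e5⟩ := Prod.mk.inj (a3.symm.trans b3)
        rw [c2 u a1 v b1 e4 e5 (Or.inr (a2.symm.trans b2))]
      · omega
    · rcases e3 with ⟨rfl, rfl⟩ | ⟨rfl, rfl⟩
      · rw [← a2, ← b2, d1 z a1 z' b1 (a3.trans b3.symm) (a4.trans b4.symm)]
      · omega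
  · have e1 := mark y {u ∈ F.La | F.par u ∉ F.Z ∧ ψ (F.par u) = y} F.par
      (fun u h v h' e => F.one_La u (mem_filter.1 h).1 v (mem_filter.1 h').1 e (mem_filter.1 h).2.1)
      (fun u h => ⟨(mem_filter.1 h).2.1, F.par_La u (mem_filter.1 h).1,
        Or.inr ⟨u, (mem_filter.1 h).1, rfl⟩, (mem_filter.1 h).2.2⟩)
    have e2 := mark y {u | u ∉ F.Z ∧ F.par u ∈ F.La ∧ ψ u = y} id (Set.injOn_id _)
      (fun u h => ⟨(mem_filter.1 h).2.1, fun h' => F.par_La u h' (mem_filter.1 h).2.2.1,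
        Or.inl (mem_filter.1 h).2.2.1, (mem_filter.1 h).2.2.2⟩)
    have e3 := p5 y
    have e4 : #{u ∈ F.La | ψ (F.par u) = y} ≤ #{u ∈ F.La | F.par u ∈ F.Z ∧ φ (F.par u) = y} +
        #{u ∈ F.La | F.par u ∉ F.Z ∧ ψ (F.par u) = y} := by
      refine le_trans (card_le_card fun u h => ?_) (card_union_le _ _)
      by_cases a : F.par u ∈ F.Z
      · simpa [a, ψ1 _ a] using h
      · simpa [a] using h
    have e5 : #{u | u ∉ F.R ∧ F.par u ∈ F.La ∧ ψ u = y} ≤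
        #{u ∈ F.Z | u ∉ F.R ∧ F.par u ∈ F.La ∧ φ u = y} +
        #{u | u ∉ F.Z ∧ F.par u ∈ F.La ∧ ψ u = y} := by
      refine le_trans (card_le_card fun u h => ?_) (card_union_le _ _)
      by_cases a : u ∈ F.Z
      · simpa [a, ψ1 _ a] using h
      · simpa [a, F.nR a] using h
    omega

end Pool.Agent.Lib.MP_2b1ae8_co.AT
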