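import Pool.Agent.Lib.MP_2b1ae8_co.AT.Base
import Pool.Agent.Lib.MP_2b1ae8_co.AT.Defs2

/-! Translations of blocks and small numerical lemmas. -/

set_option autoImplicit false
set_option linter.unusedSectionVars false

namespace Pool.Agent.Lib.MP_2b1ae8_co.AT

open Finset

lemma LD.ev_oo {Lb : Type} {K : ℕ} [NeZero K] (X : LD Lb K) (l : Lb) (j : Fin K)
    (hj : X.us l j = true) (hj' : X.us l (X.cp l j) = true) (ho : X.od l j ≠ X.od l (X.cp l j)) :
    X.us l (X.ev l j) = true ∧ X.us l (X.oo l j) = true ∧ X.od l (X.ev l j) = false ∧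
      X.od l (X.oo l j) = true := by
  unfold LD.ev LD.oo
  cases h : X.od l j <;> simp_all

abbrev Tr (G : Type) (L m : ℕ) := (Fin L → Fin L → G) × (Fin L → Fin m)

variable {G : Type} [Fintype G] [DecidableEq G] [AddCommGroup G] {L m : ℕ} [NeZero m]

/-- The translation applied to the blocks of cluster `Y`. -/
def tY (Y : Fin L) : Tr G L m →+ (Fin L → G) × Fin m where
  toFun p := (fun Y' => if Y = Y' then p.1 Y Y else p.1 Y Y' - p.1 Y' Y, p.2 Y)
  map_zero' := by ext Y' <;> simp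
  map_add' p p' := by
    refine Prod.ext (funext fun Y' => ?_) rfl
    simp only [Prod.fst_add, Pi.add_apply]
    split_ifs <;> abel

lemma tY_anti (p : Tr G L m) {Y Y' : Fin L} (h : Y ≠ Y') :
    (tY Y p).1 Y' + (tY Y' p).1 Y = 0 := by
  simp [tY, h, h.symm]

lemma tY_surj (Y : Fin L) (a : (Fin L → G) × Fin m) : ∃ p : Tr G L m, tY Y p = a := by
  refine ⟨(fun Y1 Y2 => if Y1 = Y then a.1 Y2 else 0, fun _ => a.2), Prod.ext ?_ rfl⟩
  funext Y'
  by_cases h : Y = Y'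
  · simp [tY, h]
  · simp [tY, h, Ne.symm h]

/-- Pairs of translations compatible with the invariant. -/
def SP (G : Type) [Fintype G] [DecidableEq G] [AddCommGroup G] {L : ℕ} (m : ℕ) (Y Y' : Fin L) :
    Finset (((Fin L → G) × Fin m) × ((Fin L → G) × Fin m)) :=
  {x | x.1.1 Y' + x.2.1 Y = 0}

lemma tY_surj2 {Y Y' : Fin L} (h : Y ≠ Y') :
    ∀ a ∈ SP G m Y Y', ∃ p : Tr G L m, ((tY Y).prod (tY Y')) p = a := by
  rintro ⟨a, a'⟩ ha
  have ha : a.1 Y' + a'.1 Y = 0 := by simpa [SP] using ha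
  refine ⟨(fun Y1 Y2 => if Y1 = Y then a.1 Y2 else if Y1 = Y' ∧ Y2 ≠ Y then a'.1 Y2 else 0,
    fun Y1 => if Y1 = Y then a.2 else a'.2), Prod.ext (Prod.ext ?_ ?_) (Prod.ext ?_ ?_)⟩
  · funext Y2
    by_cases h2 : Y = Y2
    · simp [tY, h2]
    · simp [tY, h2, Ne.symm h2]
  · simp [tY]
  · funext Y2
    by_cases h2 : Y' = Y2
    · subst h2
      simp [tY, h.symm]
    · by_cases h3 : Y2 = Y
      · subst h3
        simp [tY, h.symm, neg_eq_of_add_eq_zero_right ha]
      · simp [tY, h2, Ne.symm h2, h3, h.symm]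
  · simp [tY, h.symm]

lemma card_SP (Y Y' : Fin L) :
    (Fintype.card G ^ L * m) * (Fintype.card G ^ L * m) ≤ #(SP G m Y Y') * Fintype.card G := by
  have : (Fintype.card G ^ L * m) * (Fintype.card G ^ L * m) =
      #(univ : Finset (((Fin L → G) × Fin m) × ((Fin L → G) × Fin m))) := by simp
  rw [this, ← card_univ, ← card_product]
  refine card_le_card_of_injOn
    (fun x => ((x.1, (Function.update x.2.1 Y (-x.1.1 Y'), x.2.2)), x.2.1 Y))
    (fun x _ => by simp [SP]) ?_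
  rintro ⟨a, b, j⟩ - ⟨a', b', j'⟩ - h
  simp only [Prod.mk.injEq] at h
  obtain ⟨⟨rfl, h1, rfl⟩, h2⟩ := h
  have : b = b' := by
    funext y
    by_cases hy : y = Y
    · rw [hy, h2]
    · simpa [hy] using congrFun h1 y
  rw [this]

/-- Translate a block. -/
def act (p : Tr G L m) (B : Blk G L m) : Blk G L m := (B.1, B.2 + tY B.1 p)

lemma act_inj (p : Tr G L m) {B B' : Blk G L m} (h : act p B = act p B') : B = B' := by
  obtain ⟨Y, b⟩ := B
  obtain ⟨Y', b'⟩ := B'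
  simp only [act, Prod.mk.injEq] at h
  obtain ⟨rfl, h⟩ := h
  rw [add_right_cancel h]

/-- The invariant of a pair of blocks. -/
def inv (B B' : Blk G L m) : G := B.2.1 B'.1 + B'.2.1 B.1

lemma inv_comm (B B' : Blk G L m) : inv B B' = inv B' B := add_comm _ _

lemma inv_act (p : Tr G L m) {B B' : Blk G L m} (h : B.1 ≠ B'.1) :
    inv (act p B) (act p B') = inv B B' := by
  have := tY_anti p h
  simp only [inv, act, Prod.fst_add, Pi.add_apply]
  rw [add_add_add_comm, this, add_zero]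

lemma inv_cell (p : Tr G L m) (Z : Fin L) (j : Fin m) {B : Blk G L m} (h : Z ≠ B.1) :
    inv (Z, (tY Z p).1, j) (act p B) = B.2.1 Z := by
  have := tY_anti p h
  simp only [inv, act, Prod.fst_add, Pi.add_apply]
  rw [add_left_comm, this, add_zero]

open Classical in
/-- The kind of an ordered pair of blocks. -/
noncomputable def kind (S : Fin L → Fin L → Bool ⊕ Fin L → Finset G) (B B' : Blk G L m) : ℕ :=
  if B.1 = B'.1 then 0 else if inv B B' ∈ S B.1 B'.1 (Sum.inl true) then 2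
  else if inv B B' ∈ S B.1 B'.1 (Sum.inl false) then 3
  else if ∃ Z, inv B B' ∈ S B.1 B'.1 (Sum.inr Z) then 1
  else if ∃ k, inv B B' ∈ S B'.1 B.1 (Sum.inl k) then 4 else 5

lemma kind_eq (S : Fin L → Fin L → Bool ⊕ Fin L → Finset G)
    (h1 : ∀ Y Y' p p' x, x ∈ S Y Y' p → x ∈ S Y Y' p' → p = p')
    (h2 : ∀ Y Y' p p' x, Y ≠ Y' → x ∈ S Y Y' p → x ∉ S Y' Y p') {B B' : Blk G L m}
    (h : B.1 ≠ B'.1) (p : Bool ⊕ Fin L) (hp : inv B B' ∈ S B.1 B'.1 p) :
    kind S B B' = p.elim (fun k => if k then 2 else 3) (fun _ => 1) ∧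
      kind S B' B = p.elim (fun _ => 4) (fun _ => 5) := by
  have e1 : ∀ p', inv B B' ∈ S B.1 B'.1 p' ↔ p = p' :=
    fun p' => ⟨h1 _ _ _ _ _ hp, fun e => e ▸ hp⟩
  have e2 : ∀ p', inv B B' ∈ S B'.1 B.1 p' ↔ False :=
    fun p' => ⟨h2 _ _ _ _ _ h hp, False.elim⟩
  unfold kind
  rw [inv_comm B' B]
  simp only [e1, e2, if_neg h, if_neg h.symm]
  rcases p with (_ | _) | Z <;> simp

lemma exists_type (Q s a b c : ℕ) (h : a + b + c ≤ s) (hQ : 5 ≤ Q) :
    ∃ x y z, x + y + z + 3 = Q ∧ (Q - 5) * a ≤ x * s ∧ (Q - 5) * b ≤ y * s ∧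
      (Q - 5) * c ≤ z * s := by
  obtain ⟨P, rfl⟩ : ∃ P, Q = P + 5 := ⟨Q - 5, by omega⟩
  rw [Nat.add_sub_cancel]
  rcases Nat.eq_zero_or_pos s with rfl | hs
  · obtain rfl : a = 0 := by omega
    obtain rfl : b = 0 := by omega
    obtain rfl : c = 0 := by omega
    exact ⟨1, 1, P, by omega, by simp, by simp, by simp⟩
  have a1 := Nat.div_mul_le_self (P * a) s
  have a2 := Nat.lt_div_mul_add (a := P * a) hs
  have b1 := Nat.div_mul_le_self (P * b) s
  have b2 := Nat.lt_div_mul_add (a := P * b) hs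
  have h1 := Nat.mul_le_mul_left P h
  generalize P * a / s = x at *
  generalize P * b / s = y at *
  have : x + y ≤ P := Nat.le_of_mul_le_mul_right (c := s) (by nlinarith) hs
  obtain ⟨z, rfl⟩ := Nat.exists_eq_add_of_le this
  exact ⟨x + 1, y + 1, z, by omega, by nlinarith, by nlinarith, by nlinarith⟩

lemma plan_num {Lb : Type} (s : Finset Lb) (nn u : Lb → ℕ) (P x sz d m' A r : ℕ) (hP : 0 < P)
    (hA : 0 < A) (hr : d * A ≤ r) (h1 : P * ∑ l ∈ s, nn l * u l ≤ x * sz) (h2 : sz ≤ P * m' * A) :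
    d * ∑ l ∈ s, nn l / r * u l ≤ x * m' := by
  have e1 : (∑ l ∈ s, nn l / r * u l) * r ≤ ∑ l ∈ s, nn l * u l := by
    rw [sum_mul]
    refine sum_le_sum fun l _ => ?_
    rw [mul_right_comm]
    exact Nat.mul_le_mul_right _ (Nat.div_mul_le_self _ _)
  generalize ∑ l ∈ s, nn l / r * u l = t at *
  refine Nat.le_of_mul_le_mul_right (c := P * A) ?_ (Nat.mul_pos hP hA)
  calc d * t * (P * A) = P * (t * (d * A)) := by ring
    _ ≤ P * (t * r) := by gcongr
    _ ≤ x * sz := (Nat.mul_le_mul_left _ e1).trans h1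
    _ ≤ x * (P * m' * A) := Nat.mul_le_mul_left _ h2
    _ = _ := by ring

end Pool.Agent.Lib.MP_2b1ae8_co.AT
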