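import Pool.Agent.Lib.MP_2b1ae8_co.AT.Defs

/-! Abstract rooted forests: recursion from the leaves, telescoping, cut vertices at a scale. -/

set_option autoImplicit false

namespace Pool.Agent.Lib.MP_2b1ae8_co.AT

open Finset

/-- Recursion along a well-founded relation. -/
theorem tr_rec {V α : Type} [Inhabited α] {r : V → V → Prop} (hr : WellFounded r)
    (G : V → (V → α) → α) (hG : ∀ v s s', (∀ c, r c v → s c = s' c) → G v s = G v s') :
    ∃ S : V → α, ∀ v, S v = G v S := by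
  classical
  refine ⟨hr.fix fun v ih => G v fun c => if h : r c v then ih c h else default, fun v => ?_⟩
  rw [hr.fix_eq]
  exact hG _ _ _ fun c hc => by rw [dif_pos hc]

/-- An abstract rooted forest with one root per tree. -/
structure Fo (V I : Type) where
  tr : V → I
  R : Finset V
  par : V → V
  dep : V → ℕ
  rho : V → V
  tr_par : ∀ v, tr (par v) = tr v
  dep_par : ∀ v, v ∉ R → dep (par v) + 1 = dep v
  tr_rho : ∀ v, tr (rho v) = tr v
  rho_R : ∀ v, rho v ∈ R
  uniq : ∀ r ∈ R, ∀ v, tr v = tr r → rho v = r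

namespace Fo

variable {V I : Type} [Fintype V] [DecidableEq V] (F : Fo V I)

/-- The children. -/
def ch (v : V) : Finset V := {u | u ∉ F.R ∧ F.par u = v}

theorem mem_ch {u v : V} : u ∈ F.ch v ↔ u ∉ F.R ∧ F.par u = v := by simp [ch]

theorem wf_ch : WellFounded fun c v => c ∈ F.ch v := by
  refine Subrelation.wf (r := InvImage (· < ·) fun v => univ.sup F.dep - F.dep v) ?_
    (InvImage.wf _ wellFounded_lt)
  intro c v h
  obtain ⟨h1, rfl⟩ := F.mem_ch.1 h
  have := F.dep_par c h1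
  have : F.dep c ≤ univ.sup F.dep := le_sup (mem_univ c)
  simp only [InvImage]
  omega

omit [Fintype V] [DecidableEq V] in
theorem wf_par : WellFounded fun p v => v ∉ F.R ∧ p = F.par v := by
  refine Subrelation.wf (r := InvImage (· < ·) F.dep) ?_ (InvImage.wf _ wellFounded_lt)
  rintro p v ⟨h1, rfl⟩
  have := F.dep_par v h1
  simp only [InvImage]
  omega

theorem ind {P : V → Prop} (h : ∀ v, (∀ c ∈ F.ch v, P c) → P v) (v : V) : P v :=
  F.wf_ch.induction v h

theorem exists_sum (P : V → ℕ) : ∃ S : V → ℕ, ∀ v, S v = P v + ∑ c ∈ F.ch v, S c :=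
  tr_rec F.wf_ch (fun v s => P v + ∑ c ∈ F.ch v, s c) fun v _ _ h => by
    rw [sum_congr rfl h]

/-- Telescoping, lower bound for the top value. -/
theorem tele (X : Finset V) (t : V) (P S : V → ℕ)
    (hS : ∀ u ∈ X, P u + ∑ c ∈ F.ch u, S c ≤ S u)
    (hX : ∀ c ∈ X, c ≠ t → c ∉ F.R ∧ F.par c ∈ X) : ∑ u ∈ X, P u ≤ S t := by
  have h1 : ∑ c ∈ X.erase t, S c ≤ ∑ u ∈ X, ∑ c ∈ F.ch u, S c := by
    rw [← sum_fiberwise_of_maps_to (s := X.erase t) (t := X) (g := F.par)
      (fun c hc => (hX c (mem_of_mem_erase hc) (ne_of_mem_erase hc)).2)]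
    refine sum_le_sum fun u _ => sum_le_sum_of_subset fun c hc => ?_
    rw [mem_filter, mem_erase] at hc
    exact F.mem_ch.2 ⟨(hX c hc.1.2 hc.1.1).1, hc.2⟩
  have h2 : ∑ u ∈ X, S u ≤ S t + ∑ c ∈ X.erase t, S c := by
    by_cases ht : t ∈ X
    · rw [add_sum_erase _ _ ht]
    · rw [erase_eq_of_notMem ht]; omega
  have h3 := sum_le_sum hS
  rw [sum_add_distrib] at h3
  omega

variable [DecidableEq I]

/-- The vertices of a tree. -/
def tree (i : I) : Finset V := {v | F.tr v = i}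

omit [DecidableEq V] in
theorem mem_tree {i : I} {v : V} : v ∈ F.tree i ↔ F.tr v = i := by simp [tree]

theorem sum_ch_le (v : V) (S : V → ℕ) :
    ∑ u ∈ F.tree (F.tr v), ∑ c ∈ F.ch u, S c ≤ ∑ c ∈ (F.tree (F.tr v)).erase (F.rho v), S c := by
  rw [← sum_fiberwise_of_maps_to (s := (F.tree (F.tr v)).erase (F.rho v)) (t := F.tree (F.tr v))
    (g := F.par) (fun c hc => F.mem_tree.2 ((F.tr_par c).trans (F.mem_tree.1 (mem_of_mem_erase hc))))]
  refine sum_le_sum fun u hu => sum_le_sum_of_subset fun c hc => ?_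
  obtain ⟨h1, h2⟩ := F.mem_ch.1 hc
  rw [mem_filter, mem_erase]
  refine ⟨⟨fun h => h1 (h ▸ F.rho_R v), F.mem_tree.2 ?_⟩, h2⟩
  rw [← F.tr_par c, h2, F.mem_tree.1 hu]

theorem root_le {f : V → ℕ} (hf : ∀ v, f v = 1 + ∑ c ∈ F.ch v, f c) (v : V) :
    f (F.rho v) ≤ #(F.tree (F.tr v)) := by
  have h1 := F.sum_ch_le v f
  have h2 : ∑ u ∈ F.tree (F.tr v), f u = f (F.rho v) + ∑ c ∈ (F.tree (F.tr v)).erase (F.rho v), f c :=
    (add_sum_erase _ _ (F.mem_tree.2 (F.tr_rho v))).symm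
  have h3 : ∑ u ∈ F.tree (F.tr v), f u =
      #(F.tree (F.tr v)) + ∑ u ∈ F.tree (F.tr v), ∑ c ∈ F.ch u, f c := by
    rw [sum_congr rfl fun u _ => hf u, sum_add_distrib]; simp
  omega

theorem le_root (P S : V → ℕ) (hS : ∀ u, S u = P u + ∑ c ∈ F.ch u, S c) (v : V) :
    ∑ u ∈ F.tree (F.tr v), P u ≤ S (F.rho v) :=
  F.tele _ _ P S (fun u _ => (hS u).ge) fun c hc hne =>
    ⟨fun h => hne (F.uniq c h v (F.mem_tree.1 hc).symm).symm,
      F.mem_tree.2 ((F.tr_par c).trans (F.mem_tree.1 hc))⟩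

theorem sum_card_ch (v : V) : ∑ u ∈ F.tree (F.tr v), #(F.ch u) ≤ #(F.tree (F.tr v)) := by
  have := F.sum_ch_le v fun _ => 1
  simp only [sum_const, smul_eq_mul, mul_one] at this
  exact this.trans card_erase_le

omit [DecidableEq I]

section Size

variable {f : V → ℕ} (hf : ∀ v, f v = 1 + ∑ c ∈ F.ch v, f c)

/-- Cut vertices at scale `K`. -/
def Cu (f : V → ℕ) (K : ℕ) (v : V) : Prop := K ≤ f v ∧ ∀ c ∈ F.ch v, f c / K ≠ f v / K

include hf

theorem f_split {v c : V} (hc : c ∈ F.ch v) : f v = 1 + f c + ∑ u ∈ (F.ch v).erase c, f u := by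
  rw [hf v, ← add_sum_erase _ _ hc, add_assoc]

theorem f_lt {v c : V} (hc : c ∈ F.ch v) : f c < f v := by
  have := F.f_split hf hc; omega

theorem card_le_sum (s : Finset V) : #s ≤ ∑ u ∈ s, f u := by
  rw [card_eq_sum_ones]
  exact sum_le_sum fun u _ => by rw [hf u]; omega

theorem not_Cu {K : ℕ} (hK : 0 < K) {v : V} (h : ¬F.Cu f K v) :
    #(F.ch v) ≤ K ∧ ∀ c ∈ F.ch v, ∀ c' ∈ F.ch v, K ≤ f c → K ≤ f c' → c = c' := by
  by_cases hv : K ≤ f v
  · have : ∃ c ∈ F.ch v, f c / K = f v / K := by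
      by_contra hn
      exact h ⟨hv, fun c hc e => hn ⟨c, hc, e⟩⟩
    obtain ⟨c0, h0, e⟩ := this
    have h1 := F.f_split hf h0
    have h2 : f v < f c0 + K := by
      have a1 := Nat.div_add_mod (f v) K
      have a2 := Nat.div_add_mod (f c0) K
      have a3 := Nat.mod_lt (f v) hK
      rw [e] at a2
      omega
    have h3 : ∀ c ∈ F.ch v, K ≤ f c → c = c0 := by
      intro c hc hk
      by_contra hne
      have := single_le_sum (f := f) (fun _ _ => Nat.zero_le _) (mem_erase.2 ⟨hne, hc⟩)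
      omega
    refine ⟨?_, fun c hc c' hc' k k' => (h3 c hc k).trans (h3 c' hc' k').symm⟩
    have := F.card_le_sum hf ((F.ch v).erase c0)
    have := card_erase_add_one h0
    omega
  · refine ⟨?_, fun c hc _ _ k _ => ?_⟩
    · have := F.card_le_sum hf (F.ch v)
      have := hf v
      omega
    · have := F.f_lt hf hc
      omega

open Classical in
theorem count_Cu {K : ℕ} (hK : 0 < K) {N : V → ℕ}
    (hN : ∀ v, N v = (if F.Cu f K v then 1 else 0) + ∑ c ∈ F.ch v, N c) (v : V) :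
    N v + (if K ≤ f v then 1 else 0) ≤ 2 * (f v / K) := by
  induction v using F.ind with
  | h v ih =>
  have h1 := sum_le_sum ih
  rw [sum_add_distrib, ← mul_sum, ← card_filter] at h1
  have h2 : ∑ c ∈ F.ch v, f c / K ≤ f v / K := by
    rw [Nat.le_div_iff_mul_le hK, sum_mul, hf v]
    exact le_add_left (sum_le_sum fun c _ => Nat.div_mul_le_self _ _)
  have h3 : ∑ c ∈ F.ch v, f c / K = ∑ c ∈ {c ∈ F.ch v | K ≤ f c}, f c / K := by
    rw [sum_filter]
    refine sum_congr rfl fun c _ => ?_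
    split_ifs with h
    · rfl
    · exact Nat.div_eq_of_lt (by omega)
  rw [hN v]
  by_cases hv : K ≤ f v
  · have h4 : 1 ≤ f v / K := (Nat.le_div_iff_mul_le hK).2 (by omega)
    rw [if_pos hv]
    by_cases hc : F.Cu f K v
    · rw [if_pos hc]
      by_cases h5 : #{c ∈ F.ch v | K ≤ f c} ≤ 1
      · have : ∑ c ∈ F.ch v, f c / K ≠ f v / K := by
          rw [h3]
          have : Nonempty V := ⟨v⟩
          rcases (card_le_one_iff_subset_singleton.1 h5) with ⟨c, hc'⟩
          rcases subset_singleton_iff.1 hc' with e | e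
          · rw [e, sum_empty]; omega
          · rw [e, sum_singleton]
            exact hc.2 c (mem_filter.1 (e ▸ mem_singleton_self c)).1
        omega
      · omega
    · rw [if_neg hc]
      have : ∃ c ∈ F.ch v, f c / K = f v / K := by
        by_contra hn
        exact hc ⟨hv, fun c hc e => hn ⟨c, hc, e⟩⟩
      obtain ⟨c0, h0, e⟩ := this
      have : 0 < #{c ∈ F.ch v | K ≤ f c} := card_pos.2 ⟨c0, mem_filter.2 ⟨h0, by
        have := (Nat.le_div_iff_mul_le hK).1 (e ▸ h4)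
        omega⟩⟩
      omega
  · rw [if_neg hv, if_neg fun h => hv h.1]
    have : f v / K = 0 := Nat.div_eq_of_lt (by omega)
    omega

open Classical in
theorem root_Cu [DecidableEq I] {K : ℕ} (hK : 0 < K) {N : V → ℕ}
    (hN : ∀ v, N v = (if F.Cu f K v then 1 else 0) + ∑ c ∈ F.ch v, N c) (v : V) :
    K * N (F.rho v) ≤ 2 * #(F.tree (F.tr v)) := by
  have h1 := F.count_Cu hf hK hN (F.rho v)
  have h2 := F.root_le hf v
  have h3 := Nat.mul_div_le (f (F.rho v)) K
  have h4 : K * N (F.rho v) ≤ K * (2 * (f (F.rho v) / K)) := Nat.mul_le_mul_left _ (by omega)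
  rw [mul_left_comm] at h4
  omega

open Classical in
theorem card_Cu [DecidableEq I] {K : ℕ} (hK : 0 < K) (v : V) :
    K * #{u ∈ F.tree (F.tr v) | F.Cu f K u} ≤ 2 * #(F.tree (F.tr v)) := by
  obtain ⟨N, hN⟩ := F.exists_sum fun u => if F.Cu f K u then 1 else 0
  have h1 := F.le_root _ N hN v
  rw [← card_filter] at h1
  exact (Nat.mul_le_mul_left _ h1).trans (F.root_Cu hf hK hN v)

end Size

end Fo

end Pool.Agent.Lib.MP_2b1ae8_co.AT
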